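import Mathlib

/-!
# Boundaries of sets in weighted graphs with a transitive group

`w` is a nonnegative symmetric weight on the pairs of points of `V`, invariant under a finite group
`Γ` which acts transitively on `V`. `B w S` is the weight of the boundary of `S`, `tr g S` the
translate of `S` by `g`.
-/

set_option autoImplicit false
set_option linter.unusedSectionVars false

namespace Pool.Agent.H32.VT

open Finset

section
variable {V : Type} [Fintype V] [DecidableEq V]

/-- indicator -/
noncomputable def ind (S : Finset V) (x : V) : ℝ := if x ∈ S then 1 else 0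

lemma ind_mem {S : Finset V} {x : V} (h : x ∈ S) : ind S x = 1 := if_pos h

lemma ind_notMem {S : Finset V} {x : V} (h : x ∉ S) : ind S x = 0 := if_neg h

lemma ind_nonneg (S : Finset V) (x : V) : 0 ≤ ind S x := by
  unfold ind
  split_ifs <;> norm_num

lemma ind_le_one (S : Finset V) (x : V) : ind S x ≤ 1 := by
  unfold ind
  split_ifs <;> norm_num

lemma sum_ind (S : Finset V) : ∑ x, ind S x = S.card := by
  unfold ind
  simp

lemma sum_mul_ind (S : Finset V) (f : V → ℝ) : ∑ x, ind S x * f x = ∑ x ∈ S, f x := by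
  unfold ind
  simp

/-- weight of the boundary -/
noncomputable def B (w : V → V → ℝ) (S : Finset V) : ℝ :=
  ∑ x, ∑ y, w x y * (ind S x * (1 - ind S y))

lemma B_nonneg {w : V → V → ℝ} (hw : ∀ x y, 0 ≤ w x y) (S : Finset V) : 0 ≤ B w S := by
  unfold B
  apply Finset.sum_nonneg
  intro x _
  apply Finset.sum_nonneg
  intro y _
  have h1 := ind_nonneg S x
  have h2 := ind_le_one S y
  exact mul_nonneg (hw x y) (mul_nonneg h1 (by linarith))

lemma B_empty (w : V → V → ℝ) : B w ∅ = 0 := by
  unfold B ind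
  simp

lemma B_inter_le {w : V → V → ℝ} (hw : ∀ x y, 0 ≤ w x y) (S T : Finset V) :
    B w (S ∩ T) ≤ (∑ x, ∑ y, w x y * (ind S x * (1 - ind S y)) * ind T x) +
      ∑ x, ∑ y, w x y * (ind T x * (1 - ind T y)) * ind S x := by
  unfold B
  rw [← Finset.sum_add_distrib]
  apply Finset.sum_le_sum
  intro x _
  rw [← Finset.sum_add_distrib]
  apply Finset.sum_le_sum
  intro y _
  have : ind (S ∩ T) x * (1 - ind (S ∩ T) y) ≤ (ind S x * (1 - ind S y)) * ind T x
      + (ind T x * (1 - ind T y)) * ind S x := by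
    unfold ind
    simp only [mem_inter]
    by_cases h1 : x ∈ S <;> by_cases h2 : x ∈ T <;> by_cases h3 : y ∈ S <;>
      by_cases h4 : y ∈ T <;> simp [h1, h2, h3, h4]
  nlinarith [hw x y, mul_le_mul_of_nonneg_left this (hw x y)]

lemma B_inter_le_add {w : V → V → ℝ} (hw : ∀ x y, 0 ≤ w x y) (S T : Finset V) :
    B w (S ∩ T) ≤ B w S + B w T := by
  refine (B_inter_le hw S T).trans ?_
  unfold B
  apply add_le_add
  · apply Finset.sum_le_sum
    intro x _
    apply Finset.sum_le_sum
    intro y _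
    have h1 : 0 ≤ w x y * (ind S x * (1 - ind S y)) :=
      mul_nonneg (hw x y) (mul_nonneg (ind_nonneg S x) (by linarith [ind_le_one S y]))
    nlinarith [ind_le_one T x]
  · apply Finset.sum_le_sum
    intro x _
    apply Finset.sum_le_sum
    intro y _
    have h1 : 0 ≤ w x y * (ind T x * (1 - ind T y)) :=
      mul_nonneg (hw x y) (mul_nonneg (ind_nonneg T x) (by linarith [ind_le_one T y]))
    nlinarith [ind_le_one S x]

lemma B_union_le {w : V → V → ℝ} (hw : ∀ x y, 0 ≤ w x y) (U T : Finset V) :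
    B w (U ∪ T) ≤ B w U + ∑ x, ∑ y, w x y * (ind T x * (1 - ind T y)) * (1 - ind U x) := by
  unfold B
  rw [← Finset.sum_add_distrib]
  apply Finset.sum_le_sum
  intro x _
  rw [← Finset.sum_add_distrib]
  apply Finset.sum_le_sum
  intro y _
  have : ind (U ∪ T) x * (1 - ind (U ∪ T) y) ≤ ind U x * (1 - ind U y)
      + (ind T x * (1 - ind T y)) * (1 - ind U x) := by
    unfold ind
    simp only [mem_union]
    by_cases h1 : x ∈ U <;> by_cases h2 : x ∈ T <;> by_cases h3 : y ∈ U <;>
      by_cases h4 : y ∈ T <;> simp [h1, h2, h3, h4]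
  nlinarith [hw x y, mul_le_mul_of_nonneg_left this (hw x y)]

/-- a superset with `r` more points has at most `D r` more boundary -/
lemma B_superset_le {w : V → V → ℝ} (hw : ∀ x y, 0 ≤ w x y) {D : ℝ} (hD : ∀ x, ∑ y, w x y ≤ D)
    {U T : Finset V} (h : U ⊆ T) : B w T ≤ B w U + D * (T.card - U.card : ℝ) := by
  have h1 : B w T ≤ B w U + ∑ x, ∑ y, w x y * (ind T x - ind U x) := by
    unfold B
    rw [← Finset.sum_add_distrib]
    apply Finset.sum_le_sum
    intro x _
    rw [← Finset.sum_add_distrib]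
    apply Finset.sum_le_sum
    intro y _
    have : ind T x * (1 - ind T y) ≤ ind U x * (1 - ind U y) + (ind T x - ind U x) := by
      unfold ind
      by_cases h1 : x ∈ U
      · have h1' := h h1
        by_cases h3 : y ∈ U
        · simp [h1, h1', h3, h h3]
        · by_cases h4 : y ∈ T <;> simp [h1, h1', h3, h4]
      · by_cases h2 : x ∈ T <;> by_cases h3 : y ∈ U <;> by_cases h4 : y ∈ T <;>
          simp [h1, h2, h3, h4]
    nlinarith [hw x y, mul_le_mul_of_nonneg_left this (hw x y)]
  have h2 : ∑ x, ∑ y, w x y * (ind T x - ind U x) ≤ ∑ x, D * (ind T x - ind U x) := by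
    apply Finset.sum_le_sum
    intro x _
    rw [← Finset.sum_mul]
    apply mul_le_mul_of_nonneg_right (hD x)
    unfold ind
    by_cases h1 : x ∈ U
    · simp [h1, h h1]
    · by_cases h2 : x ∈ T <;> simp [h1, h2]
  have h3 : ∑ x, D * (ind T x - ind U x) = D * (T.card - U.card : ℝ) := by
    rw [← Finset.mul_sum, Finset.sum_sub_distrib, sum_ind, sum_ind]
  linarith

end

section
variable {V : Type} [Fintype V] [DecidableEq V] {Γ : Type} [Group Γ] [Fintype Γ] [DecidableEq Γ]
  [MulAction Γ V]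

/-- translate -/
def tr (g : Γ) (S : Finset V) : Finset V := univ.filter fun x => g⁻¹ • x ∈ S

lemma mem_tr (g : Γ) (S : Finset V) (x : V) : x ∈ tr g S ↔ g⁻¹ • x ∈ S := by
  unfold tr
  rw [mem_filter]
  simp

lemma ind_tr (g : Γ) (S : Finset V) (x : V) : ind (tr g S) x = ind S (g⁻¹ • x) := by
  unfold ind
  simp only [mem_tr]

lemma sum_smul (g : Γ) (f : V → ℝ) : ∑ x, f (g • x) = ∑ x, f x :=
  Equiv.sum_comp (MulAction.toPerm g) f

lemma card_tr (g : Γ) (S : Finset V) : ((tr g S).card : ℝ) = S.card := by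
  rw [← sum_ind, ← sum_ind]
  simp only [ind_tr]
  exact sum_smul g⁻¹ (ind S)

lemma tr_tr (g h : Γ) (S : Finset V) : tr g (tr h S) = tr (g * h) S := by
  ext x
  rw [mem_tr, mem_tr, mem_tr, mul_inv_rev, mul_smul]

lemma tr_one (S : Finset V) : tr (1 : Γ) S = S := by
  ext x
  rw [mem_tr, inv_one, one_smul]

lemma tr_inter (g : Γ) (S T : Finset V) : tr g (S ∩ T) = tr g S ∩ tr g T := by
  ext x
  rw [mem_inter, mem_tr, mem_tr, mem_tr, mem_inter]

lemma B_tr {w : V → V → ℝ} (hinv : ∀ (g : Γ) x y, w (g • x) (g • y) = w x y) (g : Γ)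
    (S : Finset V) : B w (tr g S) = B w S := by
  unfold B
  simp only [ind_tr]
  rw [← sum_smul g]
  apply Finset.sum_congr rfl
  intro x _
  rw [← sum_smul g]
  apply Finset.sum_congr rfl
  intro y _
  rw [hinv, inv_smul_smul, inv_smul_smul]

/-- averages over the group are averages over the points -/
lemma sum_orbit (htr : ∀ x y : V, ∃ g : Γ, g • x = y) (f : V → ℝ) (x : V) :
    (Fintype.card V : ℝ) * ∑ g : Γ, f (g • x) = Fintype.card Γ * ∑ y, f y := by
  have h1 : ∀ y, ∑ g : Γ, f (g • y) = ∑ g : Γ, f (g • x) := by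
    intro y
    obtain ⟨h, rfl⟩ := htr x y
    simp only [← mul_smul]
    exact Equiv.sum_comp (Equiv.mulRight h) (fun g => f (g • x))
  calc (Fintype.card V : ℝ) * ∑ g : Γ, f (g • x) = ∑ y : V, ∑ g : Γ, f (g • y) := by
        rw [Finset.sum_congr rfl (fun y _ => h1 y), Finset.sum_const, Finset.card_univ,
          nsmul_eq_mul]
    _ = ∑ g : Γ, ∑ y : V, f (g • y) := Finset.sum_comm
    _ = ∑ g : Γ, ∑ y : V, f y := by
        apply Finset.sum_congr rfl
        intro g _
        exact sum_smul g f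
    _ = _ := by rw [Finset.sum_const, Finset.card_univ, nsmul_eq_mul]

lemma sum_orbit_inv (htr : ∀ x y : V, ∃ g : Γ, g • x = y) (f : V → ℝ) (x : V) :
    (Fintype.card V : ℝ) * ∑ g : Γ, f (g⁻¹ • x) = Fintype.card Γ * ∑ y, f y := by
  rw [← sum_orbit htr f x]
  congr 1
  exact Equiv.sum_comp (Equiv.inv Γ) (fun g => f (g • x))

end

end Pool.Agent.H32.VT
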