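import Pool.Agent.H32.VT.Descent

/-!
# Expansion at one scale implies expansion at all scales in vertex-transitive graphs
-/

set_option autoImplicit false
set_option linter.unusedSectionVars false

namespace Pool.Agent.H32.VT

open Finset

section
variable {V : Type} [Fintype V] [DecidableEq V] {Γ : Type} [Group Γ] [Fintype Γ] [DecidableEq Γ]
  [MulAction Γ V]

/-- several steps of the descent -/
theorem descent_iter {w : V → V → ℝ} (hw : ∀ x y, 0 ≤ w x y)
    (hw1 : ∀ x y, w x y = 0 ∨ 1 ≤ w x y)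
    (hinv : ∀ (g : Γ) x y, w (g • x) (g • y) = w x y)
    (htr : ∀ x y : V, ∃ g : Γ, g • x = y)
    (hconn : ∀ S : Finset V, B w S = 0 → S = ∅ ∨ S = univ) (j : ℕ) :
    ∀ S : Finset V, S.Nonempty → 2 * S.card ≤ Fintype.card V →
    15 * 10 ^ j * B w S < S.card →
    ∃ S' : Finset V, S'.Nonempty ∧ 3 ^ j * S'.card ≤ 2 ^ j * S.card ∧
      B w S' * S.card ≤ 10 ^ j * B w S * S'.card := by
  induction j with
  | zero =>
    intro S hS _ _
    exact ⟨S, hS, by simp, by simp⟩
  | succ j ih =>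
    intro S hS hS2 hB
    have hB0 := B_nonneg hw S
    have hs0 : (0 : ℝ) < S.card := by exact_mod_cast hS.card_pos
    have h10 : (1 : ℝ) ≤ 10 ^ j := one_le_pow₀ (by norm_num)
    obtain ⟨S1, h1, h2, h3⟩ := descent hw hw1 hinv htr hconn S hS hS2 (by
      rw [pow_succ] at hB
      nlinarith [mul_le_mul_of_nonneg_right h10 hB0])
    have hs1 : (0 : ℝ) < S1.card := by exact_mod_cast h1.card_pos
    obtain ⟨S2, h4, h5, h6⟩ := ih S1 h1 (by omega) (by
      have e1 : (15 * 10 ^ j * B w S1) * S.card ≤ (15 * 10 ^ (j + 1) * B w S) * S1.card := by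
        have := mul_le_mul_of_nonneg_left h3 (by positivity : (0 : ℝ) ≤ 15 * 10 ^ j)
        rw [pow_succ]
        linarith
      have e2 : (15 * 10 ^ (j + 1) * B w S) * S1.card < S.card * S1.card :=
        mul_lt_mul_of_pos_right hB hs1
      have e3 : (15 * 10 ^ j * B w S1) * S.card < S1.card * S.card := by linarith
      exact lt_of_mul_lt_mul_right e3 hs0.le)
    refine ⟨S2, h4, ?_, ?_⟩
    · calc 3 ^ (j + 1) * S2.card = 3 * (3 ^ j * S2.card) := by ring
        _ ≤ 3 * (2 ^ j * S1.card) := Nat.mul_le_mul_left _ h5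
        _ = 2 ^ j * (3 * S1.card) := by ring
        _ ≤ 2 ^ j * (2 * S.card) := Nat.mul_le_mul_left _ h2
        _ = 2 ^ (j + 1) * S.card := by ring
    · have e1 : (B w S2 * S.card) * S1.card ≤ (10 ^ (j + 1) * B w S * S2.card) * S1.card := by
        have e2 := mul_le_mul_of_nonneg_right h6 hs0.le
        have e3 := mul_le_mul_of_nonneg_left h3
          (by positivity : (0 : ℝ) ≤ 10 ^ j * (S2.card : ℝ))
        rw [pow_succ]
        linarith
      exact le_of_mul_le_mul_right e1 hs1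

/-- the number of steps -/
lemma exists_steps {t : ℝ} (ht : 0 < t) (ht1 : t ≤ 1) :
    ∃ j : ℕ, 10 ^ j * t ^ 6 < 10 ∧ (2 / 3 : ℝ) ^ j ≤ t := by
  have hex : ∃ j : ℕ, 1 ≤ 10 ^ j * t ^ 6 := by
    obtain ⟨j, hj⟩ := pow_unbounded_of_one_lt (1 / t ^ 6) (by norm_num : (1 : ℝ) < 10)
    refine ⟨j, ?_⟩
    rw [div_lt_iff₀ (by positivity)] at hj
    exact hj.le
  classical
  refine ⟨Nat.find hex, ?_, ?_⟩
  · rcases Nat.eq_zero_or_pos (Nat.find hex) with h | h
    · rw [h, pow_zero, one_mul]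
      have : t ^ 6 ≤ 1 := pow_le_one₀ ht.le ht1
      linarith
    · have h1 := Nat.find_min hex (m := Nat.find hex - 1) (by omega)
      push Not at h1
      have h2 : (10 : ℝ) ^ (Nat.find hex) = 10 * 10 ^ (Nat.find hex - 1) := by
        rw [← pow_succ']
        congr 1
        omega
      rw [h2]
      linarith
  · have h1 := Nat.find_spec hex
    set j := Nat.find hex with hj
    have h2 : ((2 / 3 : ℝ) ^ j) ^ 6 ≤ t ^ 6 := by
      rw [← pow_mul, mul_comm, pow_mul]
      have h3 : ((2 / 3 : ℝ) ^ 6) ^ j ≤ (1 / 10) ^ j := by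
        apply pow_le_pow_left₀ (by norm_num)
        norm_num
      have h4 : (1 / 10 : ℝ) ^ j * 10 ^ j = 1 := by
        rw [← mul_pow]
        norm_num
      have h5 : (0 : ℝ) < (1 / 10) ^ j := by positivity
      have h6 : (1 / 10 : ℝ) ^ j ≤ t ^ 6 := by
        calc (1 / 10 : ℝ) ^ j = (1 / 10) ^ j * 1 := by ring
          _ ≤ (1 / 10) ^ j * (10 ^ j * t ^ 6) := mul_le_mul_of_nonneg_left h1 h5.le
          _ = t ^ 6 := by rw [← mul_assoc, h4, one_mul]
      linarith
    exact le_of_pow_le_pow_left₀ (by norm_num) ht.le h2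

/-- the main theorem, for weighted graphs -/
theorem scales {w : V → V → ℝ} (hw : ∀ x y, 0 ≤ w x y)
    (hw1 : ∀ x y, w x y = 0 ∨ 1 ≤ w x y)
    (hinv : ∀ (g : Γ) x y, w (g • x) (g • y) = w x y)
    (htr : ∀ x y : V, ∃ g : Γ, g • x = y)
    (hconn : ∀ S : Finset V, B w S = 0 → S = ∅ ∨ S = univ) {D : ℝ} (hD0 : 1 ≤ D)
    (hD : ∀ x, ∑ y, w x y ≤ D) {η δ : ℝ} (hη : 0 < η) (hη1 : η ≤ 1) (hδ : 0 < δ) (hδ1 : δ ≤ 1)
    (S : Finset V) (hS : S.Nonempty) (hS2 : 2 * S.card ≤ Fintype.card V)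
    (hB : 150 * B w S ≤ η ^ 7 * δ ^ 6 * S.card) (k : ℕ) (hk : δ * Fintype.card V ≤ k)
    (hkn : k ≤ Fintype.card V) :
    ∃ T : Finset V, T.card = k ∧ B w T ≤ η * (D * k) := by
  have hs0 : (0 : ℝ) < S.card := by exact_mod_cast hS.card_pos
  have hB0 := B_nonneg hw S
  set t : ℝ := η * δ with ht
  have ht0 : 0 < t := mul_pos hη hδ
  have ht1 : t ≤ 1 := by
    rw [ht]
    nlinarith
  obtain ⟨j, hj1, hj2⟩ := exists_steps ht0 ht1
  have e0 : η ^ 7 * δ ^ 6 = η * t ^ 6 := by
    rw [ht]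
    ring
  rw [e0] at hB
  have h10 : (0 : ℝ) < 10 ^ j := by positivity
  have hkey : 15 * 10 ^ j * B w S ≤ η * S.card * (10 ^ j * t ^ 6 / 10) := by
    have := mul_le_mul_of_nonneg_left hB h10.le
    linarith
  have hkey2 : η * S.card * (10 ^ j * t ^ 6 / 10) < η * S.card := by
    have h1 : 0 < η * S.card := mul_pos hη hs0
    nlinarith
  obtain ⟨S', h1, h2, h3⟩ := descent_iter hw hw1 hinv htr hconn j S hS hS2 (by nlinarith)
  have hs1 : (0 : ℝ) < S'.card := by exact_mod_cast h1.card_pos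
  obtain ⟨T, hT, hBT⟩ := ascent hw hinv htr (by linarith : (0 : ℝ) ≤ D) hD S' h1 k hkn
  refine ⟨T, hT, hBT.trans ?_⟩
  -- the rate of `S'`
  have hrate : B w S' / S'.card ≤ η / 15 := by
    rw [div_le_iff₀ hs1]
    have e1 : 15 * (B w S' * S.card) ≤ (η * S'.card) * S.card := by
      calc 15 * (B w S' * S.card) ≤ 15 * (10 ^ j * B w S * S'.card) := by linarith
        _ = (15 * 10 ^ j * B w S) * S'.card := by ring
        _ ≤ (η * S.card) * S'.card := mul_le_mul_of_nonneg_right (by linarith) hs1.le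
        _ = _ := by ring
    have e2 : 15 * B w S' ≤ η * S'.card := by
      have e3 : (15 * B w S') * S.card ≤ (η * S'.card) * S.card := by linarith
      exact le_of_mul_le_mul_right e3 hs0
    linarith
  -- the size of `S'`
  have hsize : 2 * (S'.card : ℝ) ≤ t * Fintype.card V := by
    have e1 : (3 : ℝ) ^ j * S'.card ≤ 2 ^ j * S.card := by exact_mod_cast h2
    have e2 : (S'.card : ℝ) ≤ (2 / 3) ^ j * S.card := by
      rw [div_pow, div_mul_eq_mul_div, le_div_iff₀ (by positivity)]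
      linarith
    have e3 : 2 * (S.card : ℝ) ≤ Fintype.card V := by exact_mod_cast hS2
    calc 2 * (S'.card : ℝ) ≤ (2 / 3) ^ j * (2 * S.card) := by linarith
      _ ≤ t * (2 * S.card) := mul_le_mul_of_nonneg_right hj2 (by linarith)
      _ ≤ t * Fintype.card V := mul_le_mul_of_nonneg_left e3 ht0.le
  have hk0 : (0 : ℝ) ≤ k := Nat.cast_nonneg k
  have e4 : t * Fintype.card V ≤ η * k := by
    rw [ht, mul_assoc]
    exact mul_le_mul_of_nonneg_left hk hη.le
  have e5 : B w S' / S'.card * k ≤ η / 15 * k := mul_le_mul_of_nonneg_right hrate hk0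
  have e6 : η / 15 * k ≤ η / 15 * (D * k) := by
    apply mul_le_mul_of_nonneg_left _ (by positivity)
    nlinarith
  have e7 : D * ((S'.card : ℝ) - 1) ≤ D * (η * k / 2) :=
    mul_le_mul_of_nonneg_left (by linarith) (by linarith)
  have e8 : 0 ≤ η * (D * k) := by positivity
  linarith

end

end Pool.Agent.H32.VT
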