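import Pool.Agent.H32.VT.Dicho
import Pool.Agent.H32.VT.Main

/-!
# Systems of blocks and sparse cuts in graphs of any degree
-/

set_option autoImplicit false
set_option linter.unusedSectionVars false

namespace Pool.Agent.H32.VT

open Finset

section
variable {V : Type} [Fintype V] [DecidableEq V]

open Classical in
/-- the class of `x` -/
noncomputable def cls (r : V → V → Prop) (x : V) : Finset V := univ.filter fun y => r x y

lemma mem_cls (r : V → V → Prop) (x y : V) : y ∈ cls r x ↔ r x y := by
  classical
  unfold cls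
  simp

open Classical in
/-- the weight inside the classes -/
noncomputable def wi (w : V → V → ℝ) (r : V → V → Prop) (x y : V) : ℝ := if r x y then w x y else 0

open Classical in
/-- the weight which leaves the class of `x` at `x` -/
noncomputable def wo (w : V → V → ℝ) (r : V → V → Prop) (x : V) : ℝ :=
  ∑ y, if r x y then 0 else w x y

lemma wi_nonneg {w : V → V → ℝ} (hw : ∀ x y, 0 ≤ w x y) (r : V → V → Prop) (x y : V) :
    0 ≤ wi w r x y := by
  unfold wi
  split_ifs
  · exact hw x y
  · exact le_rfl

lemma wo_nonneg {w : V → V → ℝ} (hw : ∀ x y, 0 ≤ w x y) (r : V → V → Prop) (x : V) :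
    0 ≤ wo w r x := by
  unfold wo
  apply Finset.sum_nonneg
  intro y _
  split_ifs
  · exact le_rfl
  · exact hw x y

lemma B_le_wi {w : V → V → ℝ} (hw : ∀ x y, 0 ≤ w x y) (r : V → V → Prop) {β : ℝ}
    (hβ : ∀ x, wo w r x ≤ β) (T : Finset V) : B w T ≤ B (wi w r) T + β * T.card := by
  have h1 : β * (T.card : ℝ) = ∑ x, ind T x * β := by
    rw [← Finset.sum_mul, sum_ind]
    ring
  rw [h1]
  unfold B
  rw [← Finset.sum_add_distrib]
  apply Finset.sum_le_sum
  intro x _
  have h2 : ∑ y, w x y * (ind T x * (1 - ind T y)) ≤ ∑ y, wi w r x y * (ind T x * (1 - ind T y))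
      + ind T x * wo w r x := by
    unfold wo
    rw [Finset.mul_sum, ← Finset.sum_add_distrib]
    apply Finset.sum_le_sum
    intro y _
    have h3 := ind_nonneg T x
    have h4 := ind_nonneg T y
    have h5 := ind_le_one T y
    unfold wi
    split_ifs
    · linarith
    · have h6 := mul_nonneg (mul_nonneg (hw x y) h3) h4
      nlinarith
  have h3 := mul_le_mul_of_nonneg_left (hβ x) (ind_nonneg T x)
  linarith

/-- the boundary of a class -/
lemma B_cls {w : V → V → ℝ} {r : V → V → Prop} (hr : Equivalence r) {β : ℝ}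
    (hβ : ∀ x, wo w r x ≤ β) (x : V) : B w (cls r x) ≤ β * (cls r x).card := by
  classical
  have h1 : β * ((cls r x).card : ℝ) = ∑ y, ind (cls r x) y * β := by
    rw [← Finset.sum_mul, sum_ind]
    ring
  rw [h1]
  unfold B
  apply Finset.sum_le_sum
  intro y _
  by_cases hy : r x y
  · have h2 : ∑ z, w y z * (ind (cls r x) y * (1 - ind (cls r x) z)) = wo w r y := by
      unfold wo
      apply Finset.sum_congr rfl
      intro z _
      rw [ind_mem ((mem_cls r x y).2 hy)]
      by_cases hz : r y z
      · rw [if_pos hz, ind_mem ((mem_cls r x z).2 (hr.trans hy hz))]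
        ring
      · rw [if_neg hz, ind_notMem (fun h => hz (hr.trans (hr.symm hy) ((mem_cls r x z).1 h)))]
        ring
    rw [h2, ind_mem ((mem_cls r x y).2 hy)]
    linarith [hβ y]
  · rw [ind_notMem (fun h => hy ((mem_cls r x y).1 h))]
    simp

lemma wo_le_of_refine {w : V → V → ℝ} {r r' : V → V → Prop}
    (hrr : ∀ x y, r' x y → r x y) (x : V) : wo w r' x = wo (wi w r) r' x + wo w r x := by
  unfold wo
  rw [← Finset.sum_add_distrib]
  apply Finset.sum_congr rfl
  intro y _
  unfold wi
  by_cases h1 : r' x y
  · simp [h1, hrr x y h1]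
  · by_cases h2 : r x y <;> simp [h1, h2]

end

section
variable {V : Type} [Fintype V] [DecidableEq V] {Γ : Type} [Group Γ] [Fintype Γ] [DecidableEq Γ]
  [MulAction Γ V]

variable (Γ) in
/-- equivalence relations which are preserved by the group -/
structure InvRel (r : V → V → Prop) : Prop where
  eqv : Equivalence r
  inv : ∀ (g : Γ) x y, r x y → r (g • x) (g • y)

lemma InvRel.iff {r : V → V → Prop} (hr : InvRel Γ r) (g : Γ) (x y : V) :
    r (g • x) (g • y) ↔ r x y := by
  constructor
  · intro h
    have := hr.inv g⁻¹ _ _ h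
    rwa [inv_smul_smul, inv_smul_smul] at this
  · exact hr.inv g x y

lemma InvRel.card_cls {r : V → V → Prop} (hr : InvRel Γ r)
    (htr : ∀ x y : V, ∃ g : Γ, g • x = y) (x y : V) : (cls r x).card = (cls r y).card := by
  obtain ⟨g, rfl⟩ := htr x y
  rw [← card_tr' g (cls r x)]
  congr 1
  ext z
  rw [mem_tr, mem_cls, mem_cls]
  have := hr.iff g x (g⁻¹ • z)
  rw [smul_inv_smul] at this
  exact this.symm

lemma InvRel.wi_inv {w : V → V → ℝ} (hinv : ∀ (g : Γ) x y, w (g • x) (g • y) = w x y)
    {r : V → V → Prop} (hr : InvRel Γ r) (g : Γ) (x y : V) :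
    wi w r (g • x) (g • y) = wi w r x y := by
  unfold wi
  have h := hr.iff g x y
  rw [hinv]
  by_cases h1 : r x y
  · rw [if_pos h1, if_pos (h.2 h1)]
  · rw [if_neg h1, if_neg (fun h2 => h1 (h.1 h2))]

lemma InvRel.wo_inv {w : V → V → ℝ} (hinv : ∀ (g : Γ) x y, w (g • x) (g • y) = w x y)
    {r : V → V → Prop} (hr : InvRel Γ r) (g : Γ) (x : V) : wo w r (g • x) = wo w r x := by
  unfold wo
  rw [← sum_smul g]
  apply Finset.sum_congr rfl
  intro y _
  have h := hr.iff g x y
  rw [hinv]
  by_cases h1 : r x y
  · rw [if_pos h1, if_pos (h.2 h1)]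
  · rw [if_neg h1, if_neg (fun h2 => h1 (h.1 h2))]

/-- the points which are not separated by the translates of `O` -/
def atom (Γ : Type) [Group Γ] [MulAction Γ V] (O : Finset V) (x y : V) : Prop :=
  ∀ g : Γ, x ∈ tr g O ↔ y ∈ tr g O

lemma atom_inv (O : Finset V) : InvRel Γ (atom Γ O) := by
  refine ⟨⟨fun x g => Iff.rfl, fun h g => (h g).symm, fun h1 h2 g => (h1 g).trans (h2 g)⟩, ?_⟩
  intro g x y h k
  have := h (g⁻¹ * k)
  rw [← tr_tr] at this
  rw [mem_tr g⁻¹, mem_tr g⁻¹, inv_inv] at this
  exact this

/-- the weight between the atoms -/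
theorem wo_atom_le {w : V → V → ℝ} (hw : ∀ x y, 0 ≤ w x y) (hsym : ∀ x y, w x y = w y x)
    (hinv : ∀ (g : Γ) x y, w (g • x) (g • y) = w x y)
    (htr : ∀ x y : V, ∃ g : Γ, g • x = y) (O : Finset V) (H : Finset Γ)
    (hHO : ∀ h ∈ H, ∀ y, h • y ∈ O ↔ y ∈ O) (x : V) :
    (H.card : ℝ) * (Fintype.card V * wo w (atom Γ O) x) ≤ 2 * (Fintype.card Γ * B w O) := by
  classical
  have hr := atom_inv (Γ := Γ) O
  have h1 : (Fintype.card V : ℝ) * wo w (atom Γ O) x = ∑ y, wo w (atom Γ O) y := by
    rw [Finset.sum_congr rfl (g := fun _ => wo w (atom Γ O) x), Finset.sum_const, card_univ,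
      nsmul_eq_mul]
    intro y _
    obtain ⟨g, rfl⟩ := htr x y
    exact hr.wo_inv hinv g x
  rw [h1]
  set F : Γ → V → V → ℝ := fun g x y => ind (tr g O) x * (1 - ind (tr g O) y)
    + ind (tr g O) y * (1 - ind (tr g O) x) with hF
  have hF0 : ∀ g x y, 0 ≤ F g x y := by
    intro g x y
    have h1 := ind_nonneg (tr g O) x
    have h2 := ind_nonneg (tr g O) y
    have h3 := ind_le_one (tr g O) x
    have h4 := ind_le_one (tr g O) y
    exact add_nonneg (mul_nonneg h1 (by linarith)) (mul_nonneg h2 (by linarith))
  have hFsum : ∀ g : Γ, ∑ x, ∑ y, w x y * F g x y = 2 * B w O := by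
    intro g
    have e1 : ∑ x, ∑ y, w x y * (ind (tr g O) x * (1 - ind (tr g O) y)) = B w O := B_tr hinv g O
    have e2 : ∑ x, ∑ y, w x y * (ind (tr g O) y * (1 - ind (tr g O) x)) = B w O := by
      rw [Finset.sum_comm, ← e1]
      apply Finset.sum_congr rfl
      intro x _
      apply Finset.sum_congr rfl
      intro y _
      rw [hsym y x]
    simp only [hF, mul_add, Finset.sum_add_distrib]
    linarith
  have hsep : ∀ x y, ¬ atom Γ O x y → (H.card : ℝ) ≤ ∑ g : Γ, F g x y := by
    intro x y hxy
    unfold atom at hxy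
    push Not at hxy
    obtain ⟨g, hg⟩ := hxy
    have e1 : ∀ h ∈ H, tr (g * h) O = tr g O := by
      intro h hh
      rw [← tr_tr]
      congr 1
      ext z
      rw [mem_tr, ← hHO h hh (h⁻¹ • z), smul_inv_smul]
    calc (H.card : ℝ) = ∑ h ∈ H, F (g * h) x y := by
          rw [Finset.sum_congr rfl (g := fun _ => (1 : ℝ))]
          · simp
          · intro h hh
            simp only [hF, e1 h hh]
            unfold ind
            rcases hg with ⟨h1, h2⟩ | ⟨h1, h2⟩ <;> simp [h1, h2]
      _ = ∑ k ∈ H.image (fun h => g * h), F k x y := by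
          rw [Finset.sum_image]
          intro a _ b _ hab
          exact mul_left_cancel hab
      _ ≤ ∑ k : Γ, F k x y := by
          apply Finset.sum_le_sum_of_subset_of_nonneg (subset_univ _)
          intro k _ _
          exact hF0 k x y
  calc (H.card : ℝ) * ∑ y, wo w (atom Γ O) y
      = ∑ x, ∑ y, H.card * (if atom Γ O x y then 0 else w x y) := by
        unfold wo
        rw [Finset.mul_sum]
        apply Finset.sum_congr rfl
        intro x _
        rw [Finset.mul_sum]
    _ ≤ ∑ x, ∑ y, w x y * ∑ g : Γ, F g x y := by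
        apply Finset.sum_le_sum
        intro x _
        apply Finset.sum_le_sum
        intro y _
        split_ifs with h
        · rw [mul_zero]
          exact mul_nonneg (hw x y) (Finset.sum_nonneg fun g _ => hF0 g x y)
        · rw [mul_comm]
          exact mul_le_mul_of_nonneg_left (hsep x y h) (hw x y)
    _ = ∑ g : Γ, ∑ x, ∑ y, w x y * F g x y := by
        simp only [Finset.mul_sum]
        rw [Finset.sum_comm (s := (univ : Finset Γ))]
        apply Finset.sum_congr rfl
        intro x _
        rw [Finset.sum_comm]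
    _ = 2 * (Fintype.card Γ * B w O) := by
        rw [Finset.sum_congr rfl (fun g _ => hFsum g), Finset.sum_const, card_univ, nsmul_eq_mul]
        ring

/-- one refinement: a sparse cut inside of a class gives a finer system of blocks -/
theorem refine_step {w : V → V → ℝ} (hw : ∀ x y, 0 ≤ w x y) (hsym : ∀ x y, w x y = w y x)
    (hinv : ∀ (g : Γ) x y, w (g • x) (g • y) = w x y)
    (htr : ∀ x y : V, ∃ g : Γ, g • x = y) {r : V → V → Prop} (hr : InvRel Γ r) {κ β s : ℝ}
    (hβ : ∀ x, wo w r x ≤ β)
    (hsse : ∀ T : Finset V, T.Nonempty → (T.card : ℝ) ≤ s → κ * T.card < B w T)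
    (x : V) (j : ℕ) :
    ∀ (T : Finset V) (c : ℝ), 0 ≤ c → T ⊆ cls r x → T.Nonempty → 2 * T.card ≤ (cls r x).card →
      (2 / 3 : ℝ) ^ j * T.card ≤ s → B (wi w r) T ≤ c * T.card → 10 ^ j * c + β ≤ κ →
      ∃ r', InvRel Γ r' ∧ (∀ y z, r' y z → r y z) ∧ (∀ y, wo w r' y ≤ β + 30 * 10 ^ j * c) ∧
        (∀ y, 2 * (cls r' y).card ≤ (cls r y).card) := by
  have hr' := hr.eqv
  have hwi := wi_nonneg hw r
  have hwiinv := hr.wi_inv hinv
  induction j with
  | zero =>
    intro T c hc hTx hT _ hTs hBT hκ
    exfalso
    rw [pow_zero, one_mul] at hTs hκ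
    have h1 := hsse T hT hTs
    have h2 := B_le_wi hw r hβ T
    have h3 : (0 : ℝ) ≤ T.card := Nat.cast_nonneg _
    have h4 := mul_le_mul_of_nonneg_right hκ h3
    linarith
  | succ j ih =>
    intro T c hc hTx hT hT2 hTs hBT hκ
    have h10 : (1 : ℝ) ≤ 10 ^ j := one_le_pow₀ (by norm_num)
    have hT0 : (0 : ℝ) < T.card := by exact_mod_cast hT.card_pos
    rcases dichotomy hwi hwiinv htr T hT with ⟨T', h1, h2, h3, h4⟩ | ⟨H, O, h1, h2, h3, h4, h5, h6, h7⟩
    · -- a smaller set
      obtain ⟨r', e1, e2, e3, e4⟩ := ih T' (10 * c) (by linarith) (h1.trans hTx) h2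
        ((Nat.mul_le_mul_left 2 (card_le_card h1)).trans hT2) (by
          have e1 : 3 * (T'.card : ℝ) ≤ 2 * T.card := by exact_mod_cast h3
          have e2 : (0 : ℝ) ≤ (2 / 3) ^ j := by positivity
          rw [pow_succ] at hTs
          nlinarith [mul_le_mul_of_nonneg_left e1 e2]) (by
          have e1 : B (wi w r) T' * T.card ≤ (10 * c * T'.card) * T.card := by
            have e2 : 10 * B (wi w r) T * T'.card ≤ 10 * (c * T.card) * T'.card := by
              apply mul_le_mul_of_nonneg_right _ (Nat.cast_nonneg _)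
              linarith
            linarith
          exact le_of_mul_le_mul_right e1 hT0) (by
          rw [pow_succ] at hκ
          linarith)
      refine ⟨r', e1, e2, ?_, e4⟩
      intro y
      have := e3 y
      rw [pow_succ]
      linarith
    · -- a system of blocks
      obtain ⟨x0, hx0T, hx0, hOx0⟩ := h4
      have hx0r : r x x0 := (mem_cls r x x0).1 (hTx hx0T)
      have hOr : ∀ y ∈ O, r x0 y := by
        intro y hy
        obtain ⟨h, hh, rfl⟩ := hOx0 y hy
        obtain ⟨z, hz⟩ := h2 h hh
        rw [mem_inter, mem_tr] at hz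
        have e1 : r x z := (mem_cls r x z).1 (hTx hz.1)
        have e2 : r x (h⁻¹ • z) := (mem_cls r x _).1 (hTx hz.2)
        have e3 : r (h • x) z := by
          have := hr.inv h _ _ e2
          rwa [smul_inv_smul] at this
        have e4 : r (h • x) (h • x0) := hr.inv h _ _ hx0r
        exact hr'.trans (hr'.symm hx0r) (hr'.trans e1 (hr'.trans (hr'.symm e3) e4))
      have hT0' := hT.card_pos
      have hatom := atom_inv (Γ := Γ) O
      have href : ∀ y z, atom Γ O y z → r y z := by
        intro y z h
        obtain ⟨g, hg⟩ := htr x0 y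
        have e1 : y ∈ tr g O := by
          rw [mem_tr, ← hg, inv_smul_smul]
          exact hx0
        have e2 := (h g).1 e1
        rw [mem_tr] at e2
        have e3 := hr.inv g _ _ (hOr _ e2)
        rwa [smul_inv_smul, hg] at e3
      refine ⟨atom Γ O, hatom, href, ?_, ?_⟩
      · intro y
        rw [wo_le_of_refine href]
        have e1 := wo_atom_le (w := wi w r) hwi (by
          intro a b
          unfold wi
          by_cases hab : r a b
          · rw [if_pos hab, if_pos (hr'.symm hab), hsym]
          · rw [if_neg hab, if_neg (fun h => hab (hr'.symm h))]) hwiinv htr O H h3 y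
        have e2 := hβ y
        have hH0 : (0 : ℝ) < H.card := by exact_mod_cast h1.card_pos
        have hn0 : (0 : ℝ) < Fintype.card V := by
          have : 0 < Fintype.card V := Fintype.card_pos_iff.2 ⟨y⟩
          exact_mod_cast this
        have hG0 : (0 : ℝ) < Fintype.card Γ := by
          have : 0 < Fintype.card Γ := Fintype.card_pos
          exact_mod_cast this
        set W := wo (wi w r) (atom Γ O) y with hW
        have hW0 : 0 ≤ W := wo_nonneg hwi _ _
        have e3 : W ≤ 30 * c := by
          have f1 : 4 * ((Fintype.card Γ : ℝ) * T.card) * W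
              ≤ 5 * (Fintype.card V * H.card) * W := mul_le_mul_of_nonneg_right h6 hW0
          have f2 : 5 * ((Fintype.card V : ℝ) * H.card) * W ≤ 10 * (Fintype.card Γ * B (wi w r) O) := by
            linarith
          have f3 : (Fintype.card Γ : ℝ) * B (wi w r) O ≤ Fintype.card Γ * (12 * (c * T.card)) := by
            apply mul_le_mul_of_nonneg_left _ hG0.le
            linarith
          have f4 : ((Fintype.card Γ : ℝ) * T.card) * (4 * W)
              ≤ (Fintype.card Γ * T.card) * (120 * c) := by linarith
          have f5 := le_of_mul_le_mul_left f4 (by positivity)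
          linarith
        have e4 : (1 : ℝ) ≤ 10 ^ (j + 1) := one_le_pow₀ (by norm_num)
        have e5 : c * 1 ≤ c * 10 ^ (j + 1) := mul_le_mul_of_nonneg_left e4 hc
        linarith
      · -- the class of `x0` is not an atom
        have hcls : (cls (atom Γ O) x0).card = (cls (atom Γ O) x0).card := rfl
        obtain ⟨y, hy, hyO⟩ : ∃ y, r x0 y ∧ y ∉ O := by
          by_contra hno
          push Not at hno
          have e1 : (cls r x0).card ≤ O.card := by
            apply card_le_card
            intro y hy
            exact hno y ((mem_cls r x0 y).1 hy)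
          have e2 := hr.card_cls htr x x0
          omega
        have hdis : Disjoint (cls (atom Γ O) x0) (cls (atom Γ O) y) := by
          rw [Finset.disjoint_left]
          intro z hz1 hz2
          rw [mem_cls] at hz1 hz2
          have e1 := hatom.eqv.trans hz1 (hatom.eqv.symm hz2)
          have e2 := (e1 1).1 (by rw [tr_one]; exact hx0)
          rw [tr_one] at e2
          exact hyO e2
        have hsub : cls (atom Γ O) x0 ∪ cls (atom Γ O) y ⊆ cls r x0 := by
          apply union_subset
          · intro z hz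
            rw [mem_cls] at hz ⊢
            exact href _ _ hz
          · intro z hz
            rw [mem_cls] at hz ⊢
            exact hr'.trans hy (href _ _ hz)
        have e1 := card_le_card hsub
        rw [card_union_of_disjoint hdis, hatom.card_cls htr y x0] at e1
        intro z
        rw [hatom.card_cls htr z x0, hr.card_cls htr z x0]
        omega

end

end Pool.Agent.H32.VT
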