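import Pool.Agent.H32.VT.Tuples
import Mathlib.Combinatorics.SimpleGraph.Metric

/-!
# Chains of close points

If the balls of radius `ρ` are large, then the points which are connected by chains of steps shorter
than `2 ρ` form proper blocks.
-/

set_option autoImplicit false
set_option linter.unusedSectionVars false

namespace Pool.Agent.H32.VT

open Finset

section
variable {V : Type} (H : SimpleGraph V)

lemma exists_dist_eq (u : V) (L : ℕ) : ∀ v, H.Reachable u v → H.dist u v = L → ∀ j ≤ L,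
    ∃ z, H.Reachable u z ∧ H.dist u z = j := by
  induction L with
  | zero =>
    intro v hv hL j hj
    have : j = 0 := by omega
    exact ⟨v, hv, by omega⟩
  | succ L ih =>
    intro v hv hL j hj
    rcases Nat.lt_or_ge j (L + 1) with h | h
    · obtain ⟨p, hp⟩ := hv.symm.exists_walk_length_eq_dist
      rw [H.dist_comm, hL] at hp
      cases p with
      | nil => simp at hp
      | cons hadj q =>
        rename_i v'
        rw [SimpleGraph.Walk.length_cons] at hp
        have h1 : H.dist u v' ≤ L := by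
          have := H.dist_le q
          rw [H.dist_comm]
          omega
        have h2 : H.Reachable u v' := ⟨q.reverse⟩
        have h3 : H.dist u v ≤ H.dist u v' + H.dist v' v := h2.dist_triangle_left v
        have h4 : H.dist v' v = 1 := H.dist_eq_one_iff_adj.2 hadj.symm
        exact ih v' h2 (by omega) j (by omega)
    · have : j = L + 1 := by omega
      exact ⟨v, hv, by omega⟩

lemma dist_adj_le {u v v' : V} (h : H.Reachable u v) (hadj : H.Adj v v') :
    H.dist u v' ≤ H.dist u v + 1 := by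
  have h1 := h.dist_triangle_left v'
  rwa [H.dist_eq_one_iff_adj.2 hadj] at h1

end

section
variable {V : Type} [Fintype V] [DecidableEq V] {Γ : Type} [Group Γ] [Fintype Γ] [DecidableEq Γ]
  [MulAction Γ V]

/-- the graph of close points -/
noncomputable def near (Γ : Type) [Group Γ] [Fintype Γ] [DecidableEq Γ] [MulAction Γ V]
    (S : Finset V) (ρ : ℝ) : SimpleGraph V where
  Adj x y := x ≠ y ∧ sep Γ S x y < 2 * ρ * am Γ S x ∧ sep Γ S y x < 2 * ρ * am Γ S y
  symm := ⟨fun _ _ h => ⟨h.1.symm, h.2.2, h.2.1⟩⟩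
  loopless := ⟨fun _ h => h.1 rfl⟩

lemma near_adj (S : Finset V) (ρ : ℝ) (x y : V) : (near Γ S ρ).Adj x y ↔
    x ≠ y ∧ sep Γ S x y < 2 * ρ * am Γ S x ∧ sep Γ S y x < 2 * ρ * am Γ S y := Iff.rfl

lemma near_of_ball (htr : ∀ x y : V, ∃ g : Γ, g • x = y) (S : Finset V) {ρ : ℝ} {x y z : V}
    (hx : z ∈ ball Γ S ρ x) (hy : z ∈ ball Γ S ρ y) (hxy : x ≠ y) : (near Γ S ρ).Adj x y := by
  rw [mem_ball] at hx hy
  have h1 := sep_tri (Γ := Γ) S x z y
  have h2 := sep_tri (Γ := Γ) S y z x
  rw [sep_symm htr S z y] at h1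
  rw [sep_symm htr S z x] at h2
  have h3 := am_const htr S x y
  rw [near_adj]
  refine ⟨hxy, ?_, ?_⟩
  · rw [← h3] at hy
    linarith
  · rw [h3] at hx
    linarith

lemma near_smul (S : Finset V) (ρ : ℝ) (g : Γ) (x y : V) :
    (near Γ S ρ).Adj (g • x) (g • y) ↔ (near Γ S ρ).Adj x y := by
  rw [near_adj, near_adj, sep_smul, sep_smul, am_smul, am_smul]
  have : g • x ≠ g • y ↔ x ≠ y := by
    rw [ne_eq, ne_eq, smul_left_cancel_iff]
  rw [this]

lemma reach_smul (S : Finset V) (ρ : ℝ) (g : Γ) (x y : V) (h : (near Γ S ρ).Reachable x y) :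
    (near Γ S ρ).Reachable (g • x) (g • y) := by
  obtain ⟨p⟩ := h
  induction p with
  | nil => exact SimpleGraph.Reachable.refl _
  | cons hadj q ih =>
    exact ((near_smul S ρ g _ _).2 hadj).reachable.trans ih

lemma reach_inv (S : Finset V) (ρ : ℝ) : InvRel Γ (near Γ S ρ).Reachable :=
  ⟨(near Γ S ρ).reachable_is_equivalence, fun g x y h => reach_smul S ρ g x y h⟩

lemma sep_le_length (htr : ∀ x y : V, ∃ g : Γ, g • x = y) (S : Finset V) (ρ : ℝ) {x y : V}
    (p : (near Γ S ρ).Walk x y) : sep Γ S x y ≤ 2 * ρ * am Γ S x * p.length := by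
  induction p with
  | nil => simp [sep_self]
  | @cons u v w hadj q ih =>
    rw [SimpleGraph.Walk.length_cons]
    push_cast
    have h1 := sep_tri (Γ := Γ) S u v w
    have h2 := hadj.2.1
    rw [am_const htr S v u] at ih
    linarith

lemma reach_cls {r : V → V → Prop} (hr : InvRel Γ r) {S : Finset V} {x0 : V}
    (hS : S ⊆ cls r x0) {ρ : ℝ} (hρ1 : 2 * ρ ≤ 1) {x y : V} (h : (near Γ S ρ).Reachable x y) :
    r x y := by
  obtain ⟨p⟩ := h
  induction p with
  | nil => exact hr.eqv.refl _
  | @cons u v w hadj q ih =>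
    refine hr.eqv.trans ?_ ih
    by_contra hcon
    have h1 := hadj.2.1
    rw [sep_of_not hr hS hcon] at h1
    have h2 : 0 ≤ am Γ S u := (sep_nonneg S u v).trans (sep_le S u v)
    nlinarith

/-- balls are not larger than `S` -/
lemma card_ball_le (htr : ∀ x y : V, ∃ g : Γ, g • x = y) {S : Finset V} (hne : S.Nonempty)
    {ρ : ℝ} (hρ1 : ρ ≤ 1) (x : V) : (1 - ρ) * (ball Γ S ρ x).card ≤ S.card := by
  have ha := am_pos htr hne x
  have h1 := sum_am_sub_sep (Γ := Γ) S x
  have h2 : ∑ y ∈ ball Γ S ρ x, (am Γ S x - sep Γ S x y) ≤ ∑ y, (am Γ S x - sep Γ S x y) := by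
    apply Finset.sum_le_sum_of_subset_of_nonneg (subset_univ _)
    intro y _ _
    linarith [sep_le (Γ := Γ) S x y]
  have h3 : ∑ y ∈ ball Γ S ρ x, (1 - ρ) * am Γ S x
      ≤ ∑ y ∈ ball Γ S ρ x, (am Γ S x - sep Γ S x y) := by
    apply Finset.sum_le_sum
    intro y hy
    rw [mem_ball] at hy
    linarith
  rw [Finset.sum_const, nsmul_eq_mul] at h3
  rw [h1] at h2
  have h4 : am Γ S x * ((1 - ρ) * (ball Γ S ρ x).card) ≤ am Γ S x * S.card := by linarith
  exact le_of_mul_le_mul_left h4 ha

/-- **Points in the same component are close.** -/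
theorem sep_lt_half (htr : ∀ x y : V, ∃ g : Γ, g • x = y) {S : Finset V} (hne : S.Nonempty)
    {ρ : ℝ} (hρ : 0 < ρ) (hρ1 : ρ ≤ 5 / 8)
    (hball : ∀ x, 20 * ρ * S.card < (ball Γ S ρ x).card) {u v : V}
    (huv : (near Γ S ρ).Reachable u v) : 2 * sep Γ S u v < am Γ S u := by
  have hs0 : (0 : ℝ) < S.card := by exact_mod_cast hne.card_pos
  have ha := am_pos htr hne u
  -- the radius is small
  have hb0 := card_ball_le htr hne (by linarith : ρ ≤ 1) u
  have hρ2 : ρ < 2 / 15 := by
    by_contra hcon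
    push Not at hcon
    have e1 := mul_lt_mul_of_pos_left (hball u) (by linarith : 0 < 1 - ρ)
    have e2 : (1 - ρ) * (20 * ρ * S.card) < 1 * S.card := by linarith
    have e3 : (1 - ρ) * (20 * ρ * S.card) = ((1 - ρ) * (20 * ρ)) * S.card := by ring
    rw [e3] at e2
    have e4 := lt_of_mul_lt_mul_right e2 hs0.le
    nlinarith
  have hρ3 : ρ < 1 / 17 := by
    by_contra hcon
    push Not at hcon
    have e1 := mul_lt_mul_of_pos_left (hball u) (by linarith : 0 < 1 - ρ)
    have e2 : (1 - ρ) * (20 * ρ * S.card) < 1 * S.card := by linarith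
    have e3 : (1 - ρ) * (20 * ρ * S.card) = ((1 - ρ) * (20 * ρ)) * S.card := by ring
    rw [e3] at e2
    have e4 := lt_of_mul_lt_mul_right e2 hs0.le
    nlinarith
  set H := near Γ S ρ with hH
  by_contra hcon
  push Not at hcon
  classical
  have hex : ∃ L : ℕ, ∃ v, H.Reachable u v ∧ H.dist u v = L ∧ am Γ S u ≤ 2 * sep Γ S u v :=
    ⟨_, v, huv, rfl, hcon⟩
  obtain ⟨v', h1, h2, h3⟩ := Nat.find_spec hex
  set L := Nat.find hex with hL
  have hmin : ∀ z, H.Reachable u z → H.dist u z < L → 2 * sep Γ S u z < am Γ S u := by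
    intro z hz hlt
    by_contra hc
    push Not at hc
    exact Nat.find_min hex hlt ⟨z, hz, rfl, hc⟩
  have hz : ∀ i : ℕ, ∃ z, i < (L + 1) / 2 → H.Reachable u z ∧ H.dist u z = 2 * i := by
    intro i
    by_cases hi : i < (L + 1) / 2
    · obtain ⟨z, h1, h2⟩ := exists_dist_eq H u L v' h1 h2 (2 * i) (by omega)
      exact ⟨z, fun _ => ⟨h1, h2⟩⟩
    · exact ⟨u, fun h => absurd h hi⟩
  choose z hz using hz
  have hdis : (↑(range ((L + 1) / 2)) : Set ℕ).PairwiseDisjoint
      fun i => ball Γ S ρ (z i) := by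
    intro i hi j hj hij
    rw [coe_range, Set.mem_Iio] at hi hj
    obtain ⟨a1, a2⟩ := hz i hi
    obtain ⟨b1, b2⟩ := hz j hj
    show Disjoint (ball Γ S ρ (z i)) (ball Γ S ρ (z j))
    rw [Finset.disjoint_left]
    intro y hy1 hy2
    by_cases h : z i = z j
    · rw [h] at a2
      omega
    · have hadj := near_of_ball htr S hy1 hy2 h
      have c1 := dist_adj_le H a1 hadj
      have c2 := dist_adj_le H b1 hadj.symm
      omega
  have hsub : (range ((L + 1) / 2)).biUnion (fun i => ball Γ S ρ (z i))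
      ⊆ ball Γ S (1 / 2 + ρ) u := by
    intro y hy
    rw [mem_biUnion] at hy
    obtain ⟨i, hi, hy⟩ := hy
    rw [mem_range] at hi
    obtain ⟨a1, a2⟩ := hz i hi
    have e1 := hmin (z i) a1 (by omega)
    rw [mem_ball] at hy ⊢
    have e2 := sep_tri (Γ := Γ) S u (z i) y
    rw [am_const htr S (z i) u] at hy
    linarith
  have h4 := card_le_card hsub
  rw [card_biUnion hdis] at h4
  have h5 : ∀ i ∈ range ((L + 1) / 2), (ball Γ S ρ (z i)).card = (ball Γ S ρ u).card :=
    fun i _ => card_ball htr S ρ _ _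
  rw [Finset.sum_congr rfl h5, Finset.sum_const, card_range, smul_eq_mul] at h4
  have h6 : (((L + 1) / 2 : ℕ) : ℝ) * (ball Γ S ρ u).card ≤ (ball Γ S (1 / 2 + ρ) u).card := by
    exact_mod_cast h4
  have h7 := card_ball_le htr hne (by linarith : 1 / 2 + ρ ≤ 1) u
  have h8 : (L : ℝ) ≤ 2 * (((L + 1) / 2 : ℕ) : ℝ) := by
    have : L ≤ 2 * ((L + 1) / 2) := by omega
    exact_mod_cast this
  have h9 := hball u
  -- `L ρ < 1 / 4`
  have h10 : (L : ℝ) * ρ < 1 / 4 := by
    set b : ℝ := ((ball Γ S ρ u).card : ℝ) with hb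
    set c : ℝ := ((ball Γ S (1 / 2 + ρ) u).card : ℝ) with hc
    have hb1 : 0 < b := lt_of_le_of_lt (by positivity) h9
    have e1 : (L : ℝ) * b ≤ 2 * c := by
      have := mul_le_mul_of_nonneg_right h8 hb1.le
      linarith
    have e2 : (15 / 34) * c ≤ S.card := by
      have : 0 ≤ c := Nat.cast_nonneg _
      nlinarith
    have e3 : (L : ℝ) * (20 * ρ * S.card) ≤ L * b :=
      mul_le_mul_of_nonneg_left h9.le (Nat.cast_nonneg _)
    have e4 : ((L : ℝ) * ρ) * (20 * S.card) < (1 / 4) * (20 * S.card) := by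
      have f1 : ((L : ℝ) * ρ) * (20 * S.card) = L * (20 * ρ * S.card) := by ring
      rw [f1]
      linarith
    exact lt_of_mul_lt_mul_right e4 (by positivity)
  obtain ⟨p, hp⟩ := h1.exists_walk_length_eq_dist
  have h11 := sep_le_length htr S ρ p
  rw [hp, h2] at h11
  have h12 := mul_lt_mul_of_pos_right h10 ha
  linarith

/-- **Large balls give blocks.** -/
theorem chain_step {w : V → V → ℝ} (hw : ∀ x y, 0 ≤ w x y)
    (hinv : ∀ (g : Γ) x y, w (g • x) (g • y) = w x y)
    (htr : ∀ x y : V, ∃ g : Γ, g • x = y) {S : Finset V} (hne : S.Nonempty)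
    {ρ : ℝ} (hρ : 0 < ρ) (hρ1 : ρ ≤ 5 / 8) {x1 : V}
    (hb1 : 20 * ρ * S.card < (ball Γ S ρ x1).card) :
    ∃ r', InvRel Γ r' ∧ (∀ y z, r' y z → 2 * sep Γ S y z < am Γ S y) ∧
      (∀ y, 2 * ρ * wo w r' y ≤ B w S / S.card) ∧
      (∀ y, 20 * ρ * S.card < (cls r' y).card) := by
  have hball : ∀ x, 20 * ρ * S.card < (ball Γ S ρ x).card := by
    intro x
    rw [card_ball htr S ρ x x1]
    exact hb1
  have hr' := reach_inv (Γ := Γ) S ρ
  refine ⟨(near Γ S ρ).Reachable, hr', fun y z h => sep_lt_half htr hne hρ hρ1 hball h, ?_, ?_⟩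
  · intro y
    have ha := am_pos htr hne y
    have hn : (0 : ℝ) < Fintype.card V := by
      have : 0 < Fintype.card V := Fintype.card_pos_iff.2 ⟨y⟩
      exact_mod_cast this
    have hs : (0 : ℝ) < S.card := by exact_mod_cast hne.card_pos
    have h1 := sum_w_sep (Γ := Γ) hinv htr S y
    have h2 := am_eq (Γ := Γ) htr S y
    have h3 : 2 * ρ * am Γ S y * wo w (near Γ S ρ).Reachable y ≤ ∑ z, w y z * sep Γ S y z := by
      unfold wo
      rw [Finset.mul_sum]
      apply Finset.sum_le_sum
      intro z _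
      split_ifs with h
      · rw [mul_zero]
        exact mul_nonneg (hw y z) (sep_nonneg S y z)
      · rw [mul_comm]
        apply mul_le_mul_of_nonneg_left _ (hw y z)
        by_contra hcon
        push Not at hcon
        apply h
        by_cases hyz : y = z
        · rw [hyz]
        · apply SimpleGraph.Adj.reachable
          rw [near_adj]
          refine ⟨hyz, hcon, ?_⟩
          rw [sep_symm htr S z y, am_const htr S z y]
          exact hcon
    -- multiply by `n`
    have h4 : (Fintype.card V : ℝ) * (2 * ρ * am Γ S y * wo w (near Γ S ρ).Reachable y)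
        ≤ Fintype.card Γ * B w S := by
      rw [← h1]
      exact mul_le_mul_of_nonneg_left h3 hn.le
    have hG : (0 : ℝ) < Fintype.card Γ := by
      have : 0 < Fintype.card Γ := Fintype.card_pos
      exact_mod_cast this
    have h5 : (Fintype.card Γ : ℝ) * (2 * ρ * wo w (near Γ S ρ).Reachable y * S.card)
        ≤ Fintype.card Γ * B w S := by
      calc (Fintype.card Γ : ℝ) * (2 * ρ * wo w (near Γ S ρ).Reachable y * S.card)
          = (Fintype.card Γ * S.card) * (2 * ρ * wo w (near Γ S ρ).Reachable y) := by ring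
        _ = (Fintype.card V * am Γ S y) * (2 * ρ * wo w (near Γ S ρ).Reachable y) := by rw [h2]
        _ = (Fintype.card V : ℝ) * (2 * ρ * am Γ S y * wo w (near Γ S ρ).Reachable y) := by ring
        _ ≤ _ := h4
    rw [le_div_iff₀ hs]
    exact le_of_mul_le_mul_left h5 hG
  · intro y
    refine lt_of_lt_of_le (hball y) ?_
    have : (ball Γ S ρ y).card ≤ (cls (near Γ S ρ).Reachable y).card := by
      apply card_le_card
      intro z hz
      rw [mem_cls]
      by_cases hyz : y = z
      · rw [hyz]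
      · apply SimpleGraph.Adj.reachable
        apply near_of_ball htr S hz _ hyz
        rw [mem_ball, sep_self]
        exact mul_pos hρ (am_pos htr hne z)
    exact_mod_cast this

end

end Pool.Agent.H32.VT
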