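import Pool.Agent.H32.VT.Graph

/-!
# Circulant graphs

The circulant graph with the differences `±1, …, ±m` modulo `p`. Intervals have small boundaries, but
all sets with at most `L m + 1` points have expansion at least `1 / (2 L)`.
-/

set_option autoImplicit false
set_option linter.unusedSectionVars false

namespace Pool.Agent.H32.VT

open Finset

section
variable {p : ℕ} [NeZero p]

/-- Cayley graph of the cyclic group -/
def cay (D : Finset (ZMod p)) (h0 : (0 : ZMod p) ∉ D) (hs : ∀ c ∈ D, -c ∈ D) :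
    SimpleGraph (ZMod p) where
  Adj x y := y - x ∈ D
  symm := ⟨by
    intro x y h
    have := hs _ h
    rwa [neg_sub] at this⟩
  loopless := ⟨by
    intro x h
    rw [sub_self] at h
    exact h0 h⟩

instance (D : Finset (ZMod p)) (h0 : (0 : ZMod p) ∉ D) (hs : ∀ c ∈ D, -c ∈ D) :
    DecidableRel (cay D h0 hs).Adj := fun x y => inferInstanceAs (Decidable (y - x ∈ D))

variable (D : Finset (ZMod p)) (h0 : (0 : ZMod p) ∉ D) (hs : ∀ c ∈ D, -c ∈ D)

lemma cay_regular : (cay D h0 hs).IsRegularOfDegree D.card := by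
  intro x
  rw [SimpleGraph.degree]
  have : (cay D h0 hs).neighborFinset x = D.image (fun c => x + c) := by
    ext y
    rw [SimpleGraph.mem_neighborFinset, mem_image]
    constructor
    · intro h
      exact ⟨y - x, h, by ring⟩
    · rintro ⟨c, hc, rfl⟩
      show x + c - x ∈ D
      rwa [add_sub_cancel_left]
  rw [this, card_image_of_injective]
  intro a b hab
  exact add_left_cancel hab

lemma cay_transitive (u v : ZMod p) : ∃ φ : cay D h0 hs ≃g cay D h0 hs, φ u = v := by
  refine ⟨⟨Equiv.addLeft (v - u), ?_⟩, ?_⟩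
  · intro a b
    show (v - u + b) - (v - u + a) ∈ D ↔ b - a ∈ D
    rw [add_sub_add_left_eq_sub]
  · show v - u + u = v
    ring

/-- the number of the points of `T` which are moved out of `T` -/
def ee (T : Finset (ZMod p)) (c : ZMod p) : ℕ := (T.filter fun x => x + c ∉ T).card

lemma cut_cay (T : Finset (ZMod p)) : cut (cay D h0 hs) T = ∑ c ∈ D, ee T c := by
  unfold cut ee
  rw [← card_sigma]
  apply Finset.card_bij' (i := fun q _ => (⟨q.2 - q.1, q.1⟩ : Σ _ : ZMod p, ZMod p))
    (j := fun q _ => (q.2, q.2 + q.1))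
  · intro q hq
    rw [mem_filter] at hq
    rw [mem_sigma, mem_filter]
    refine ⟨hq.2.2.2, hq.2.1, ?_⟩
    show q.1 + (q.2 - q.1) ∉ T
    rw [add_sub_cancel]
    exact hq.2.2.1
  · intro q hq
    rw [mem_sigma, mem_filter] at hq
    rw [mem_filter]
    refine ⟨mem_univ _, hq.2.1, hq.2.2, ?_⟩
    show q.2 + q.1 - q.2 ∈ D
    rw [add_sub_cancel_left]
    exact hq.1
  · intro q _
    ext
    · rfl
    · show q.1 + (q.2 - q.1) = q.2
      ring
  · intro q _
    show (⟨q.2 + q.1 - q.2, q.2⟩ : Σ _ : ZMod p, ZMod p) = q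
    rw [add_sub_cancel_left]

lemma ee_zero (T : Finset (ZMod p)) : ee T 0 = 0 := by
  unfold ee
  rw [card_eq_zero, filter_eq_empty_iff]
  intro x hx h
  rw [add_zero] at h
  exact h hx

lemma ee_add_mem (T : Finset (ZMod p)) (c : ZMod p) :
    (T.filter fun x => x + c ∈ T).card + ee T c = T.card :=
  Finset.card_filter_add_card_filter_not _

lemma ee_neg (T : Finset (ZMod p)) (c : ZMod p) : ee T (-c) = ee T c := by
  have h1 := ee_add_mem T c
  have h2 := ee_add_mem T (-c)
  have h3 : (T.filter fun x => x + c ∈ T).card = (T.filter fun x => x + -c ∈ T).card := by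
    apply Finset.card_bij' (i := fun x _ => x + c) (j := fun x _ => x + -c)
    · intro x hx
      rw [mem_filter] at hx ⊢
      exact ⟨hx.2, by rw [add_neg_cancel_right]; exact hx.1⟩
    · intro x hx
      rw [mem_filter] at hx ⊢
      exact ⟨hx.2, by rw [neg_add_cancel_right]; exact hx.1⟩
    · intro x _
      exact add_neg_cancel_right x c
    · intro x _
      exact neg_add_cancel_right x c
  omega

lemma ee_add (T : Finset (ZMod p)) (a b : ZMod p) : ee T (a + b) ≤ ee T a + ee T b := by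
  unfold ee
  have h1 : (T.filter fun x => x + (a + b) ∉ T)
      ⊆ (T.filter fun x => x + a ∉ T) ∪ (T.filter fun y => y + b ∉ T).image (fun y => y - a) := by
    intro x hx
    rw [mem_filter] at hx
    rw [mem_union, mem_filter, mem_image]
    by_cases h : x + a ∈ T
    · right
      refine ⟨x + a, ?_, by ring⟩
      rw [mem_filter]
      refine ⟨h, ?_⟩
      rw [add_assoc]
      exact hx.2
    · left
      exact ⟨hx.1, h⟩
  refine (card_le_card h1).trans ((card_union_le _ _).trans ?_)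
  exact Nat.add_le_add_left card_image_le _

lemma cast_inj_of_lt {a b : ℕ} (ha : a < p) (hb : b < p) (h : (a : ZMod p) = b) : a = b := by
  rw [ZMod.natCast_eq_natCast_iff'] at h
  rwa [Nat.mod_eq_of_lt ha, Nat.mod_eq_of_lt hb] at h

/-- few pairs with a small difference -/
lemma pairs_le (T : Finset (ZMod p)) (W : ℕ) (hW : 2 * W < p) :
    2 * ∑ j ∈ range W, (T.filter fun x => x + ((j + 1 : ℕ) : ZMod p) ∈ T).card
      ≤ T.card * T.card - T.card := by
  set A : Finset (Σ _ : ℕ, ZMod p) :=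
    (range W).sigma fun j => T.filter fun x => x + ((j + 1 : ℕ) : ZMod p) ∈ T with hA
  have hAc : A.card = ∑ j ∈ range W, (T.filter fun x => x + ((j + 1 : ℕ) : ZMod p) ∈ T).card := by
    rw [hA, card_sigma]
  rw [← hAc]
  let f : (Σ _ : ℕ, ZMod p) → ZMod p × ZMod p := fun q => (q.2, q.2 + ((q.1 + 1 : ℕ) : ZMod p))
  let g : (Σ _ : ℕ, ZMod p) → ZMod p × ZMod p := fun q => (q.2 + ((q.1 + 1 : ℕ) : ZMod p), q.2)
  have hmemA : ∀ q, q ∈ A ↔ q.1 < W ∧ q.2 ∈ T ∧ q.2 + ((q.1 + 1 : ℕ) : ZMod p) ∈ T := by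
    intro q
    rw [hA, mem_sigma, mem_range, mem_filter]
  have hne : ∀ q ∈ A, ((q.1 + 1 : ℕ) : ZMod p) ≠ 0 := by
    intro q hq h
    have h1 := ((hmemA q).1 hq).1
    have h2 : ((q.1 + 1 : ℕ) : ZMod p) = ((0 : ℕ) : ZMod p) := by
      rw [h, Nat.cast_zero]
    have := cast_inj_of_lt (by omega) (by omega) h2
    omega
  have hf : Set.InjOn f A := by
    rintro ⟨i, x⟩ hq ⟨j, y⟩ hq' h
    have h1 := ((hmemA _).1 (mem_coe.1 hq)).1
    have h2 := ((hmemA _).1 (mem_coe.1 hq')).1
    have h3 : x = y := (Prod.mk.inj h).1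
    have h4 : x + ((i + 1 : ℕ) : ZMod p) = y + ((j + 1 : ℕ) : ZMod p) := (Prod.mk.inj h).2
    rw [h3] at h4
    have h5 := cast_inj_of_lt (by simp only at h1; omega) (by simp only at h2; omega)
      (add_left_cancel h4)
    have h6 : i = j := by omega
    rw [h3, h6]
  have hg : Set.InjOn g A := by
    rintro ⟨i, x⟩ hq ⟨j, y⟩ hq' h
    have h1 := ((hmemA _).1 (mem_coe.1 hq)).1
    have h2 := ((hmemA _).1 (mem_coe.1 hq')).1
    have h3 : x = y := (Prod.mk.inj h).2
    have h4 : x + ((i + 1 : ℕ) : ZMod p) = y + ((j + 1 : ℕ) : ZMod p) := (Prod.mk.inj h).1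
    rw [h3] at h4
    have h5 := cast_inj_of_lt (by simp only at h1; omega) (by simp only at h2; omega)
      (add_left_cancel h4)
    have h6 : i = j := by omega
    rw [h3, h6]
  have hdis : Disjoint (A.image f) (A.image g) := by
    rw [Finset.disjoint_left]
    intro z hz1 hz2
    rw [mem_image] at hz1 hz2
    obtain ⟨q, hq, rfl⟩ := hz1
    obtain ⟨q', hq', h⟩ := hz2
    have h1 := ((hmemA _).1 hq).1
    have h2 := ((hmemA _).1 hq').1
    have h3 : q'.2 + ((q'.1 + 1 : ℕ) : ZMod p) = q.2 := (Prod.mk.inj h).1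
    have h4 : q'.2 = q.2 + ((q.1 + 1 : ℕ) : ZMod p) := (Prod.mk.inj h).2
    rw [h4, add_assoc] at h3
    have h5 : ((q.1 + 1 + (q'.1 + 1) : ℕ) : ZMod p) = ((0 : ℕ) : ZMod p) := by
      rw [Nat.cast_zero, Nat.cast_add]
      have : q.2 + (((q.1 + 1 : ℕ) : ZMod p) + ((q'.1 + 1 : ℕ) : ZMod p)) = q.2 + 0 := by
        rw [add_zero]
        exact h3
      exact add_left_cancel this
    have := cast_inj_of_lt (by omega) (by omega) h5
    omega
  have hsub : A.image f ∪ A.image g ⊆ T.offDiag := by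
    intro z hz
    rw [mem_union, mem_image, mem_image] at hz
    rw [mem_offDiag]
    rcases hz with ⟨q, hq, rfl⟩ | ⟨q, hq, rfl⟩
    · have h1 := (hmemA _).1 hq
      refine ⟨h1.2.1, h1.2.2, ?_⟩
      intro h
      apply hne q hq
      have : q.2 + 0 = q.2 + ((q.1 + 1 : ℕ) : ZMod p) := by
        rw [add_zero]
        exact h
      exact (add_left_cancel this).symm
    · have h1 := (hmemA _).1 hq
      refine ⟨h1.2.2, h1.2.1, ?_⟩
      intro h
      apply hne q hq
      have : q.2 + ((q.1 + 1 : ℕ) : ZMod p) = q.2 + 0 := by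
        rw [add_zero]
        exact h
      exact add_left_cancel this
  have h1 := card_le_card hsub
  rw [card_union_of_disjoint hdis, card_image_of_injOn hf, card_image_of_injOn hg,
    offDiag_card] at h1
  omega

/-- the average of `ee` over a long interval of differences -/
lemma sum_ee_le (T : Finset (ZMod p)) (m L : ℕ) :
    ∑ j ∈ range (L * m), ee T ((j + 1 : ℕ) : ZMod p)
      ≤ L ^ 2 * ∑ j ∈ range m, ee T ((j + 1 : ℕ) : ZMod p) := by
  set E := ∑ j ∈ range m, ee T ((j + 1 : ℕ) : ZMod p) with hE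
  have hm : m * ee T (m : ZMod p) ≤ 2 * E := by
    have h1 : ∀ j ∈ range m, ee T (m : ZMod p)
        ≤ ee T ((j + 1 : ℕ) : ZMod p) + ee T ((m - 1 - j : ℕ) : ZMod p) := by
      intro j hj
      rw [mem_range] at hj
      refine le_trans (le_of_eq ?_) (ee_add T _ _)
      rw [← Nat.cast_add]
      congr 2
      omega
    have h2 := Finset.sum_le_sum h1
    rw [Finset.sum_const, card_range, smul_eq_mul, Finset.sum_add_distrib,
      Finset.sum_range_reflect (fun j => ee T (j : ZMod p)) m] at h2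
    have h3 : ∑ j ∈ range m, ee T (j : ZMod p) ≤ E := by
      rcases Nat.eq_zero_or_pos m with h0 | h0
      · rw [h0]
        simp
      · obtain ⟨k, rfl⟩ : ∃ k, m = k + 1 := ⟨m - 1, by omega⟩
        rw [Finset.sum_range_succ', hE, Finset.sum_range_succ, Nat.cast_zero, ee_zero]
        omega
    omega
  have hmul : ∀ L : ℕ, ee T ((L * m : ℕ) : ZMod p) ≤ L * ee T (m : ZMod p) := by
    intro L
    induction L with
    | zero =>
      rw [zero_mul, Nat.cast_zero, ee_zero]
      exact Nat.zero_le _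
    | succ L ih =>
      have h1 : (((L + 1) * m : ℕ) : ZMod p) = ((L * m : ℕ) : ZMod p) + (m : ZMod p) := by
        rw [← Nat.cast_add]
        congr 1
        ring
      rw [h1]
      refine (ee_add T _ _).trans ?_
      rw [add_mul, one_mul]
      exact Nat.add_le_add_right ih _
  induction L with
  | zero => simp
  | succ L ih =>
    rw [add_mul, one_mul, Finset.sum_range_add]
    have h1 : ∑ j ∈ range m, ee T ((L * m + j + 1 : ℕ) : ZMod p)
        ≤ ∑ j ∈ range m, (L * ee T (m : ZMod p) + ee T ((j + 1 : ℕ) : ZMod p)) := by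
      apply Finset.sum_le_sum
      intro j _
      have h2 : ((L * m + j + 1 : ℕ) : ZMod p)
          = ((L * m : ℕ) : ZMod p) + ((j + 1 : ℕ) : ZMod p) := by
        rw [← Nat.cast_add, add_assoc]
      rw [h2]
      exact (ee_add T _ _).trans (Nat.add_le_add_right (hmul L) _)
    rw [Finset.sum_add_distrib, Finset.sum_const, card_range, smul_eq_mul] at h1
    have h3 : m * (L * ee T (m : ZMod p)) ≤ L * (2 * E) := by
      calc m * (L * ee T (m : ZMod p)) = L * (m * ee T (m : ZMod p)) := by ring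
        _ ≤ L * (2 * E) := Nat.mul_le_mul_left _ hm
    calc _ ≤ L ^ 2 * E + (L * (2 * E) + E) := Nat.add_le_add ih (h1.trans (by omega))
      _ = (L + 1) ^ 2 * E := by ring

/-- **Lower bound for small sets.** -/
theorem sum_ee_ge (T : Finset (ZMod p)) (m L : ℕ) (hp : 2 * (L * m) < p)
    (hT : T.card ≤ L * m + 1) (hL : 1 ≤ L) :
    m * T.card ≤ 2 * L * ∑ j ∈ range m, ee T ((j + 1 : ℕ) : ZMod p) := by
  have h1 := pairs_le T (L * m) hp
  have h2 := sum_ee_le T m L
  have h3 : ∑ j ∈ range (L * m), ((T.filter fun x => x + ((j + 1 : ℕ) : ZMod p) ∈ T).card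
      + ee T ((j + 1 : ℕ) : ZMod p)) = L * m * T.card := by
    rw [Finset.sum_congr rfl (fun j _ => ee_add_mem T _), Finset.sum_const, card_range,
      smul_eq_mul]
  rw [Finset.sum_add_distrib] at h3
  set P := ∑ j ∈ range (L * m), (T.filter fun x => x + ((j + 1 : ℕ) : ZMod p) ∈ T).card
  set E := ∑ j ∈ range m, ee T ((j + 1 : ℕ) : ZMod p)
  have h4 : T.card * T.card - T.card ≤ T.card * (L * m) := by
    have h5 : T.card * T.card ≤ T.card * (L * m + 1) := Nat.mul_le_mul_left _ hT
    have h6 : T.card * (L * m + 1) = T.card * (L * m) + T.card := by ring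
    omega
  have h5 : L * m * T.card ≤ 2 * (L ^ 2 * E) := by
    have h7 : T.card * (L * m) = L * m * T.card := by ring
    omega
  have h6 : L * (m * T.card) ≤ L * (2 * L * E) := by
    calc L * (m * T.card) = L * m * T.card := by ring
      _ ≤ 2 * (L ^ 2 * E) := h5
      _ = L * (2 * L * E) := by ring
  exact Nat.le_of_mul_le_mul_left h6 hL

/-- the differences -/
def dif (p m : ℕ) : Finset (ZMod p) :=
  ((range m).image fun j => ((j + 1 : ℕ) : ZMod p)) ∪
    ((range m).image fun j => -((j + 1 : ℕ) : ZMod p))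

lemma dif_neg (m : ℕ) : ∀ c ∈ dif p m, -c ∈ dif p m := by
  intro c hc
  unfold dif at hc ⊢
  rw [mem_union, mem_image, mem_image] at hc
  rw [mem_union, mem_image, mem_image]
  rcases hc with ⟨j, hj, rfl⟩ | ⟨j, hj, rfl⟩
  · exact Or.inr ⟨j, hj, rfl⟩
  · exact Or.inl ⟨j, hj, (neg_neg _).symm⟩

lemma dif_inj {m : ℕ} (hm : m < p) :
    Set.InjOn (fun j : ℕ => ((j + 1 : ℕ) : ZMod p)) (range m) := by
  intro i hi j hj h
  rw [coe_range, Set.mem_Iio] at hi hj
  have := cast_inj_of_lt (p := p) (by omega) (by omega) h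
  omega

lemma dif_inj' {m : ℕ} (hm : m < p) :
    Set.InjOn (fun j : ℕ => -((j + 1 : ℕ) : ZMod p)) (range m) := by
  intro i hi j hj h
  exact dif_inj hm hi hj (neg_injective h)

lemma dif_disj {m : ℕ} (hm : 2 * m < p) :
    Disjoint ((range m).image fun j => ((j + 1 : ℕ) : ZMod p))
      ((range m).image fun j => -((j + 1 : ℕ) : ZMod p)) := by
  rw [Finset.disjoint_left]
  intro z hz1 hz2
  rw [mem_image] at hz1 hz2
  obtain ⟨i, hi, rfl⟩ := hz1
  obtain ⟨j, hj, h⟩ := hz2
  rw [mem_range] at hi hj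
  have h1 : (((i + 1) + (j + 1) : ℕ) : ZMod p) = ((0 : ℕ) : ZMod p) := by
    rw [Nat.cast_add, ← h, Nat.cast_zero]
    ring
  have := cast_inj_of_lt (by omega) (by omega) h1
  omega

lemma zero_notMem_dif {m : ℕ} (hm : 2 * m < p) : (0 : ZMod p) ∉ dif p m := by
  intro h
  unfold dif at h
  rw [mem_union, mem_image, mem_image] at h
  rcases h with ⟨j, hj, h⟩ | ⟨j, hj, h⟩
  · rw [mem_range] at hj
    have h1 : ((j + 1 : ℕ) : ZMod p) = ((0 : ℕ) : ZMod p) := by rw [h, Nat.cast_zero]
    have := cast_inj_of_lt (by omega) (by omega) h1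
    omega
  · rw [mem_range] at hj
    have h1 : ((j + 1 : ℕ) : ZMod p) = ((0 : ℕ) : ZMod p) := by
      rw [Nat.cast_zero]
      exact neg_eq_zero.1 h
    have := cast_inj_of_lt (by omega) (by omega) h1
    omega

lemma card_dif {m : ℕ} (hm : 2 * m < p) : (dif p m).card = 2 * m := by
  unfold dif
  rw [card_union_of_disjoint (dif_disj hm), card_image_of_injOn (dif_inj (by omega)),
    card_image_of_injOn (dif_inj' (by omega)), card_range]
  omega

lemma sum_dif {m : ℕ} (hm : 2 * m < p) (T : Finset (ZMod p)) :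
    ∑ c ∈ dif p m, ee T c = 2 * ∑ j ∈ range m, ee T ((j + 1 : ℕ) : ZMod p) := by
  unfold dif
  rw [sum_union (dif_disj hm), sum_image (dif_inj (by omega)), sum_image (dif_inj' (by omega))]
  simp only [ee_neg]
  omega

/-- an interval -/
def itv (p h : ℕ) : Finset (ZMod p) := (range h).image fun j : ℕ => (j : ZMod p)

lemma card_itv {h : ℕ} (hh : h ≤ p) : (itv p h).card = h := by
  unfold itv
  rw [card_image_of_injOn, card_range]
  intro i hi j hj hij
  rw [coe_range, Set.mem_Iio] at hi hj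
  exact cast_inj_of_lt (by omega) (by omega) hij

lemma ee_itv (h j : ℕ) : ee (itv p h) (j : ZMod p) ≤ j := by
  unfold ee
  have h1 : ((itv p h).filter fun x => x + (j : ZMod p) ∉ itv p h)
      ⊆ (Ico (h - j) h).image fun i : ℕ => (i : ZMod p) := by
    intro x hx
    rw [mem_filter] at hx
    obtain ⟨hx1, hx2⟩ := hx
    unfold itv at hx1
    rw [mem_image] at hx1
    obtain ⟨i, hi, rfl⟩ := hx1
    rw [mem_range] at hi
    rw [mem_image]
    refine ⟨i, ?_, rfl⟩
    rw [mem_Ico]
    refine ⟨?_, hi⟩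
    by_contra hcon
    apply hx2
    unfold itv
    rw [mem_image]
    refine ⟨i + j, ?_, by rw [Nat.cast_add]⟩
    rw [mem_range]
    omega
  refine (card_le_card h1).trans (card_image_le.trans ?_)
  rw [Nat.card_Ico]
  omega

lemma sum_ee_itv (h m : ℕ) :
    2 * ∑ j ∈ range m, ee (itv p h) ((j + 1 : ℕ) : ZMod p) ≤ m * (m + 1) := by
  have h1 : ∑ j ∈ range m, ee (itv p h) ((j + 1 : ℕ) : ZMod p) ≤ ∑ j ∈ range m, (j + 1) :=
    Finset.sum_le_sum fun j _ => ee_itv h (j + 1)
  have h2 : 2 * ∑ j ∈ range m, (j + 1) = m * (m + 1) := by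
    have := Finset.sum_range_id_mul_two (m + 1)
    rw [Finset.sum_range_succ'] at this
    rw [Nat.add_sub_cancel] at this
    linarith
  omega

/-- **Circulant graphs.** -/
theorem circulant (m L : ℕ) (hL : 1 ≤ L) (hp : 2 * (L * m) < p) :
    ∃ (G : SimpleGraph (ZMod p)) (_ : DecidableRel G.Adj), G.IsRegularOfDegree (2 * m) ∧
      (∀ u v : ZMod p, ∃ φ : G ≃g G, φ u = v) ∧
      (∀ h ≤ p, ∃ S : Finset (ZMod p), S.card = h ∧ cut G S ≤ m * (m + 1)) ∧
      ∀ T : Finset (ZMod p), T.card ≤ L * m + 1 → m * T.card ≤ L * cut G T := by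
  have hm' : 2 * m < p := by
    have : m ≤ L * m := Nat.le_mul_of_pos_left m hL
    omega
  refine ⟨cay (dif p m) (zero_notMem_dif hm') (dif_neg m), inferInstance, ?_, ?_, ?_, ?_⟩
  · have := cay_regular (dif p m) (zero_notMem_dif hm') (dif_neg m)
    rwa [card_dif hm'] at this
  · exact cay_transitive _ _ _
  · intro h hh
    refine ⟨itv p h, card_itv hh, ?_⟩
    rw [cut_cay, sum_dif hm']
    exact sum_ee_itv h m
  · intro T hT
    rw [cut_cay, sum_dif hm']
    have := sum_ee_ge T m L hp hT hL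
    calc m * T.card ≤ 2 * L * ∑ j ∈ range m, ee T ((j + 1 : ℕ) : ZMod p) := this
      _ = _ := by ring

end

end Pool.Agent.H32.VT
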