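import Pool.Agent.H32.VT.Descent

/-!
# A dichotomy for sets of small expansion in graphs of any degree

`dichotomy`: a set `S` has an intersection with a translate which is smaller by a constant factor and
has at most `10` times the expansion, or there are a set `H` of elements of the group, closed under
products, of order at least `4 / 5` of `|S| / n` times the order of the group, and an orbit `O` of
`H` with at most `3 |S| / 2` points whose boundary is at most `12` times the one of `S`.
-/

set_option autoImplicit false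
set_option linter.unusedSectionVars false

namespace Pool.Agent.H32.VT

open Finset

section
variable {V : Type} [Fintype V] [DecidableEq V] {Γ : Type} [Group Γ] [Fintype Γ] [DecidableEq Γ]
  [MulAction Γ V]

/-- the dichotomy -/
theorem dichotomy {w : V → V → ℝ} (hw : ∀ x y, 0 ≤ w x y)
    (hinv : ∀ (g : Γ) x y, w (g • x) (g • y) = w x y)
    (htr : ∀ x y : V, ∃ g : Γ, g • x = y)
    (S : Finset V) (hS : S.Nonempty) :
    (∃ S' ⊆ S, S'.Nonempty ∧ 3 * S'.card ≤ 2 * S.card ∧
      B w S' * S.card ≤ 10 * B w S * S'.card) ∨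
    ∃ (H : Finset Γ) (O : Finset V), H.Nonempty ∧ (∀ h ∈ H, (S ∩ tr h S).Nonempty) ∧
      (∀ h ∈ H, ∀ y, h • y ∈ O ↔ y ∈ O) ∧ (∃ x0 ∈ S, x0 ∈ O ∧ ∀ y ∈ O, ∃ h ∈ H, h • x0 = y) ∧
      2 * O.card ≤ 3 * S.card ∧ 4 * ((Fintype.card Γ : ℝ) * S.card) ≤ 5 * (Fintype.card V * H.card) ∧
      B w O ≤ 12 * B w S := by
  classical
  rw [or_iff_not_imp_left]
  intro hcon
  push Not at hcon
  have hs0 : (0 : ℝ) < S.card := by exact_mod_cast hS.card_pos
  have hsn : (S.card : ℝ) ≤ Fintype.card V := by exact_mod_cast card_le_univ S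
  have hn : (0 : ℝ) < Fintype.card V := by linarith
  have hΓ : (0 : ℝ) < Fintype.card Γ := by
    have : 0 < Fintype.card Γ := Fintype.card_pos
    exact_mod_cast this
  have hB0 : 0 ≤ B w S := B_nonneg hw S
  set s : ℝ := (S.card : ℝ) with hs
  set n : ℝ := (Fintype.card V : ℝ) with hndef
  set γ : ℝ := (Fintype.card Γ : ℝ) with hγ
  have hNs : ∀ g : Γ, (NN S g : ℝ) ≤ s := fun g => by
    rw [hs]
    exact_mod_cast NN_le S g
  -- no translate does what we want
  have hno : ∀ g : Γ, 3 * NN S g ≤ 2 * S.card →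
      10 * B w S * NN S g ≤ B w (S ∩ tr g S) * s := by
    intro g hg
    rcases (S ∩ tr g S).eq_empty_or_nonempty with h | h
    · have : NN S g = 0 := by
        unfold NN
        rw [h, card_empty]
      rw [this, h, B_empty]
      simp
    · exact (hcon _ inter_subset_left h hg).le
  have hmid : ∀ g : Γ, S.card ≤ 3 * NN S g → 2 * S.card < 3 * NN S g := by
    intro g hg
    by_contra h
    push Not at h
    have hpos : 0 < NN S g := by
      have := hS.card_pos
      omega
    have h1 := hcon (S ∩ tr g S) inter_subset_left (card_pos.1 hpos) h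
    have h2 := B_inter_le_add hw S (tr g S)
    rw [B_tr hinv] at h2
    have h3 : s ≤ 3 * (NN S g : ℝ) := by
      rw [hs]
      exact_mod_cast hg
    have h4 : ((S ∩ tr g S).card : ℝ) = NN S g := rfl
    rw [h4] at h1
    have h5 : B w (S ∩ tr g S) * s ≤ (2 * B w S) * s :=
      mul_le_mul_of_nonneg_right (by linarith) hs0.le
    have h6 : (2 * B w S) * s ≤ (2 * B w S) * (3 * (NN S g : ℝ)) :=
      mul_le_mul_of_nonneg_left h3 (by linarith)
    have h7 : (0 : ℝ) ≤ B w S * NN S g := mul_nonneg hB0 (Nat.cast_nonneg _)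
    nlinarith
  -- the large intersections
  set H : Finset Γ := univ.filter fun g => 2 * S.card < 3 * NN S g with hH
  have hHm : ∀ g, g ∈ H ↔ 2 * S.card < 3 * NN S g := by
    intro g
    rw [hH, mem_filter]
    simp
  have hH1 : (1 : Γ) ∈ H := by
    rw [hHm, NN_one]
    have := hS.card_pos
    omega
  have hHinv : ∀ g ∈ H, g⁻¹ ∈ H := by
    intro g hg
    rw [hHm, NN_inv]
    exact (hHm g).1 hg
  have hHmul : ∀ g ∈ H, ∀ h ∈ H, g * h ∈ H := by
    intro g hg h hh
    rw [hHm] at hg hh ⊢
    apply hmid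
    have := NN_mul S g h
    omega
  -- the sum over the other elements is small
  have hsumN : n * ∑ g : Γ, (NN S g : ℝ) = γ * (s * s) := by
    simp only [NN_eq]
    rw [avg_inv htr (ind S) (ind S), sum_ind]
  have hsumB : n * ∑ g : Γ, B w (S ∩ tr g S) ≤ 2 * (γ * (B w S * s)) := by
    have h1 : ∀ g : Γ, B w (S ∩ tr g S) ≤ ∑ x, bd w S x * ind S (g⁻¹ • x)
        + ∑ x, bd w S x * ind S (g • x) := by
      intro g
      refine (B_inter_le hw S (tr g S)).trans ?_
      rw [new_bd hinv g S (ind S)]
      apply add_le_add _ le_rfl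
      apply Finset.sum_le_sum
      intro x _
      rw [← Finset.sum_mul, ind_tr]
      exact le_rfl
    have h2 := avg_inv (Γ := Γ) htr (bd w S) (ind S)
    have h3 := avg (Γ := Γ) htr (bd w S) (ind S)
    rw [sum_bd, sum_ind] at h2 h3
    calc n * ∑ g : Γ, B w (S ∩ tr g S)
        ≤ n * ∑ g : Γ, (∑ x, bd w S x * ind S (g⁻¹ • x) + ∑ x, bd w S x * ind S (g • x)) :=
          mul_le_mul_of_nonneg_left (Finset.sum_le_sum fun g _ => h1 g) hn.le
      _ = 2 * (γ * (B w S * s)) := by
          rw [Finset.sum_add_distrib, mul_add, h2, h3]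
          ring
  have hsplit : ∑ g : Γ, (NN S g : ℝ) = ∑ g ∈ H, (NN S g : ℝ) + ∑ g ∈ Hᶜ, (NN S g : ℝ) :=
    (Finset.sum_add_sum_compl H _).symm
  have hC : 5 * ∑ g ∈ Hᶜ, (NN S g : ℝ) ≤ ∑ g : Γ, (NN S g : ℝ) := by
    rcases hB0.lt_or_eq with hB0 | hB0
    swap
    · have hz : ∑ g ∈ Hᶜ, (NN S g : ℝ) = 0 := by
        apply Finset.sum_eq_zero
        intro g hg
        rw [mem_compl, hHm, not_lt] at hg
        rcases (S ∩ tr g S).eq_empty_or_nonempty with h | h
        · have : NN S g = 0 := by
            unfold NN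
            rw [h, card_empty]
          rw [this, Nat.cast_zero]
        · exfalso
          have h1 := hcon _ inter_subset_left h hg
          have h2 := B_inter_le_add hw S (tr g S)
          rw [B_tr hinv, ← hB0] at h2
          rw [← hB0] at h1
          have h3 : B w (S ∩ tr g S) * s ≤ 0 := mul_nonpos_of_nonpos_of_nonneg (by linarith) hs0.le
          linarith
      rw [hz, mul_zero]
      exact Finset.sum_nonneg fun g _ => Nat.cast_nonneg _
    have h1 : 10 * B w S * ∑ g ∈ Hᶜ, (NN S g : ℝ) ≤ s * ∑ g : Γ, B w (S ∩ tr g S) := by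
      rw [Finset.mul_sum, Finset.mul_sum]
      calc ∑ g ∈ Hᶜ, 10 * B w S * (NN S g : ℝ) ≤ ∑ g ∈ Hᶜ, s * B w (S ∩ tr g S) := by
            apply Finset.sum_le_sum
            intro g hg
            rw [mem_compl, hHm, not_lt] at hg
            have := hno g hg
            linarith
        _ ≤ ∑ g, s * B w (S ∩ tr g S) := by
            apply Finset.sum_le_sum_of_subset_of_nonneg (subset_univ _)
            intro g _ _
            exact mul_nonneg hs0.le (B_nonneg hw _)
    have h2 : n * (10 * B w S * ∑ g ∈ Hᶜ, (NN S g : ℝ)) ≤ n * (2 * B w S * ∑ g : Γ, (NN S g : ℝ)) := by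
      calc n * (10 * B w S * ∑ g ∈ Hᶜ, (NN S g : ℝ)) ≤ n * (s * ∑ g : Γ, B w (S ∩ tr g S)) :=
            mul_le_mul_of_nonneg_left h1 hn.le
        _ = s * (n * ∑ g : Γ, B w (S ∩ tr g S)) := by ring
        _ ≤ s * (2 * (γ * (B w S * s))) := mul_le_mul_of_nonneg_left hsumB hs0.le
        _ = 2 * B w S * (γ * (s * s)) := by ring
        _ = n * (2 * B w S * ∑ g : Γ, (NN S g : ℝ)) := by
            rw [← hsumN]
            ring
    have h3 := le_of_mul_le_mul_left h2 hn
    have h4 : 2 * B w S * (5 * ∑ g ∈ Hᶜ, (NN S g : ℝ)) ≤ 2 * B w S * ∑ g : Γ, (NN S g : ℝ) := by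
      linarith
    exact le_of_mul_le_mul_left h4 (by linarith)
  have hHcard : 4 * (γ * s) ≤ 5 * (n * H.card) := by
    have h1 : ∑ g ∈ H, (NN S g : ℝ) ≤ H.card * s := by
      calc ∑ g ∈ H, (NN S g : ℝ) ≤ ∑ g ∈ H, s := Finset.sum_le_sum fun g _ => hNs g
        _ = H.card * s := by rw [Finset.sum_const, nsmul_eq_mul]
    have h2 : 4 * ∑ g : Γ, (NN S g : ℝ) ≤ 5 * (H.card * s) := by linarith
    have h3 : 4 * (γ * (s * s)) ≤ 5 * (n * (H.card * s)) := by
      calc 4 * (γ * (s * s)) = n * (4 * ∑ g : Γ, (NN S g : ℝ)) := by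
            rw [← hsumN]
            ring
        _ ≤ n * (5 * (H.card * s)) := mul_le_mul_of_nonneg_left h2 hn.le
        _ = _ := by ring
    have h4 : (4 * (γ * s)) * s ≤ (5 * (n * H.card)) * s := by linarith
    exact le_of_mul_le_mul_right h4 hs0
  have hHpos : (0 : ℝ) < H.card := by
    have : 0 < H.card := card_pos.2 ⟨1, hH1⟩
    exact_mod_cast this
  -- orbits of `H`
  set O : V → Finset V := fun x => univ.filter fun y => ∃ h ∈ H, h • x = y with hO
  have hOm : ∀ x y, y ∈ O x ↔ ∃ h ∈ H, h • x = y := by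
    intro x y
    simp only [hO, mem_filter, mem_univ, true_and]
  have hOself : ∀ x, x ∈ O x := fun x => (hOm x x).2 ⟨1, hH1, one_smul _ _⟩
  have hOinv : ∀ x, ∀ h ∈ H, ∀ y, h • y ∈ O x ↔ y ∈ O x := by
    intro x h hh y
    rw [hOm, hOm]
    constructor
    · rintro ⟨k, hk, hky⟩
      refine ⟨h⁻¹ * k, hHmul _ (hHinv h hh) _ hk, ?_⟩
      rw [mul_smul, hky, inv_smul_smul]
    · rintro ⟨k, hk, rfl⟩
      exact ⟨h * k, hHmul _ hh _ hk, mul_smul _ _ _⟩
  have hOcard : ∀ x, 4 * s ≤ 5 * (O x).card := by
    intro x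
    have h1 : ∀ y, n * ((H.filter fun h => h • x = y).card : ℝ) ≤ γ := by
      intro y
      have h2 := sum_orbit (Γ := Γ) htr (fun z => if z = y then (1 : ℝ) else 0) x
      rw [Finset.sum_ite_eq' univ y, if_pos (mem_univ y), mul_one] at h2
      have h3 : ((H.filter fun h => h • x = y).card : ℝ)
          ≤ ∑ g : Γ, (if g • x = y then (1 : ℝ) else 0) := by
        rw [← Finset.sum_filter, Finset.sum_const, nsmul_eq_mul, mul_one]
        have : (H.filter fun h => h • x = y).card ≤ (univ.filter fun g : Γ => g • x = y).card := by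
          apply card_le_card
          intro g hg
          rw [mem_filter] at hg ⊢
          exact ⟨mem_univ _, hg.2⟩
        exact_mod_cast this
      calc n * ((H.filter fun h => h • x = y).card : ℝ)
          ≤ n * ∑ g : Γ, (if g • x = y then (1 : ℝ) else 0) :=
            mul_le_mul_of_nonneg_left h3 hn.le
        _ = γ := h2
    have h4 : (H.card : ℝ) = ∑ y ∈ O x, ((H.filter fun h => h • x = y).card : ℝ) := by
      have := Finset.card_eq_sum_card_fiberwise (s := H) (t := O x) (f := fun h => h • x)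
        (fun h hh => (hOm _ _).2 ⟨h, hh, rfl⟩)
      rw [this]
      push_cast
      rfl
    have h5 : n * H.card ≤ γ * (O x).card := by
      rw [h4, Finset.mul_sum]
      calc ∑ y ∈ O x, n * ((H.filter fun h => h • x = y).card : ℝ) ≤ ∑ y ∈ O x, γ :=
            Finset.sum_le_sum fun y _ => h1 y
        _ = γ * (O x).card := by
            rw [Finset.sum_const, nsmul_eq_mul]
            ring
    have h6 : γ * (4 * s) ≤ γ * (5 * (O x).card) := by linarith
    exact le_of_mul_le_mul_left h6 hΓ
  -- the average of the translates by `H`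
  set p : V → ℝ := fun x => ∑ h ∈ H, ind S (h⁻¹ • x) with hp
  have hpinv : ∀ k ∈ H, ∀ x, p (k • x) = p x := by
    intro k hk x
    simp only [hp]
    apply Finset.sum_nbij' (fun h => k⁻¹ * h) (fun h => k * h)
    · intro h hh
      exact hHmul _ (hHinv k hk) _ hh
    · intro h hh
      exact hHmul _ hk _ hh
    · intro h _
      simp
    · intro h _
      simp
    · intro h _
      rw [mul_inv_rev, inv_inv, mul_smul]
  have hpO : ∀ x, ((O x).card : ℝ) * p x = H.card * ((O x ∩ S).card : ℝ) := by
    intro x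
    have h1 : ∑ y ∈ O x, p y = (O x).card * p x := by
      rw [Finset.sum_congr rfl (g := fun _ => p x)]
      · rw [Finset.sum_const, nsmul_eq_mul]
      · intro y hy
        obtain ⟨h, hh, rfl⟩ := (hOm _ _).1 hy
        exact hpinv h hh x
    have h2 : ∑ y ∈ O x, p y = ∑ h ∈ H, ((O x ∩ S).card : ℝ) := by
      simp only [hp]
      rw [Finset.sum_comm]
      apply Finset.sum_congr rfl
      intro h hh
      rw [← sum_mul_ind, ← sum_smul h, ← sum_ind]
      apply Finset.sum_congr rfl
      intro y _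
      rw [inv_smul_smul]
      have : ind (O x) (h • y) = ind (O x) y := by
        unfold ind
        simp only [hOinv x h hh y]
      rw [this]
      unfold ind
      simp only [mem_inter]
      by_cases e1 : y ∈ O x <;> by_cases e2 : y ∈ S <;> simp [e1, e2]
    rw [← h1, h2, Finset.sum_const, nsmul_eq_mul]
  obtain ⟨x0, hx0, hpx0⟩ : ∃ x0 ∈ S, 2 * (H.card : ℝ) < 3 * p x0 := by
    by_contra hno2
    push Not at hno2
    have h1 : ∑ x ∈ S, p x = ∑ h ∈ H, (NN S h : ℝ) := by
      simp only [hp]
      rw [Finset.sum_comm]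
      apply Finset.sum_congr rfl
      intro h _
      rw [← sum_mul_ind, NN_eq]
    have h2 : 3 * ∑ x ∈ S, p x ≤ s * (2 * H.card) := by
      rw [Finset.mul_sum]
      calc ∑ x ∈ S, 3 * p x ≤ ∑ x ∈ S, 2 * (H.card : ℝ) := Finset.sum_le_sum fun x hx => hno2 x hx
        _ = s * (2 * H.card) := by rw [Finset.sum_const, nsmul_eq_mul]
    have h3 : (H.card : ℝ) * (2 * s) < 3 * ∑ h ∈ H, (NN S h : ℝ) := by
      rw [Finset.mul_sum]
      calc (H.card : ℝ) * (2 * s) = ∑ h ∈ H, 2 * s := by rw [Finset.sum_const, nsmul_eq_mul]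
        _ < ∑ h ∈ H, 3 * (NN S h : ℝ) := by
            apply Finset.sum_lt_sum_of_nonempty ⟨1, hH1⟩
            intro h hh
            rw [hHm] at hh
            rw [hs]
            exact_mod_cast hh
    rw [h1] at h2
    linarith
  -- the gap between the orbit of `x0` and the other orbits
  have hO0 : (0 : ℝ) < (O x0).card := by linarith [hOcard x0]
  have hSO : 8 * s < 15 * ((O x0 ∩ S).card : ℝ) := by
    have h1 := hpO x0
    have h2 := hOcard x0
    have h3 : (O x0).card * (2 * (H.card : ℝ)) < (O x0).card * (3 * p x0) :=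
      mul_lt_mul_of_pos_left hpx0 hO0
    have h4 : (H.card : ℝ) * (2 * (O x0).card) < H.card * (3 * ((O x0 ∩ S).card : ℝ)) := by
      linarith
    have h5 := lt_of_mul_lt_mul_left h4 hHpos.le
    linarith
  have hother : ∀ y, y ∉ O x0 → 12 * p y < 7 * H.card := by
    intro y hy
    have hdis : Disjoint (O y ∩ S) (O x0 ∩ S) := by
      rw [Finset.disjoint_left]
      intro z hz1 hz2
      rw [mem_inter] at hz1 hz2
      obtain ⟨h, hh, rfl⟩ := (hOm _ _).1 hz1.1
      exact hy ((hOinv x0 h hh y).1 hz2.1)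
    have h1 : ((O y ∩ S).card : ℝ) + (O x0 ∩ S).card ≤ s := by
      have : (O y ∩ S).card + (O x0 ∩ S).card ≤ S.card := by
        rw [← card_union_of_disjoint hdis]
        apply card_le_card
        exact union_subset inter_subset_right inter_subset_right
      rw [hs]
      exact_mod_cast this
    have h2 := hpO y
    have h3 := hOcard y
    have hOy : (0 : ℝ) < (O y).card := by linarith
    have h4 : 15 * ((O y ∩ S).card : ℝ) < 7 * s := by linarith
    have h5 : (H.card : ℝ) * (15 * ((O y ∩ S).card : ℝ)) < H.card * (7 * s) :=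
      mul_lt_mul_of_pos_left h4 hHpos
    have h6 : (H.card : ℝ) * (4 * s) ≤ H.card * (5 * (O y).card) :=
      mul_le_mul_of_nonneg_left h3 hHpos.le
    have h7 : ((O y).card : ℝ) * (12 * p y) < (O y).card * (7 * H.card) := by
      have e1 : ((O y).card : ℝ) * (12 * p y) = 12 * (H.card * ((O y ∩ S).card : ℝ)) := by
        rw [← h2]
        ring
      rw [e1]
      nlinarith
    exact lt_of_mul_lt_mul_left h7 hOy.le
  have hpO0 : ∀ x ∈ O x0, p x = p x0 := by
    intro x hx
    obtain ⟨h, hh, rfl⟩ := (hOm _ _).1 hx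
    exact hpinv h hh x0
  -- the boundary of the orbit
  have hBO : B w (O x0) ≤ 12 * B w S := by
    have h1 : ∑ h ∈ H, B w (tr h S) = H.card * B w S := by
      rw [Finset.sum_congr rfl (fun h _ => B_tr hinv h S), Finset.sum_const, nsmul_eq_mul]
    have h2 : ∑ h ∈ H, B w (tr h S) = ∑ x, ∑ y, w x y * ∑ h ∈ H,
        (ind (tr h S) x * (1 - ind (tr h S) y)) := by
      unfold B
      rw [Finset.sum_comm]
      apply Finset.sum_congr rfl
      intro x _
      rw [Finset.sum_comm]
      apply Finset.sum_congr rfl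
      intro y _
      rw [Finset.mul_sum]
    have h3 : (H.card : ℝ) * B w (O x0) ≤ 12 * ∑ h ∈ H, B w (tr h S) := by
      rw [h2]
      unfold B
      rw [Finset.mul_sum, Finset.mul_sum]
      apply Finset.sum_le_sum
      intro x _
      rw [Finset.mul_sum, Finset.mul_sum]
      apply Finset.sum_le_sum
      intro y _
      have h4 : p x - p y ≤ ∑ h ∈ H, (ind (tr h S) x * (1 - ind (tr h S) y)) := by
        simp only [hp]
        rw [← Finset.sum_sub_distrib]
        apply Finset.sum_le_sum
        intro h _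
        rw [ind_tr, ind_tr]
        unfold ind
        split_ifs <;> norm_num
      have h5 : 0 ≤ ∑ h ∈ H, (ind (tr h S) x * (1 - ind (tr h S) y)) := by
        apply Finset.sum_nonneg
        intro h _
        exact mul_nonneg (ind_nonneg _ _) (by linarith [ind_le_one (tr h S) y])
      have h6 : (H.card : ℝ) * (ind (O x0) x * (1 - ind (O x0) y))
          ≤ 12 * ∑ h ∈ H, (ind (tr h S) x * (1 - ind (tr h S) y)) := by
        by_cases hx : x ∈ O x0
        · by_cases hy : y ∈ O x0
          · rw [ind_mem hx, ind_mem hy]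
            linarith
          · rw [ind_mem hx, ind_notMem hy]
            have := hother y hy
            have := hpO0 x hx
            linarith
        · rw [ind_notMem hx]
          linarith
      calc (H.card : ℝ) * (w x y * (ind (O x0) x * (1 - ind (O x0) y)))
          = w x y * ((H.card : ℝ) * (ind (O x0) x * (1 - ind (O x0) y))) := by ring
        _ ≤ w x y * (12 * ∑ h ∈ H, (ind (tr h S) x * (1 - ind (tr h S) y))) :=
            mul_le_mul_of_nonneg_left h6 (hw x y)
        _ = _ := by ring
    rw [h1] at h3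
    have h7 : (H.card : ℝ) * B w (O x0) ≤ H.card * (12 * B w S) := by linarith
    exact le_of_mul_le_mul_left h7 hHpos
  refine ⟨H, O x0, ⟨1, hH1⟩, ?_, ?_, ⟨x0, hx0, hOself x0, ?_⟩, ?_, hHcard, hBO⟩
  · intro h hh
    rw [hHm] at hh
    rw [← card_pos]
    have : NN S h = (S ∩ tr h S).card := rfl
    omega
  · intro h hh y
    exact hOinv x0 h hh y
  · intro y hy
    exact (hOm _ _).1 hy
  · have h1 := hpO x0
    have h2 : (O x0).card * (2 * (H.card : ℝ)) < (O x0).card * (3 * p x0) :=
      mul_lt_mul_of_pos_left hpx0 hO0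
    have h3 : ((O x0 ∩ S).card : ℝ) ≤ s := by
      rw [hs]
      exact_mod_cast card_le_card inter_subset_right
    have h4 : (H.card : ℝ) * (2 * (O x0).card) < H.card * (3 * s) := by
      have := mul_le_mul_of_nonneg_left h3 hHpos.le
      linarith
    have h5 := lt_of_mul_lt_mul_left h4 hHpos.le
    rw [hs] at h5
    have h6 : 2 * (O x0).card < 3 * S.card := by exact_mod_cast h5
    exact h6.le

end

end Pool.Agent.H32.VT
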