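import Pool.Agent.H32.VT.Main

/-!
# Vertex-transitive graphs
-/

set_option autoImplicit false
set_option linter.unusedSectionVars false

namespace Pool.Agent.H32.VT

open Finset

section
variable {V : Type} [Fintype V] [DecidableEq V] (G : SimpleGraph V) [DecidableRel G.Adj]

/-- number of edges which leave `S` -/
def cut (S : Finset V) : ℕ :=
  (univ.filter fun p : V × V => p.1 ∈ S ∧ p.2 ∉ S ∧ G.Adj p.1 p.2).card

/-- weight of a graph -/
noncomputable def wt (x y : V) : ℝ := if G.Adj x y then 1 else 0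

lemma B_wt (S : Finset V) : B (wt G) S = cut G S := by
  unfold B cut wt ind
  rw [Finset.card_filter, ← Finset.univ_product_univ, Finset.sum_product]
  push_cast
  apply Finset.sum_congr rfl
  intro x _
  apply Finset.sum_congr rfl
  intro y _
  by_cases h1 : x ∈ S <;> by_cases h2 : y ∈ S <;> by_cases h3 : G.Adj x y <;> simp [h1, h2, h3]

lemma conn_of_connected (hconn : G.Connected) (S : Finset V) (h : B (wt G) S = 0) :
    S = ∅ ∨ S = univ := by
  by_contra hcon
  push Not at hcon
  obtain ⟨h1, h2⟩ := hcon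
  obtain ⟨u, hu⟩ := h1
  obtain ⟨v, hv⟩ : ∃ v, v ∉ S := by
    by_contra hall
    push Not at hall
    exact h2 (Finset.eq_univ_of_forall hall)
  obtain ⟨p⟩ := hconn.preconnected u v
  obtain ⟨e, _, he1, he2⟩ := p.exists_boundary_dart (S : Set V) (by simpa using hu)
    (by simpa using hv)
  rw [B_wt] at h
  have h0 : cut G S = 0 := by exact_mod_cast h
  unfold cut at h0
  rw [card_eq_zero, filter_eq_empty_iff] at h0
  exact h0 (mem_univ (e.fst, e.snd)) ⟨by simpa using he1, by simpa using he2, e.adj⟩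

/-- the group of automorphisms acts on the points -/
@[reducible] def autAction : MulAction (G ≃g G) V where
  smul φ x := φ x
  one_smul _ := rfl
  mul_smul _ _ _ := rfl

theorem graph_scales (d : ℕ) (hd : G.IsRegularOfDegree d) (hconn : G.Connected)
    (htrans : ∀ u v : V, ∃ φ : G ≃g G, φ u = v) {η δ : ℝ} (hη : 0 < η) (hη1 : η ≤ 1)
    (hδ : 0 < δ) (hδ1 : δ ≤ 1) (S : Finset V) (hS : S.Nonempty)
    (hS2 : 2 * S.card ≤ Fintype.card V)
    (hB : (cut G S : ℝ) / (d * S.card) ≤ η ^ 7 * δ ^ 6 / (150 * d)) (k : ℕ)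
    (hk : δ * Fintype.card V ≤ k) (hkn : k ≤ Fintype.card V) :
    ∃ T : Finset V, T.card = k ∧ (cut G T : ℝ) / (d * T.card) ≤ η := by
  classical
  have hs0 : (0 : ℝ) < S.card := by exact_mod_cast hS.card_pos
  have hd1 : 1 ≤ d := by
    by_contra hd0
    have hd0' : d = 0 := by omega
    obtain ⟨x, hx⟩ := hS
    have hcard : 1 < Fintype.card V := by
      have : 0 < S.card := card_pos.2 ⟨x, hx⟩
      omega
    have : Nontrivial V := Fintype.one_lt_card_iff_nontrivial.1 hcard
    obtain ⟨y, hy⟩ := hconn.preconnected.exists_adj_of_nontrivial x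
    have h1 := hd x
    rw [hd0', SimpleGraph.degree, card_eq_zero] at h1
    have h2 : y ∈ G.neighborFinset x := by
      rw [SimpleGraph.mem_neighborFinset]
      exact hy
    rw [h1] at h2
    simp at h2
  have hd0 : (0 : ℝ) < d := by
    have : 0 < d := hd1
    exact_mod_cast this
  let _ := autAction G
  let _ : Fintype (G ≃g G) := Fintype.ofInjective (fun φ : G ≃g G => φ.toEquiv) (by
    intro φ ψ h
    exact RelIso.toEquiv_injective h)
  have hw : ∀ x y, 0 ≤ wt G x y := by
    intro x y
    unfold wt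
    split_ifs <;> norm_num
  have hw1 : ∀ x y, wt G x y = 0 ∨ 1 ≤ wt G x y := by
    intro x y
    unfold wt
    split_ifs
    · exact Or.inr le_rfl
    · exact Or.inl rfl
  have hinv : ∀ (g : G ≃g G) x y, wt G (g • x) (g • y) = wt G x y := by
    intro g x y
    have : G.Adj (g • x) (g • y) ↔ G.Adj x y := g.map_adj_iff
    unfold wt
    simp only [this]
  have hD : ∀ x, ∑ y, wt G x y ≤ (d : ℝ) := by
    intro x
    unfold wt
    rw [Finset.sum_ite, Finset.sum_const_zero, add_zero, Finset.sum_const, nsmul_eq_mul, mul_one]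
    have h1 := hd x
    rw [SimpleGraph.degree] at h1
    have h2 : (univ.filter fun y => G.Adj x y) = G.neighborFinset x := by
      ext y
      simp
    rw [h2, h1]
  obtain ⟨T, hT1, hT2⟩ := scales (Γ := G ≃g G) hw hw1 hinv htrans (conn_of_connected G hconn)
    (by exact_mod_cast hd1 : (1 : ℝ) ≤ d) hD hη hη1 hδ hδ1 S hS hS2 (by
      rw [B_wt]
      rw [div_le_div_iff₀ (by positivity) (by positivity)] at hB
      have h1 : (150 * (cut G S : ℝ)) * d ≤ (η ^ 7 * δ ^ 6 * S.card) * d := by linarith
      exact le_of_mul_le_mul_right h1 hd0) k hk hkn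
  refine ⟨T, hT1, ?_⟩
  rw [B_wt] at hT2
  rcases Nat.eq_zero_or_pos k with h0 | h0
  · rw [hT1, h0]
    simp [hη.le]
  · have hk0 : (0 : ℝ) < k := by exact_mod_cast h0
    rw [hT1, div_le_iff₀ (by positivity)]
    exact hT2

end

section prism

/-- two complete graphs with `m` vertices joined by a perfect matching -/
def prism (m : ℕ) : SimpleGraph (Fin m × Bool) where
  Adj x y := (x.1 ≠ y.1 ∧ x.2 = y.2) ∨ (x.1 = y.1 ∧ x.2 ≠ y.2)
  symm := ⟨by
    intro x y h
    rcases h with ⟨h1, h2⟩ | ⟨h1, h2⟩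
    · exact Or.inl ⟨fun h => h1 h.symm, h2.symm⟩
    · exact Or.inr ⟨h1.symm, fun h => h2 h.symm⟩⟩
  loopless := ⟨by
    intro x h
    rcases h with ⟨h1, _⟩ | ⟨_, h1⟩
    · exact h1 rfl
    · exact h1 rfl⟩

instance (m : ℕ) : DecidableRel (prism m).Adj := fun x y =>
  inferInstanceAs (Decidable ((x.1 ≠ y.1 ∧ x.2 = y.2) ∨ (x.1 = y.1 ∧ x.2 ≠ y.2)))

lemma prism_regular (m : ℕ) : (prism m).IsRegularOfDegree m := by
  intro x
  rw [SimpleGraph.degree]
  have h : (prism m).neighborFinset x
      = ((univ.erase x.1).image fun b => (b, x.2)) ∪ {(x.1, !x.2)} := by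
    ext y
    rw [SimpleGraph.mem_neighborFinset, mem_union, mem_image, mem_singleton]
    constructor
    · rintro (⟨h1, h2⟩ | ⟨h1, h2⟩)
      · exact Or.inl ⟨y.1, by simpa using fun h => h1 h.symm, Prod.ext rfl h2⟩
      · right
        have h3 : y.2 = !x.2 := by
          cases hx : x.2 <;> cases hy : y.2 <;> simp_all
        exact Prod.ext (show y.1 = (x.1, !x.2).1 from h1.symm) h3
    · rintro (⟨b, hb, rfl⟩ | rfl)
      · left
        rw [mem_erase] at hb
        exact ⟨fun h => hb.1 h.symm, rfl⟩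
      · right
        exact ⟨rfl, by simp⟩
  rw [h, card_union_of_disjoint, card_image_of_injective, card_erase_of_mem (mem_univ _),
    card_singleton, card_univ, Fintype.card_fin]
  · have := x.1.2
    omega
  · intro a b h
    exact (Prod.mk.inj h).1
  · rw [Finset.disjoint_singleton_right, mem_image]
    rintro ⟨b, _, hb⟩
    have := (Prod.mk.inj hb).2
    simp at this

lemma prism_connected (m : ℕ) (hm : 1 ≤ m) : (prism m).Connected := by
  have hne : Nonempty (Fin m × Bool) := ⟨(⟨0, by omega⟩, true)⟩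
  rw [SimpleGraph.connected_iff]
  refine ⟨?_, hne⟩
  intro x y
  have h1 : ∀ (a b : Fin m) (s : Bool), (prism m).Reachable (a, s) (b, s) := by
    intro a b s
    by_cases hab : a = b
    · rw [hab]
    · exact SimpleGraph.Adj.reachable (Or.inl ⟨hab, rfl⟩)
  have h2 : (prism m).Reachable (y.1, x.2) (y.1, y.2) := by
    by_cases hs : x.2 = y.2
    · rw [hs]
    · exact SimpleGraph.Adj.reachable (Or.inr ⟨rfl, hs⟩)
  exact (h1 x.1 y.1 x.2).trans h2

lemma prism_transitive (m : ℕ) (u v : Fin m × Bool) : ∃ φ : prism m ≃g prism m, φ u = v := by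
  let e2 : Bool ≃ Bool := if u.2 = v.2 then Equiv.refl Bool else Equiv.boolNot
  refine ⟨⟨(Equiv.swap u.1 v.1).prodCongr e2, ?_⟩, ?_⟩
  · intro x y
    show ((Equiv.swap u.1 v.1 x.1 ≠ Equiv.swap u.1 v.1 y.1 ∧ e2 x.2 = e2 y.2) ∨
      (Equiv.swap u.1 v.1 x.1 = Equiv.swap u.1 v.1 y.1 ∧ e2 x.2 ≠ e2 y.2)) ↔
      ((x.1 ≠ y.1 ∧ x.2 = y.2) ∨ (x.1 = y.1 ∧ x.2 ≠ y.2))
    simp only [ne_eq, EmbeddingLike.apply_eq_iff_eq]
  · show ((Equiv.swap u.1 v.1) u.1, e2 u.2) = v
    apply Prod.ext
    · simp
    · show e2 u.2 = v.2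
      by_cases h : u.2 = v.2
      · simp [e2, h]
      · simp only [e2, h, if_false, Equiv.boolNot_apply]
        cases hu : u.2 <;> cases hv : v.2 <;> simp_all

lemma prism_half (m : ℕ) : cut (prism m) (univ.filter fun x : Fin m × Bool => x.2 = true)
    = m := by
  unfold cut
  have h : (univ.filter fun p : (Fin m × Bool) × (Fin m × Bool) =>
      p.1 ∈ (univ.filter fun x : Fin m × Bool => x.2 = true) ∧
      p.2 ∉ (univ.filter fun x : Fin m × Bool => x.2 = true) ∧ (prism m).Adj p.1 p.2)
      = univ.image fun a : Fin m => ((a, true), (a, false)) := by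
    ext ⟨⟨a, s⟩, ⟨b, t⟩⟩
    simp only [mem_filter, mem_univ, true_and, mem_image, Prod.mk.injEq]
    constructor
    · rintro ⟨h1, h2, h3⟩
      rcases h3 with ⟨_, h4⟩ | ⟨h4, _⟩
      · exact absurd (h4.symm.trans h1) h2
      · refine ⟨a, ⟨rfl, h1.symm⟩, h4, ?_⟩
        cases t
        · rfl
        · exact absurd rfl h2
    · rintro ⟨c, ⟨rfl, rfl⟩, rfl, rfl⟩
      exact ⟨rfl, by simp, Or.inr ⟨rfl, by simp⟩⟩
  rw [h, card_image_of_injective, card_univ, Fintype.card_fin]
  intro a b hab
  exact (Prod.mk.inj (Prod.mk.inj hab).1).1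

lemma prism_small (m : ℕ) (T : Finset (Fin m × Bool)) (hT : 4 * T.card ≤ m) :
    3 * (m * T.card) ≤ 4 * cut (prism m) T := by
  have h1 : ∑ x ∈ T, (m - T.card) ≤ cut (prism m) T := by
    have h2 : cut (prism m) T = ∑ x ∈ T,
        (univ.filter fun y => y ∉ T ∧ (prism m).Adj x y).card := by
      unfold cut
      rw [Finset.card_filter, ← Finset.univ_product_univ, Finset.sum_product,
        ← Finset.sum_subset (subset_univ T)]
      · apply Finset.sum_congr rfl
        intro x hx
        rw [Finset.card_filter]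
        apply Finset.sum_congr rfl
        intro y _
        simp only [hx, true_and]
      · intro x _ hx
        simp [hx]
    rw [h2]
    apply Finset.sum_le_sum
    intro x hx
    have h3 : (univ.filter fun b : Fin m => (b, x.2) ∉ T).card
        ≤ (univ.filter fun y => y ∉ T ∧ (prism m).Adj x y).card := by
      rw [← card_image_of_injective (f := fun b : Fin m => (b, x.2))
        (univ.filter fun b : Fin m => (b, x.2) ∉ T) (by
          intro a b hab
          exact (Prod.mk.inj hab).1)]
      apply card_le_card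
      intro y hy
      rw [mem_image] at hy
      obtain ⟨b, hb, rfl⟩ := hy
      rw [mem_filter] at hb ⊢
      refine ⟨mem_univ _, hb.2, Or.inl ⟨?_, rfl⟩⟩
      intro h
      apply hb.2
      have : (b, x.2) = x := Prod.ext h.symm rfl
      rw [this]
      exact hx
    refine le_trans ?_ h3
    have h4 : (univ.filter fun b : Fin m => (b, x.2) ∈ T).card ≤ T.card := by
      rw [← card_image_of_injective (f := fun b : Fin m => (b, x.2))
        (univ.filter fun b : Fin m => (b, x.2) ∈ T) (by
          intro a b hab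
          exact (Prod.mk.inj hab).1)]
      apply card_le_card
      intro y hy
      rw [mem_image] at hy
      obtain ⟨b, hb, rfl⟩ := hy
      exact (mem_filter.1 hb).2
    have h5 : (univ.filter fun b : Fin m => (b, x.2) ∈ T).card
        + (univ.filter fun b : Fin m => (b, x.2) ∉ T).card = m := by
      have := Finset.card_filter_add_card_filter_not (s := (univ : Finset (Fin m)))
        (fun b : Fin m => (b, x.2) ∈ T)
      rw [card_univ, Fintype.card_fin] at this
      exact this
    omega
  rw [Finset.sum_const, smul_eq_mul] at h1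
  have h6 : 3 * m ≤ 4 * (m - T.card) := by omega
  calc 3 * (m * T.card) = T.card * (3 * m) := by ring
    _ ≤ T.card * (4 * (m - T.card)) := Nat.mul_le_mul_left _ h6
    _ = 4 * (T.card * (m - T.card)) := by ring
    _ ≤ 4 * cut (prism m) T := Nat.mul_le_mul_left _ h1

end prism

end Pool.Agent.H32.VT
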