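import Pool.Agent.H32.VT.Blocks

/-!
# The distance of points with respect to the translates of a set

`sep Γ S x y` is the number of the translates of `S` which contain `x` and not `y`, counted by the
elements of the group.
-/

set_option autoImplicit false
set_option linter.unusedSectionVars false

namespace Pool.Agent.H32.VT

open Finset

section
variable {V : Type} [Fintype V] [DecidableEq V] {Γ : Type} [Group Γ] [Fintype Γ] [DecidableEq Γ]
  [MulAction Γ V]

variable (Γ) in
/-- the number of the translates which contain `x` -/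
noncomputable def am (S : Finset V) (x : V) : ℝ := ∑ g : Γ, ind (tr g S) x

variable (Γ) in
/-- the number of the translates which contain `x` and not `y` -/
noncomputable def sep (S : Finset V) (x y : V) : ℝ :=
  ∑ g : Γ, ind (tr g S) x * (1 - ind (tr g S) y)

lemma am_eq (htr : ∀ x y : V, ∃ g : Γ, g • x = y) (S : Finset V) (x : V) :
    (Fintype.card V : ℝ) * am Γ S x = Fintype.card Γ * S.card := by
  have := sum_orbit_inv (Γ := Γ) htr (ind S) x
  rw [sum_ind] at this
  rw [← this]
  unfold am
  simp only [ind_tr]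

lemma am_const (htr : ∀ x y : V, ∃ g : Γ, g • x = y) (S : Finset V) (x y : V) :
    am Γ S x = am Γ S y := by
  have h1 := am_eq (Γ := Γ) htr S x
  have h2 := am_eq (Γ := Γ) htr S y
  have hn : (0 : ℝ) < Fintype.card V := by
    have : 0 < Fintype.card V := Fintype.card_pos_iff.2 ⟨x⟩
    exact_mod_cast this
  exact mul_left_cancel₀ hn.ne' (h1.trans h2.symm)

lemma am_pos (htr : ∀ x y : V, ∃ g : Γ, g • x = y) {S : Finset V} (hS : S.Nonempty) (x : V) :
    0 < am Γ S x := by
  have h1 := am_eq (Γ := Γ) htr S x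
  have hn : (0 : ℝ) < Fintype.card V := by
    have : 0 < Fintype.card V := Fintype.card_pos_iff.2 ⟨x⟩
    exact_mod_cast this
  have hs : (0 : ℝ) < S.card := by exact_mod_cast hS.card_pos
  have hG : (0 : ℝ) < Fintype.card Γ := by
    have : 0 < Fintype.card Γ := Fintype.card_pos
    exact_mod_cast this
  have h2 : 0 < (Fintype.card V : ℝ) * am Γ S x := by
    rw [h1]
    positivity
  exact (mul_pos_iff_of_pos_left hn).1 h2

lemma sep_eq (S : Finset V) (x y : V) :
    sep Γ S x y = am Γ S x - ∑ g : Γ, ind (tr g S) x * ind (tr g S) y := by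
  unfold sep am
  rw [← Finset.sum_sub_distrib]
  apply Finset.sum_congr rfl
  intro g _
  ring

lemma sep_nonneg (S : Finset V) (x y : V) : 0 ≤ sep Γ S x y := by
  unfold sep
  apply Finset.sum_nonneg
  intro g _
  exact mul_nonneg (ind_nonneg _ _) (by linarith [ind_le_one (tr g S) y])

lemma sep_le (S : Finset V) (x y : V) : sep Γ S x y ≤ am Γ S x := by
  rw [sep_eq]
  have : 0 ≤ ∑ g : Γ, ind (tr g S) x * ind (tr g S) y := by
    apply Finset.sum_nonneg
    intro g _
    exact mul_nonneg (ind_nonneg _ _) (ind_nonneg _ _)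
  linarith

lemma sep_self (S : Finset V) (x : V) : sep Γ S x x = 0 := by
  unfold sep
  apply Finset.sum_eq_zero
  intro g _
  unfold ind
  split_ifs <;> simp

lemma sep_symm (htr : ∀ x y : V, ∃ g : Γ, g • x = y) (S : Finset V) (x y : V) :
    sep Γ S x y = sep Γ S y x := by
  rw [sep_eq, sep_eq, am_const htr S x y]
  congr 1
  apply Finset.sum_congr rfl
  intro g _
  ring

lemma sep_tri (S : Finset V) (x y z : V) : sep Γ S x z ≤ sep Γ S x y + sep Γ S y z := by
  unfold sep
  rw [← Finset.sum_add_distrib]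
  apply Finset.sum_le_sum
  intro g _
  unfold ind
  by_cases h1 : x ∈ tr g S <;> by_cases h2 : y ∈ tr g S <;> by_cases h3 : z ∈ tr g S <;>
    simp [h1, h2, h3]

lemma sep_smul (S : Finset V) (g : Γ) (x y : V) : sep Γ S (g • x) (g • y) = sep Γ S x y := by
  unfold sep
  rw [← Equiv.sum_comp (Equiv.mulLeft g)]
  apply Finset.sum_congr rfl
  intro h _
  simp only [ind_tr, Equiv.coe_mulLeft, mul_inv_rev, mul_smul, inv_smul_smul]

lemma am_smul (S : Finset V) (g : Γ) (x : V) : am Γ S (g • x) = am Γ S x := by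
  unfold am
  rw [← Equiv.sum_comp (Equiv.mulLeft g)]
  apply Finset.sum_congr rfl
  intro h _
  simp only [ind_tr, Equiv.coe_mulLeft, mul_inv_rev, mul_smul, inv_smul_smul]

lemma sum_sep (S : Finset V) (x : V) :
    ∑ y, sep Γ S x y = am Γ S x * (Fintype.card V - S.card) := by
  unfold sep am
  rw [Finset.sum_comm, Finset.sum_mul]
  apply Finset.sum_congr rfl
  intro g _
  rw [← Finset.mul_sum, Finset.sum_sub_distrib, sum_ind, card_tr]
  simp

/-- points in different classes are separated by all translates -/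
lemma sep_of_not {r : V → V → Prop} (hr : InvRel Γ r) {S : Finset V} {x0 : V}
    (hS : S ⊆ cls r x0) {x y : V} (h : ¬ r x y) : sep Γ S x y = am Γ S x := by
  rw [sep_eq]
  have : ∑ g : Γ, ind (tr g S) x * ind (tr g S) y = 0 := by
    apply Finset.sum_eq_zero
    intro g _
    by_cases h1 : x ∈ tr g S
    · by_cases h2 : y ∈ tr g S
      · exfalso
        apply h
        rw [mem_tr] at h1 h2
        have e1 := (mem_cls r x0 _).1 (hS h1)
        have e2 := (mem_cls r x0 _).1 (hS h2)
        have e3 := hr.inv g _ _ (hr.eqv.trans (hr.eqv.symm e1) e2)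
        rwa [smul_inv_smul, smul_inv_smul] at e3
      · rw [ind_notMem h2, mul_zero]
    · rw [ind_notMem h1, zero_mul]
  rw [this, sub_zero]

lemma sum_sep_cls {r : V → V → Prop} (hr : InvRel Γ r) {S : Finset V} {x0 : V}
    (hS : S ⊆ cls r x0) (x : V) :
    ∑ y ∈ cls r x, sep Γ S x y = am Γ S x * ((cls r x).card - S.card) := by
  have h1 := Finset.sum_add_sum_compl (cls r x) (fun y => sep Γ S x y)
  rw [sum_sep] at h1
  have h2 : ∑ y ∈ (cls r x)ᶜ, sep Γ S x y = ((cls r x)ᶜ.card : ℝ) * am Γ S x := by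
    rw [← nsmul_eq_mul, ← Finset.sum_const]
    apply Finset.sum_congr rfl
    intro y hy
    apply sep_of_not hr hS
    intro hxy
    rw [mem_compl] at hy
    exact hy ((mem_cls r x y).2 hxy)
  have h3 : (((cls r x)ᶜ).card : ℝ) = Fintype.card V - (cls r x).card := by
    rw [card_compl, Nat.cast_sub (card_le_univ _)]
  rw [h2, h3] at h1
  linarith

/-- the weight of the pairs which are separated -/
lemma sum_w_sep_total {w : V → V → ℝ} (hinv : ∀ (g : Γ) x y, w (g • x) (g • y) = w x y)
    (S : Finset V) : ∑ x, ∑ y, w x y * sep Γ S x y = Fintype.card Γ * B w S := by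
  have h1 : ∀ g : Γ, ∑ x, ∑ y, w x y * (ind (tr g S) x * (1 - ind (tr g S) y)) = B w S :=
    fun g => B_tr hinv g S
  calc ∑ x, ∑ y, w x y * sep Γ S x y
      = ∑ g : Γ, ∑ x, ∑ y, w x y * (ind (tr g S) x * (1 - ind (tr g S) y)) := by
        unfold sep
        simp only [Finset.mul_sum]
        rw [Finset.sum_comm (s := (univ : Finset Γ))]
        apply Finset.sum_congr rfl
        intro x _
        rw [Finset.sum_comm]
    _ = _ := by
        rw [Finset.sum_congr rfl (fun g _ => h1 g), Finset.sum_const, card_univ, nsmul_eq_mul]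

lemma sum_w_sep {w : V → V → ℝ} (hinv : ∀ (g : Γ) x y, w (g • x) (g • y) = w x y)
    (htr : ∀ x y : V, ∃ g : Γ, g • x = y) (S : Finset V) (x : V) :
    (Fintype.card V : ℝ) * ∑ y, w x y * sep Γ S x y = Fintype.card Γ * B w S := by
  rw [← sum_w_sep_total hinv S]
  have h1 : ∀ z : V, ∑ y, w z y * sep Γ S z y = ∑ y, w x y * sep Γ S x y := by
    intro z
    obtain ⟨g, rfl⟩ := htr x z
    rw [← sum_smul g]
    apply Finset.sum_congr rfl
    intro y _
    rw [hinv, sep_smul]
  rw [Finset.sum_congr rfl (fun z _ => h1 z), Finset.sum_const, card_univ, nsmul_eq_mul]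

/-- balls -/
noncomputable def ball (Γ : Type) [Group Γ] [Fintype Γ] [DecidableEq Γ] [MulAction Γ V]
    (S : Finset V) (ρ : ℝ) (x : V) : Finset V := by
  classical
  exact univ.filter fun y => sep Γ S x y < ρ * am Γ S x

lemma mem_ball (S : Finset V) (ρ : ℝ) (x y : V) :
    y ∈ ball Γ S ρ x ↔ sep Γ S x y < ρ * am Γ S x := by
  classical
  unfold ball
  simp

lemma card_ball (htr : ∀ x y : V, ∃ g : Γ, g • x = y) (S : Finset V) (ρ : ℝ) (x y : V) :
    (ball Γ S ρ x).card = (ball Γ S ρ y).card := by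
  obtain ⟨g, rfl⟩ := htr x y
  rw [← card_tr' g (ball Γ S ρ x)]
  congr 1
  ext z
  rw [mem_tr, mem_ball, mem_ball, am_smul]
  have := sep_smul (Γ := Γ) S g x (g⁻¹ • z)
  rw [smul_inv_smul] at this
  rw [this]

lemma ball_subset {r : V → V → Prop} (hr : InvRel Γ r) {S : Finset V} {x0 : V}
    (hS : S ⊆ cls r x0) {ρ : ℝ} (hρ : ρ ≤ 1) (x : V) : ball Γ S ρ x ⊆ cls r x := by
  intro y hy
  rw [mem_ball] at hy
  rw [mem_cls]
  by_contra h
  rw [sep_of_not hr hS h] at hy
  have h1 : 0 ≤ am Γ S x := (sep_nonneg S x y).trans (sep_le S x y)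
  nlinarith

end

end Pool.Agent.H32.VT
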