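import Pool.Agent.H32.VT.Structure

/-!
# Systems of blocks as partitions
-/

set_option autoImplicit false
set_option linter.unusedSectionVars false

namespace Pool.Agent.H32.VT

open Finset

section
variable {V : Type} [Fintype V] [DecidableEq V] (G : SimpleGraph V) [DecidableRel G.Adj]

/-- number of edges between `T` and the rest of `A` -/
def innerCut (A T : Finset V) : ℕ :=
  (univ.filter fun p : V × V => p.1 ∈ T ∧ p.2 ∈ A ∧ p.2 ∉ T ∧ G.Adj p.1 p.2).card

lemma B_wi {r : V → V → Prop} (hr : Equivalence r) (x : V) (T : Finset V) (hT : T ⊆ cls r x) :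
    B (wi (wt G) r) T = innerCut G (cls r x) T := by
  unfold B innerCut wt wi ind
  rw [Finset.card_filter, ← Finset.univ_product_univ, Finset.sum_product]
  push_cast
  apply Finset.sum_congr rfl
  intro a _
  apply Finset.sum_congr rfl
  intro b _
  by_cases h1 : a ∈ T
  · have h0 : r x a := (mem_cls r x a).1 (hT h1)
    have h4 : r a b ↔ b ∈ cls r x := by
      rw [mem_cls]
      exact ⟨fun h => hr.trans h0 h, fun h => hr.trans (hr.symm h0) h⟩
    by_cases h2 : b ∈ T <;> by_cases h3 : G.Adj a b <;> by_cases h5 : r a b <;>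
      simp [h1, h2, h3, h5, ← h4]
  · simp [h1]

lemma exists_parts {r : V → V → Prop} (hr : Equivalence r)
    (hinv : ∀ (φ : G ≃g G) x y, r x y → r (φ x) (φ y)) :
    ∃ P : Finpartition (univ : Finset V), (∀ φ : G ≃g G, ∀ A ∈ P.parts, A.image φ ∈ P.parts) ∧
      ∀ A ∈ P.parts, ∃ x ∈ A, A = cls r x := by
  classical
  let s : Setoid V := ⟨r, hr⟩
  let P := Finpartition.ofSetoid s
  have hpart : ∀ x, P.part x = cls r x := by
    intro x
    ext y
    rw [mem_cls]
    exact Finpartition.mem_part_ofSetoid_iff_rel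
  have hP : ∀ A ∈ P.parts, ∃ x ∈ A, A = cls r x := by
    intro A hA
    obtain ⟨x, hx⟩ := P.nonempty_of_mem_parts hA
    exact ⟨x, hx, by rw [← hpart, P.part_eq_of_mem hA hx]⟩
  refine ⟨P, ?_, hP⟩
  intro φ A hA
  obtain ⟨x, _, rfl⟩ := hP A hA
  have h1 : (cls r x).image φ = cls r (φ x) := by
    ext y
    rw [mem_image, mem_cls]
    constructor
    · rintro ⟨z, hz, rfl⟩
      exact hinv φ x z ((mem_cls r x z).1 hz)
    · intro h
      refine ⟨φ.symm y, ?_, by simp⟩
      rw [mem_cls]
      have := hinv φ.symm _ _ h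
      simpa using this
  rw [h1, ← hpart]
  exact P.part_mem.2 (mem_univ _)

lemma parts_lt {P : Finpartition (univ : Finset V)} {t : ℝ} [Nonempty V]
    (h : ∀ A ∈ P.parts, t * Fintype.card V < 2 * A.card) : P.parts.card * t < 2 := by
  have hn : (0 : ℝ) < Fintype.card V := by
    have : 0 < Fintype.card V := Fintype.card_pos
    exact_mod_cast this
  have hne : P.parts.Nonempty := by
    rw [Finset.nonempty_iff_ne_empty]
    intro h0
    have := P.sum_card_parts
    rw [h0, Finset.sum_empty, card_univ] at this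
    have : 0 < Fintype.card V := Fintype.card_pos
    omega
  have h1 : ∑ A ∈ P.parts, t * (Fintype.card V : ℝ) < ∑ A ∈ P.parts, 2 * (A.card : ℝ) :=
    Finset.sum_lt_sum_of_nonempty hne h
  rw [Finset.sum_const, nsmul_eq_mul, ← Finset.mul_sum] at h1
  have h2 : ∑ A ∈ P.parts, (A.card : ℝ) = Fintype.card V := by
    have := P.sum_card_parts
    rw [card_univ] at this
    exact_mod_cast this
  rw [h2] at h1
  have h3 : (P.parts.card * t) * (Fintype.card V : ℝ) < 2 * Fintype.card V := by linarith
  exact lt_of_mul_lt_mul_right h3 hn.le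

lemma two_le_parts {P : Finpartition (univ : Finset V)} [Nonempty V]
    (h : ∀ A ∈ P.parts, 2 * A.card ≤ Fintype.card V) : 2 ≤ P.parts.card := by
  have hn : 0 < Fintype.card V := Fintype.card_pos
  have h1 := P.sum_card_parts
  rw [card_univ] at h1
  have h2 : 2 * ∑ A ∈ P.parts, A.card ≤ P.parts.card * Fintype.card V := by
    rw [Finset.mul_sum]
    calc ∑ A ∈ P.parts, 2 * A.card ≤ ∑ A ∈ P.parts, Fintype.card V := Finset.sum_le_sum h
      _ = _ := by rw [Finset.sum_const, smul_eq_mul]
  rw [h1] at h2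
  exact Nat.le_of_mul_le_mul_right h2 hn

lemma cut_singleton {d : ℕ} (hd : G.IsRegularOfDegree d) (x : V) : cut G {x} = d := by
  have h1 := hd x
  rw [SimpleGraph.degree] at h1
  rw [← h1]
  unfold cut
  rw [← card_image_of_injective (G.neighborFinset x) (f := fun y => (x, y)) (by
    intro a b hab
    exact (Prod.mk.inj hab).2)]
  congr 1
  ext ⟨a, b⟩
  simp only [mem_filter, mem_univ, true_and, mem_image, mem_singleton, Prod.mk.injEq,
    SimpleGraph.mem_neighborFinset]
  constructor
  · rintro ⟨rfl, _, h⟩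
    exact ⟨b, h, rfl, rfl⟩
  · rintro ⟨y, h, rfl, rfl⟩
    exact ⟨rfl, fun h' => G.ne_of_adj h h'.symm, h⟩

lemma expansion_cls {d : ℕ} (hd1 : 1 ≤ d) {r : V → V → Prop} (hr : Equivalence r) {β : ℝ}
    (hβ : ∀ x, wo (wt G) r x ≤ β * d) (x : V) :
    (cut G (cls r x) : ℝ) / (d * (cls r x).card) ≤ β := by
  have hd0 : (0 : ℝ) < d := by
    have : 0 < d := hd1
    exact_mod_cast this
  have h1 := B_cls hr hβ x
  rw [B_wt] at h1
  have h2 : (0 : ℝ) < (cls r x).card := by
    have : 0 < (cls r x).card := card_pos.2 ⟨x, (mem_cls r x x).2 (hr.refl x)⟩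
    exact_mod_cast this
  rw [div_le_iff₀ (by positivity)]
  linarith

end

section
variable {V : Type} [Fintype V] [DecidableEq V] (G : SimpleGraph V) [DecidableRel G.Adj]
variable {Γ : Type} [Group Γ] [Fintype Γ] [DecidableEq Γ] [MulAction Γ V]

/-- the stabilizer of a class -/
lemma exists_stab {r : V → V → Prop} (hr : InvRel Γ r) (htr : ∀ x y : V, ∃ g : Γ, g • x = y)
    (x : V) : ∃ K : Subgroup Γ, K.index * (cls r x).card = Fintype.card V := by
  classical
  let K : Subgroup Γ :=
    { carrier := {g | r x (g • x)}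
      mul_mem' := by
        intro a b ha hb
        show r x ((a * b) • x)
        rw [mul_smul]
        exact hr.eqv.trans ha (hr.inv a _ _ hb)
      one_mem' := by
        show r x ((1 : Γ) • x)
        rw [one_smul]
        exact hr.eqv.refl x
      inv_mem' := by
        intro a ha
        show r x (a⁻¹ • x)
        have := hr.inv a⁻¹ _ _ ha
        rw [inv_smul_smul] at this
        exact hr.eqv.symm this }
  refine ⟨K, ?_⟩
  have h1 : Nat.card K * K.index = Nat.card Γ := K.card_mul_index
  have h2 := sum_orbit (Γ := Γ) htr (ind (cls r x)) x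
  rw [sum_ind] at h2
  have h3 : ∑ g : Γ, ind (cls r x) (g • x) = (Nat.card K : ℝ) := by
    have : ∑ g : Γ, ind (cls r x) (g • x) = ((univ.filter fun g : Γ => g ∈ K).card : ℝ) := by
      rw [Finset.card_filter]
      push_cast
      apply Finset.sum_congr rfl
      intro g _
      have hgK : g ∈ K ↔ g • x ∈ cls r x := by
        rw [mem_cls]
        rfl
      by_cases h : g ∈ K
      · rw [ind_mem (hgK.1 h), if_pos h]
      · rw [ind_notMem (fun h' => h (hgK.2 h')), if_neg h]
    rw [this]
    congr 1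
    rw [Nat.card_eq_fintype_card, Fintype.card_subtype]
  rw [h3] at h2
  have h4 : Fintype.card V * Nat.card K = Fintype.card Γ * (cls r x).card := by exact_mod_cast h2
  rw [← Nat.card_eq_fintype_card (α := Γ), ← h1] at h4
  have h5 : 0 < Nat.card K := Nat.card_pos
  have h6 : Nat.card K * (K.index * (cls r x).card) = Nat.card K * Fintype.card V := by
    rw [mul_comm (Nat.card K) (Fintype.card V), h4]
    ring
  exact Nat.eq_of_mul_eq_mul_left h5 h6

end

end Pool.Agent.H32.VT
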