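import Pool.Agent.H32.VT.Profile

/-!
# Decomposition of vertex-transitive graphs with polynomial bounds
-/

set_option autoImplicit false
set_option linter.unusedSectionVars false

namespace Pool.Agent.H32.VT

open Finset

section
variable {V : Type} [Fintype V] [DecidableEq V] {Γ : Type} [Group Γ] [Fintype Γ] [DecidableEq Γ]
  [MulAction Γ V]

lemma rel_of_sep_lt {r : V → V → Prop} (hr : InvRel Γ r) {S : Finset V} {x0 : V}
    (hS : S ⊆ cls r x0) {x y : V} (h : sep Γ S x y < am Γ S x) : r x y := by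
  by_contra hcon
  rw [sep_of_not hr hS hcon] at h
  exact lt_irrefl _ h

/-- a proper subclass has at most half of the points -/
lemma two_mul_cls_le {r r' : V → V → Prop} (hr : InvRel Γ r) (hr' : InvRel Γ r')
    (htr : ∀ x y : V, ∃ g : Γ, g • x = y) (href : ∀ y z, r' y z → r y z) (y : V)
    (h : (cls r' y).card < (cls r y).card) : 2 * (cls r' y).card ≤ (cls r y).card := by
  obtain ⟨z, hz, hyz⟩ : ∃ z, r y z ∧ ¬ r' y z := by
    by_contra hno
    push Not at hno
    have : (cls r y).card ≤ (cls r' y).card := by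
      apply card_le_card
      intro z hz
      rw [mem_cls] at hz ⊢
      exact hno z hz
    omega
  have hdis : Disjoint (cls r' y) (cls r' z) := by
    rw [Finset.disjoint_left]
    intro t ht1 ht2
    rw [mem_cls] at ht1 ht2
    exact hyz (hr'.eqv.trans ht1 (hr'.eqv.symm ht2))
  have hsub : cls r' y ∪ cls r' z ⊆ cls r y := by
    apply union_subset
    · intro t ht
      rw [mem_cls] at ht ⊢
      exact href _ _ ht
    · intro t ht
      rw [mem_cls] at ht ⊢
      exact hr.eqv.trans hz (href _ _ ht)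
  have e1 := card_le_card hsub
  rw [card_union_of_disjoint hdis, hr'.card_cls htr z y] at e1
  omega

/-- **Refinement with a polynomial loss.** -/
theorem refine_poly {w : V → V → ℝ} (hw : ∀ x y, 0 ≤ w x y)
    (hinv : ∀ (g : Γ) x y, w (g • x) (g • y) = w x y)
    (htr : ∀ x y : V, ∃ g : Γ, g • x = y) {r : V → V → Prop}
    (hr : InvRel Γ r) {K α s : ℝ} (hK : ∀ x, ((cls r x).card : ℝ) = K) (hα : 0 ≤ α)
    (hs : 0 ≤ s)
    (hsse : ∀ T : Finset V, T.Nonempty → (T.card : ℝ) ≤ s →
      165 * α * K ^ 4 * T.card < B w T * s ^ 4) (N : ℕ) :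
    ∀ (S : Finset V) (x0 : V), S.card = N → S.Nonempty → S ⊆ cls r x0 → s < S.card →
      2 * (S.card : ℝ) ≤ K → B w S * (2 * S.card) ^ 4 ≤ α * K ^ 4 * S.card →
      ∃ r', InvRel Γ r' ∧ (∀ y z, r' y z → r y z) ∧
        (∀ y, wo w r' y * (cls r' y).card ^ 4 ≤ 664 * α * K ^ 4) ∧
        (∀ y, 2 * (cls r' y).card ≤ (cls r y).card) ∧ (∀ y, s < (cls r' y).card) := by
  induction N using Nat.strong_induction_on with
  | _ N ih =>
  intro S x0 hN hS hSx hsS h2 hB
  have hs0 : (0 : ℝ) < S.card := by exact_mod_cast hS.card_pos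
  have hK0 : 0 < K := by linarith
  have hαK : 0 ≤ α * K ^ 4 := by positivity
  rcases profile (Γ := Γ) hw hinv htr hS (t := (S.card : ℝ) / 8) (by positivity) (by linarith) with
    ⟨T, h1, h3, h4, h5⟩ | ⟨r', h1, h3, h4, h5, h6⟩
  · -- a smaller set
    have hT0 : (0 : ℝ) < T.card := by exact_mod_cast h1.card_pos
    have hBT0 := B_nonneg hw T
    have h7 : B w T * S.card ≤ 2640 * B w S * T.card := by linarith
    -- the inequality between `T` and `S`
    have h8 : B w T * S.card ^ 4 ≤ 165 * α * K ^ 4 * T.card := by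
      have e1 : B w T * S.card * (16 * S.card ^ 4) ≤ 2640 * B w S * T.card * (16 * S.card ^ 4) :=
        mul_le_mul_of_nonneg_right h7 (by positivity)
      have e2 : 2640 * B w S * T.card * (16 * (S.card : ℝ) ^ 4)
          = 2640 * T.card * (B w S * (2 * S.card) ^ 4) := by ring
      have e3 : 2640 * (T.card : ℝ) * (B w S * (2 * S.card) ^ 4)
          ≤ 2640 * T.card * (α * K ^ 4 * S.card) := mul_le_mul_of_nonneg_left hB (by positivity)
      have e4 : (16 * S.card) * (B w T * S.card ^ 4)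
          ≤ (16 * S.card) * (165 * α * K ^ 4 * (T.card : ℝ)) := by
        calc (16 * S.card) * (B w T * S.card ^ 4) = B w T * S.card * (16 * S.card ^ 4) := by ring
          _ ≤ 2640 * T.card * (α * K ^ 4 * S.card) := e1.trans (e2.le.trans e3)
          _ = _ := by ring
      exact le_of_mul_le_mul_left e4 (by positivity)
    have hsT : s < T.card := by
      by_contra hcon
      push Not at hcon
      have e1 := hsse T h1 hcon
      have e2 : B w T * s ^ 4 ≤ B w T * S.card ^ 4 :=
        mul_le_mul_of_nonneg_left (pow_le_pow_left₀ hs hsS.le 4) hBT0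
      linarith
    have hTx : ∃ x1, T ⊆ cls r x1 := by
      obtain ⟨x1, hx1⟩ := h1
      refine ⟨x1, ?_⟩
      intro y hy
      rw [mem_cls]
      exact rel_of_sep_lt hr hSx (h3 x1 hx1 y hy)
    obtain ⟨x1, hTx⟩ := hTx
    apply ih T.card _ T x1 rfl h1 hTx hsT
    · linarith
    · -- the invariant
      have e1 : (2 * (T.card : ℝ)) ^ 4 * 256 ≤ S.card ^ 4 := by
        have f1 : 2 * (T.card : ℝ) * 4 ≤ S.card := by linarith
        have f2 := pow_le_pow_left₀ (by positivity) f1 4
        calc (2 * (T.card : ℝ)) ^ 4 * 256 = (2 * (T.card : ℝ) * 4) ^ 4 := by ring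
          _ ≤ _ := f2
      have e2 : B w T * ((2 * (T.card : ℝ)) ^ 4 * 256) ≤ 165 * α * K ^ 4 * T.card :=
        (mul_le_mul_of_nonneg_left e1 hBT0).trans h8
      have e3 : 0 ≤ α * K ^ 4 * T.card := by positivity
      linarith
    · have e1 : (T.card : ℝ) < N := by
        rw [← hN]
        linarith
      exact_mod_cast e1
  · -- blocks
    have href : ∀ y z, r' y z → r y z := by
      intro y z h
      apply rel_of_sep_lt hr hSx
      have e1 := h3 y z h
      have e2 := sep_nonneg (Γ := Γ) S y z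
      linarith
    have h7 : ∀ y, wo w r' y * S.card ≤ 664 * B w S := by
      intro y
      have := h4 y
      linarith
    have h8 : ∀ y, wo w r' y * (2 * S.card) ^ 4 ≤ 664 * α * K ^ 4 := by
      intro y
      have e1 : wo w r' y * S.card * (2 * S.card) ^ 4 ≤ 664 * B w S * (2 * S.card) ^ 4 :=
        mul_le_mul_of_nonneg_right (h7 y) (by positivity)
      have e2 : (wo w r' y * (2 * S.card) ^ 4) * S.card ≤ (664 * α * K ^ 4) * S.card := by
        calc (wo w r' y * (2 * S.card) ^ 4) * S.card = wo w r' y * S.card * (2 * S.card) ^ 4 := by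
              ring
          _ ≤ 664 * B w S * (2 * S.card) ^ 4 := e1
          _ = 664 * (B w S * (2 * S.card) ^ 4) := by ring
          _ ≤ 664 * (α * K ^ 4 * S.card) := by linarith
          _ = _ := by ring
      exact le_of_mul_le_mul_right e2 hs0
    have hlt : ∀ y, ((cls r' y).card : ℝ) < 2 * S.card := by
      intro y
      exact_mod_cast h5 y
    refine ⟨r', h1, href, ?_, ?_, ?_⟩
    · intro y
      refine le_trans ?_ (h8 y)
      apply mul_le_mul_of_nonneg_left _ (wo_nonneg hw r' y)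
      exact pow_le_pow_left₀ (Nat.cast_nonneg _) (hlt y).le 4
    · intro y
      apply two_mul_cls_le hr h1 htr href
      have e1 : ((cls r' y).card : ℝ) < (cls r y).card := by
        rw [hK y]
        linarith [hlt y]
      exact_mod_cast e1
    · intro y
      by_contra hcon
      push Not at hcon
      have hy0 : (0 : ℝ) < (cls r' y).card := by
        have : 0 < (cls r' y).card := card_pos.2 ⟨y, (mem_cls r' y y).2 (h1.eqv.refl y)⟩
        exact_mod_cast this
      have e1 := hsse (cls r' y) ⟨y, (mem_cls r' y y).2 (h1.eqv.refl y)⟩ hcon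
      have e2 := B_cls (w := w) h1.eqv (β := wo w r' y) (by
        intro z
        obtain ⟨g, rfl⟩ := htr y z
        exact (h1.wo_inv hinv g y).le) y
      have e3 : B w (cls r' y) * s ^ 4 ≤ wo w r' y * (cls r' y).card * s ^ 4 :=
        mul_le_mul_of_nonneg_right e2 (by positivity)
      have e4 : wo w r' y * (cls r' y).card * s ^ 4
          ≤ wo w r' y * (cls r' y).card * S.card ^ 4 := by
        apply mul_le_mul_of_nonneg_left (pow_le_pow_left₀ hs hsS.le 4)
        exact mul_nonneg (wo_nonneg hw r' y) hy0.le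
      have e5 := mul_le_mul_of_nonneg_right (h8 y) hy0.le
      have e6 : wo w r' y * (2 * S.card) ^ 4 * ((cls r' y).card : ℝ)
          = 16 * (wo w r' y * (cls r' y).card * S.card ^ 4) := by ring
      have e7 : 0 ≤ α * K ^ 4 * (cls r' y).card := by positivity
      linarith

/-- **Decomposition.** -/
theorem decomposition {w : V → V → ℝ} (hw : ∀ x y, 0 ≤ w x y)
    (hinv : ∀ (g : Γ) x y, w (g • x) (g • y) = w x y)
    (htr : ∀ x y : V, ∃ g : Γ, g • x = y) (μ : ℕ) {s : ℝ} (hs : 0 ≤ s) (k : ℕ) :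
    ∀ (r : V → V → Prop) (α : ℝ), InvRel Γ r → 0 < α → (∀ x, wo w r x ≤ α / 2 ^ μ) →
      (∀ x, (cls r x).card = k) → s < k →
      (∀ T : Finset V, T.Nonempty → (T.card : ℝ) ≤ s →
        2 * (α * k ^ (μ + 14)) * T.card < B w T * s ^ (μ + 14)) →
      ∃ (r' : V → V → Prop) (α' : ℝ) (k' : ℕ), InvRel Γ r' ∧ α ≤ α' ∧
        α' * k' ^ (μ + 14) ≤ α * k ^ (μ + 14) ∧ (∀ x, (cls r' x).card = k') ∧ s < k' ∧
        (∀ x, wo w r' x ≤ α' / 2 ^ μ) ∧
        ∀ x, ∀ T ⊆ cls r' x, T.Nonempty → 2 * T.card ≤ (cls r' x).card →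
          α' * T.card < B (wi w r') T := by
  induction k using Nat.strong_induction_on with
  | _ k ih =>
  intro r α hr hα hout hk hsk hsse
  have h2μ : (1 : ℝ) ≤ 2 ^ μ := one_le_pow₀ (by norm_num)
  by_cases hin : ∀ x, ∀ T ⊆ cls r x, T.Nonempty → 2 * T.card ≤ (cls r x).card →
      α * T.card < B (wi w r) T
  · exact ⟨r, α, k, hr, le_rfl, le_rfl, hk, hsk, hout, hin⟩
  · push Not at hin
    obtain ⟨x, S, hSx, hS, hS2, hBS⟩ := hin
    have hs0 : (0 : ℝ) < S.card := by exact_mod_cast hS.card_pos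
    have hout1 : ∀ x, wo w r x ≤ α := fun x => (hout x).trans (div_le_self hα.le h2μ)
    rw [hk x] at hS2
    have hS2' : 2 * (S.card : ℝ) ≤ k := by exact_mod_cast hS2
    have hk0 : (0 : ℝ) < k := by linarith
    -- the inner weight of small sets
    have hinner : ∀ T : Finset V, T.Nonempty → (T.card : ℝ) ≤ s →
        (2 * (α * k ^ (μ + 14)) - α * s ^ (μ + 14)) * T.card < B (wi w r) T * s ^ (μ + 14) := by
      intro T hT hTs
      have e1 := hsse T hT hTs
      have e2 := B_le_wi hw r hout1 T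
      have e3 := mul_le_mul_of_nonneg_right e2 (by positivity : 0 ≤ s ^ (μ + 14))
      linarith
    have hsS : s < S.card := by
      by_contra hcon
      push Not at hcon
      have e0 : 0 < s := by linarith
      have e1 := hinner S hS hcon
      have e2 : s ^ (μ + 14) ≤ (k : ℝ) ^ (μ + 14) := pow_le_pow_left₀ hs hsk.le _
      have e3 : α * S.card * s ^ (μ + 14) ≤ (2 * (α * k ^ (μ + 14)) - α * s ^ (μ + 14)) * S.card := by
        have f1 : α * S.card * s ^ (μ + 14) ≤ α * S.card * k ^ (μ + 14) :=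
          mul_le_mul_of_nonneg_left e2 (by positivity)
        linarith
      have e4 := mul_le_mul_of_nonneg_right hBS (by positivity : 0 ≤ s ^ (μ + 14))
      linarith
    -- the hypothesis of the refinement
    have hsse' : ∀ T : Finset V, T.Nonempty → (T.card : ℝ) ≤ s →
        165 * α * (k : ℝ) ^ 4 * T.card < B (wi w r) T * s ^ 4 := by
      intro T hT hTs
      have hT0 : (0 : ℝ) < T.card := by exact_mod_cast hT.card_pos
      have e0 : 0 < s := by linarith
      have e1 := hinner T hT hTs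
      have e2 : 2 * s ≤ k := by linarith
      have e3 : (2 * s) ^ (μ + 10) ≤ (k : ℝ) ^ (μ + 10) := pow_le_pow_left₀ (by positivity) e2 _
      have e4 : 1024 * s ^ (μ + 10) ≤ (k : ℝ) ^ (μ + 10) := by
        refine le_trans ?_ e3
        rw [mul_pow]
        apply mul_le_mul_of_nonneg_right _ (by positivity)
        calc (1024 : ℝ) = 2 ^ 10 := by norm_num
          _ ≤ 2 ^ (μ + 10) := pow_le_pow_right₀ (by norm_num) (by omega)
      have e5 : (s : ℝ) ^ 4 ≤ (k : ℝ) ^ 4 := pow_le_pow_left₀ hs hsk.le _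
      have e6 : (165 * α * (k : ℝ) ^ 4 * T.card) * s ^ (μ + 10)
          ≤ (2 * (α * k ^ (μ + 14)) - α * s ^ (μ + 14)) * T.card := by
        have f1 : (k : ℝ) ^ (μ + 14) = k ^ (μ + 10) * k ^ 4 := by
          rw [← pow_add]
        have f2 : (s : ℝ) ^ (μ + 14) = s ^ (μ + 10) * s ^ 4 := by
          rw [← pow_add]
        rw [f1, f2]
        have f3 : α * (1024 * s ^ (μ + 10) * k ^ 4) * T.card ≤ α * (k ^ (μ + 10) * k ^ 4) * T.card := by
          apply mul_le_mul_of_nonneg_right _ hT0.le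
          apply mul_le_mul_of_nonneg_left _ hα.le
          exact mul_le_mul_of_nonneg_right e4 (by positivity)
        have f4 : α * (s ^ (μ + 10) * s ^ 4) * T.card ≤ α * (s ^ (μ + 10) * k ^ 4) * T.card := by
          apply mul_le_mul_of_nonneg_right _ hT0.le
          apply mul_le_mul_of_nonneg_left _ hα.le
          exact mul_le_mul_of_nonneg_left e5 (by positivity)
        have f5 : 0 ≤ α * (s ^ (μ + 10) * k ^ 4) * T.card := by positivity
        linarith
      have e7 : (165 * α * (k : ℝ) ^ 4 * T.card) * s ^ (μ + 10)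
          < (B (wi w r) T * s ^ 4) * s ^ (μ + 10) := by
        refine lt_of_le_of_lt e6 (lt_of_lt_of_le e1 (le_of_eq ?_))
        have : (s : ℝ) ^ (μ + 14) = s ^ 4 * s ^ (μ + 10) := by
          rw [← pow_add]
          congr 1
          omega
        rw [this]
        ring
      exact lt_of_mul_lt_mul_right e7 (by positivity)
    obtain ⟨r', h1, h3, h4, h5, h6⟩ := refine_poly (wi_nonneg hw r) (hr.wi_inv hinv) htr hr
      (K := k) (fun x => by rw [hk x]) hα.le hs hsse' S.card S x rfl hS hSx hsS hS2' (by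
        have e1 : (2 * (S.card : ℝ)) ^ 4 ≤ (k : ℝ) ^ 4 := pow_le_pow_left₀ (by positivity) hS2' 4
        have e2 : B (wi w r) S * (2 * (S.card : ℝ)) ^ 4 ≤ B (wi w r) S * (k : ℝ) ^ 4 :=
          mul_le_mul_of_nonneg_left e1 (B_nonneg (wi_nonneg hw r) S)
        have e3 := mul_le_mul_of_nonneg_right hBS (by positivity : (0 : ℝ) ≤ (k : ℝ) ^ 4)
        linarith)
    set k' := (cls r' x).card with hk'
    have hk'' : ∀ y, (cls r' y).card = k' := fun y => h1.card_cls htr y x
    have hk'0 : 0 < k' := card_pos.2 ⟨x, (mem_cls r' x x).2 (h1.eqv.refl x)⟩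
    have hk'0' : (0 : ℝ) < k' := by exact_mod_cast hk'0
    have hkk : 2 * k' ≤ k := by
      have := h5 x
      rw [hk x] at this
      exact this
    have hkk' : 2 * (k' : ℝ) ≤ k := by exact_mod_cast hkk
    -- the new constant
    set α' : ℝ := 2 ^ μ * (665 * α * (k : ℝ) ^ 4 / (k' : ℝ) ^ 4) with hα'
    have hq : 1 ≤ (k : ℝ) ^ 4 / (k' : ℝ) ^ 4 := by
      rw [le_div_iff₀ (by positivity), one_mul]
      exact pow_le_pow_left₀ hk'0'.le (by linarith) 4
    have hαα' : α ≤ α' := by
      have e1 : α * 1 ≤ α * ((k : ℝ) ^ 4 / (k' : ℝ) ^ 4) := mul_le_mul_of_nonneg_left hq hα.le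
      have e2 : 665 * α * (k : ℝ) ^ 4 / (k' : ℝ) ^ 4 = 665 * (α * ((k : ℝ) ^ 4 / (k' : ℝ) ^ 4)) := by
        ring
      rw [hα', e2]
      nlinarith
    have hmono : α' * (k' : ℝ) ^ (μ + 14) ≤ α * (k : ℝ) ^ (μ + 14) := by
      have e1 : (2 * (k' : ℝ)) ^ (μ + 10) ≤ (k : ℝ) ^ (μ + 10) :=
        pow_le_pow_left₀ (by positivity) hkk' _
      have e2 : α' * (k' : ℝ) ^ (μ + 14) = 2 ^ μ * (665 * α * (k : ℝ) ^ 4) * k' ^ (μ + 10) := by
        have : (k' : ℝ) ^ (μ + 14) = k' ^ 4 * k' ^ (μ + 10) := by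
          rw [← pow_add]
          congr 1
          omega
        rw [hα', this]
        field_simp
      have e3 : (2 : ℝ) ^ μ * 1024 * k' ^ (μ + 10) = (2 * (k' : ℝ)) ^ (μ + 10) := by
        rw [mul_pow, pow_add 2 μ 10]
        norm_num
      have e4 : (k : ℝ) ^ (μ + 14) = k ^ 4 * k ^ (μ + 10) := by
        rw [← pow_add]
        congr 1
        omega
      rw [e2, e4]
      have e5 : α * (k : ℝ) ^ 4 * (2 ^ μ * 1024 * k' ^ (μ + 10)) ≤ α * (k : ℝ) ^ 4 * k ^ (μ + 10) := by
        rw [e3]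
        exact mul_le_mul_of_nonneg_left e1 (by positivity)
      have e6 : 0 ≤ α * (k : ℝ) ^ 4 * (2 ^ μ * k' ^ (μ + 10)) := by positivity
      linarith
    obtain ⟨r'', α'', k'', g1, g2, g3, g4, g5, g6, g7⟩ := ih k' (by omega) r' α' h1
      (lt_of_lt_of_le hα hαα') (by
        intro y
        have e1 : α' / 2 ^ μ = 665 * α * (k : ℝ) ^ 4 / (k' : ℝ) ^ 4 := by
          rw [hα']
          field_simp
        rw [e1, wo_le_of_refine h3, le_div_iff₀ (by positivity), add_mul]
        have e2 := h4 y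
        rw [hk'' y] at e2
        have e3 : wo w r y * (k' : ℝ) ^ 4 ≤ α * (k : ℝ) ^ 4 := by
          apply mul_le_mul (hout1 y) _ (by positivity) hα.le
          exact pow_le_pow_left₀ hk'0'.le (by linarith) 4
        linarith) hk'' (by
        have := h6 x
        exact this) (by
        intro T hT hTs
        have hT0 : (0 : ℝ) < T.card := by exact_mod_cast hT.card_pos
        have e1 := hsse T hT hTs
        have e2 : 2 * (α' * (k' : ℝ) ^ (μ + 14)) * T.card ≤ 2 * (α * (k : ℝ) ^ (μ + 14)) * T.card :=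
          mul_le_mul_of_nonneg_right (by linarith) hT0.le
        linarith)
    exact ⟨r'', α'', k'', g1, hαα'.trans g2, g3.trans hmono, g4, g5, g6, g7⟩

end

section
variable {V : Type} [Fintype V] [DecidableEq V] (G : SimpleGraph V) [DecidableRel G.Adj]
variable {Γ : Type} [Group Γ] [Fintype Γ] [DecidableEq Γ] [MulAction Γ V]

/-- decomposition of graphs -/
theorem graph_decomposition {d : ℕ} (hd1 : 1 ≤ d)
    (hadj : ∀ (g : Γ) x y, G.Adj (g • x) (g • y) ↔ G.Adj x y)
    (htr : ∀ x y : V, ∃ g : Γ, g • x = y) (μ : ℕ) {a₀ s : ℝ} (ha : 0 < a₀) (hs : 0 ≤ s)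
    (hsn : s < Fintype.card V)
    (hsse : ∀ T : Finset V, T.Nonempty → (T.card : ℝ) ≤ s →
      2 * (a₀ * d * Fintype.card V ^ (μ + 14)) * T.card < B (wt G) T * s ^ (μ + 14)) :
    ∃ (r : V → V → Prop) (a : ℝ), InvRel Γ r ∧ a₀ ≤ a ∧
      (∀ x, a * (cls r x).card ^ (μ + 14) ≤ a₀ * Fintype.card V ^ (μ + 14)) ∧
      (∀ x, s < (cls r x).card) ∧ (∀ x, wo (wt G) r x ≤ a / 2 ^ μ * d) ∧
      ∀ x, ∀ T ⊆ cls r x, T.Nonempty → 2 * T.card ≤ (cls r x).card →
        a * d * T.card < B (wi (wt G) r) T := by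
  have hd0 : (0 : ℝ) < d := by
    have : 0 < d := hd1
    exact_mod_cast this
  have hcls : ∀ x : V, cls (fun _ _ => True) x = univ := by
    intro x
    ext y
    rw [mem_cls]
    simp
  obtain ⟨r, α, k, h1, h2, h3, h4, h5, h6, h7⟩ := decomposition (Γ := Γ) (wt_nonneg G)
    (wt_inv G hadj) htr μ hs (Fintype.card V) (fun _ _ => True) (a₀ * d)
    ⟨⟨fun _ => trivial, fun _ => trivial, fun _ _ => trivial⟩, fun _ _ _ _ => trivial⟩
    (by positivity) (by
      intro x
      unfold wo
      simp only [if_true, Finset.sum_const_zero]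
      positivity) (by
      intro x
      rw [hcls, card_univ]) hsn hsse
  refine ⟨r, α / d, h1, ?_, ?_, ?_, ?_, ?_⟩
  · rw [le_div_iff₀ hd0]
    exact h2
  · intro x
    rw [h4 x, div_mul_eq_mul_div, div_le_iff₀ hd0]
    linarith
  · intro x
    rw [h4 x]
    exact h5
  · intro x
    refine (h6 x).trans (le_of_eq ?_)
    field_simp
  · intro x T hT1 hT2 hT3
    have := h7 x T hT1 hT2 hT3
    have e1 : α / d * d * T.card = α * T.card := by field_simp
    rw [e1]
    exact this

end

end Pool.Agent.H32.VT
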