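import Pool.Agent.H32.VT.Chain
import Pool.Agent.H32.VT.Parts
import Mathlib.Analysis.SpecialFunctions.Log.Base

/-!
# The isoperimetric profile of vertex-transitive graphs
-/

set_option autoImplicit false
set_option linter.unusedSectionVars false

namespace Pool.Agent.H32.VT

open Finset

section
variable {V : Type} [Fintype V] [DecidableEq V] {Γ : Type} [Group Γ] [Fintype Γ] [DecidableEq Γ]
  [MulAction Γ V]

lemma sep_lt_of_mem {S : Finset V} {g : Γ} {x y : V} (hx : x ∈ tr g S) (hy : y ∈ tr g S) :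
    sep Γ S x y < am Γ S x := by
  rw [sep_eq]
  have h1 := Finset.single_le_sum (f := fun g : Γ => ind (tr g S) x * ind (tr g S) y)
    (fun h _ => mul_nonneg (ind_nonneg _ _) (ind_nonneg _ _)) (mem_univ g)
  rw [ind_mem hx, ind_mem hy] at h1
  linarith

/-- **Small sets or blocks.** -/
theorem profile {w : V → V → ℝ} (hw : ∀ x y, 0 ≤ w x y)
    (hinv : ∀ (g : Γ) x y, w (g • x) (g • y) = w x y)
    (htr : ∀ x y : V, ∃ g : Γ, g • x = y) {S : Finset V} (hne : S.Nonempty) {t : ℝ}
    (ht : 0 < t) (htS : t ≤ S.card) :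
    (∃ T : Finset V, T.Nonempty ∧ (∀ x ∈ T, ∀ y ∈ T, sep Γ S x y < am Γ S x) ∧
      (T.card : ℝ) ≤ t ∧ t * B w T ≤ 330 * B w S * T.card) ∨
    ∃ r', InvRel Γ r' ∧ (∀ y z, r' y z → 2 * sep Γ S y z < am Γ S y) ∧
      (∀ y, t * wo w r' y ≤ 83 * B w S) ∧ (∀ y, (cls r' y).card < 2 * S.card) ∧
      (∀ y, t < (cls r' y).card) := by
  have hs0 : (0 : ℝ) < S.card := by exact_mod_cast hne.card_pos
  have hB0 := B_nonneg hw S
  set β : ℝ := B w S / S.card with hβ
  have hβ0 : 0 ≤ β := div_nonneg hB0 hs0.le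
  have hβS : β * S.card = B w S := by
    rw [hβ]
    field_simp
  set m := ⌈164 * (S.card / t)⌉₊ with hm
  have hm1 : 164 * (S.card / t) ≤ m := Nat.le_ceil _
  have hm2 : (m : ℝ) < 164 * (S.card / t) + 1 := Nat.ceil_lt_add_one (by positivity)
  have hm3 : (m : ℝ) * t ≤ 165 * S.card := by
    have e1 : (m : ℝ) * t ≤ (164 * (S.card / t) + 1) * t := mul_le_mul_of_nonneg_right hm2.le ht.le
    have e2 : (164 * (S.card / t) + 1) * t = 164 * S.card + t := by field_simp
    linarith
  have hm4 : 164 * (S.card : ℝ) ≤ m * t := by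
    have e1 := mul_le_mul_of_nonneg_right hm1 ht.le
    have e2 : 164 * (S.card / t) * t = 164 * (S.card : ℝ) := by field_simp
    linarith
  have hm5 : 164 ≤ m := by
    have e1 : (164 : ℝ) * S.card ≤ m * S.card :=
      hm4.trans (mul_le_mul_of_nonneg_left htS (Nat.cast_nonneg m))
    have e2 := le_of_mul_le_mul_right e1 hs0
    exact_mod_cast e2
  have hm0 : 0 < m := by omega
  have hm0' : (0 : ℝ) < m := by exact_mod_cast hm0
  by_cases hA : ∀ x, ∀ i : ℕ, 2 * i < m → ((ball Γ S (((i : ℝ) + 1) / m) x).card : ℝ)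
      ≤ 20 * (((i : ℝ) + 1) / m) * S.card
  · left
    obtain ⟨f, h1, h2, h3⟩ := tuple_sets hw hinv htr S hne m (164 * S.card / m) (by positivity) (by
      intro x
      refine (sum_pow_le htr S hne m hm0 x (hA x)).trans (le_of_eq ?_)
      ring)
    refine ⟨inter S f, h1, ?_, ?_, ?_⟩
    · intro x hx y hy
      exact sep_lt_of_mem ((mem_inter' S f x).1 hx ⟨0, hm0⟩) ((mem_inter' S f y).1 hy ⟨0, hm0⟩)
    · refine h2.trans ?_
      rw [div_le_iff₀ hm0']
      linarith
    · have e1 := mul_le_mul_of_nonneg_left h3 ht.le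
      have e2 : ((m : ℝ) * t) * (2 * β * (inter S f).card)
          ≤ (165 * S.card) * (2 * β * (inter S f).card) :=
        mul_le_mul_of_nonneg_right hm3 (by positivity)
      have e3 : (165 * (S.card : ℝ)) * (2 * β * (inter S f).card)
          = 330 * B w S * (inter S f).card := by
        rw [← hβS]
        ring
      linarith
  · push Not at hA
    obtain ⟨x1, i, hi, hb⟩ := hA
    set ρ : ℝ := ((i : ℝ) + 1) / m with hρ
    have hρ0 : 0 < ρ := by positivity
    have hρ1 : ρ ≤ 5 / 8 := by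
      rw [hρ, div_le_iff₀ hm0']
      have e1 : 2 * (i : ℝ) + 1 ≤ m := by exact_mod_cast hi
      have e2 : (164 : ℝ) ≤ m := by exact_mod_cast hm5
      linarith
    have hρm : 1 ≤ ρ * m := by
      rw [hρ, div_mul_cancel₀ _ hm0'.ne']
      have : (0 : ℝ) ≤ i := Nat.cast_nonneg i
      linarith
    have hρt : t ≤ 165 * ρ * S.card := by
      have e1 : t * 1 ≤ t * (ρ * m) := mul_le_mul_of_nonneg_left hρm ht.le
      have e2 : ρ * (m * t) ≤ ρ * (165 * S.card) := mul_le_mul_of_nonneg_left hm3 hρ0.le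
      linarith
    obtain ⟨r', g1, g2, g3, g4⟩ := chain_step hw hinv htr hne hρ0 hρ1 hb
    have g6 : ∀ y, t * wo w r' y ≤ 83 * B w S := by
      intro y
      have e1 := wo_nonneg hw r' y
      have e2 := mul_le_mul_of_nonneg_right hρt e1
      have e3 := mul_le_mul_of_nonneg_right (g3 y) hs0.le
      rw [hβS] at e3
      linarith
    by_cases hsize : ∀ y, t < (cls r' y).card
    · right
      refine ⟨r', g1, g2, g6, ?_, hsize⟩
      intro y
      have ha := am_pos htr hne y
      have h1 := sum_am_sub_sep (Γ := Γ) S y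
      have h2 : ∑ z ∈ cls r' y, (am Γ S y - sep Γ S y z) ≤ ∑ z, (am Γ S y - sep Γ S y z) := by
        apply Finset.sum_le_sum_of_subset_of_nonneg (subset_univ _)
        intro z _ _
        linarith [sep_le (Γ := Γ) S y z]
      have h3 : ∑ z ∈ cls r' y, am Γ S y / 2 < ∑ z ∈ cls r' y, (am Γ S y - sep Γ S y z) := by
        apply Finset.sum_lt_sum_of_nonempty ⟨y, (mem_cls r' y y).2 (g1.eqv.refl y)⟩
        intro z hz
        have := g2 y z ((mem_cls r' y z).1 hz)
        linarith
      rw [Finset.sum_const, nsmul_eq_mul] at h3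
      rw [h1] at h2
      have h4 : am Γ S y * ((cls r' y).card : ℝ) < am Γ S y * (2 * S.card) := by linarith
      have h5 := lt_of_mul_lt_mul_left h4 ha.le
      exact_mod_cast h5
    · left
      push Not at hsize
      obtain ⟨y, hy⟩ := hsize
      refine ⟨cls r' y, ⟨y, (mem_cls r' y y).2 (g1.eqv.refl y)⟩, ?_, hy, ?_⟩
      · intro a ha b hb
        have e1 := g2 a b (g1.eqv.trans (g1.eqv.symm ((mem_cls r' y a).1 ha))
          ((mem_cls r' y b).1 hb))
        have e2 := sep_nonneg (Γ := Γ) S a b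
        linarith
      · have e1 := B_cls (w := w) g1.eqv (β := 83 * B w S / t) (by
          intro z
          rw [le_div_iff₀ ht]
          linarith [g6 z]) y
        have e2 := mul_le_mul_of_nonneg_left e1 ht.le
        have e3 : t * (83 * B w S / t * ((cls r' y).card : ℝ)) = 83 * B w S * (cls r' y).card := by
          field_simp
        have e4 : 0 ≤ B w S * ((cls r' y).card : ℝ) := by positivity
        linarith

/-- adding translates of `S` to a set -/
theorem fill {w : V → V → ℝ} (hw : ∀ x y, 0 ≤ w x y)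
    (hinv : ∀ (g : Γ) x y, w (g • x) (g • y) = w x y)
    (htr : ∀ x y : V, ∃ g : Γ, g • x = y)
    (S : Finset V) (hS : S.Nonempty) (m : ℕ) (hm : m ≤ Fintype.card V) (U0 : Finset V)
    (hU0 : U0.card ≤ m) :
    ∃ U : Finset V, U.card ≤ m ∧ m < U.card + S.card ∧
      B w U ≤ B w U0 + B w S / S.card * (U.card - U0.card) := by
  have hs0 : (0 : ℝ) < S.card := by exact_mod_cast hS.card_pos
  have hB0 := B_nonneg hw S
  set β : ℝ := B w S / S.card with hβ
  have hβ0 : 0 ≤ β := div_nonneg hB0 hs0.le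
  have hβS : β * S.card = B w S := by
    rw [hβ]
    field_simp
  classical
  -- a largest good set
  obtain ⟨U, hU, hmax⟩ := Finset.exists_max_image
    (univ.filter fun U : Finset V => U.card ≤ m ∧ B w U ≤ B w U0 + β * (U.card - U0.card))
    Finset.card ⟨U0, by simp [hU0]⟩
  rw [mem_filter] at hU
  obtain ⟨_, hUm, hUB⟩ := hU
  refine ⟨U, hUm, ?_, hUB⟩
  by_contra hcon
  push Not at hcon
  have hUn : U.card < Fintype.card V := by
    have := hS.card_pos
    omega
  have hUn' : (0 : ℝ) < Fintype.card V - U.card := by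
    have : (U.card : ℝ) < Fintype.card V := by exact_mod_cast hUn
    linarith
  have hΓ : (0 : ℝ) < Fintype.card Γ := by
    have : 0 < Fintype.card Γ := Fintype.card_pos
    exact_mod_cast this
  have hn : (0 : ℝ) < Fintype.card V := by
    have : 0 < Fintype.card V := by omega
    exact_mod_cast this
  have hcU : ∑ y, (1 - ind U y) = (Fintype.card V : ℝ) - U.card := by
    rw [Finset.sum_sub_distrib, sum_ind]
    simp
  -- sums over the group
  have h1 := avg htr (bd w S) (fun x => 1 - ind U x)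
  have h2 := avg htr (ind S) (fun x => 1 - ind U x)
  rw [hcU, sum_bd] at h1
  rw [hcU, sum_ind] at h2
  have hex : ∃ g : Γ, (0 : ℝ) < (tr g S \ U).card ∧
      ∑ x, bd w S x * (1 - ind U (g • x)) ≤ β * (tr g S \ U).card := by
    by_contra hno
    push Not at hno
    have h3 : ∀ g : Γ, 0 ≤ ∑ x, bd w S x * (1 - ind U (g • x)) - β * (tr g S \ U).card := by
      intro g
      rcases (Nat.cast_nonneg (tr g S \ U).card : (0 : ℝ) ≤ _).lt_or_eq with h | h
      · linarith [hno g h]
      · rw [← h, mul_zero, sub_zero]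
        apply Finset.sum_nonneg
        intro x _
        apply mul_nonneg
        · unfold bd
          apply Finset.sum_nonneg
          intro y _
          exact mul_nonneg (hw x y) (mul_nonneg (ind_nonneg S x) (by
            linarith [ind_le_one S y]))
        · linarith [ind_le_one U (g • x)]
    have h4 : ∑ g : Γ, (∑ x, bd w S x * (1 - ind U (g • x)) - β * (tr g S \ U).card) = 0 := by
      rw [Finset.sum_sub_distrib, ← Finset.mul_sum]
      simp only [← card_sdiff_eq]
      have h5 : (Fintype.card V : ℝ) * (∑ g : Γ, ∑ x, bd w S x * (1 - ind U (g • x))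
          - β * ∑ g : Γ, ∑ x, ind S x * (1 - ind U (g • x))) = 0 := by
        have h5' : (Fintype.card V : ℝ) * (β * ∑ g : Γ, ∑ x, ind S x * (1 - ind U (g • x)))
          = β * (Fintype.card V * ∑ g : Γ, ∑ x, ind S x * (1 - ind U (g • x))) := by ring
        rw [mul_sub, h1, h5', h2, ← hβS]
        ring
      rcases mul_eq_zero.1 h5 with h | h
      · exact absurd h hn.ne'
      · exact h
    rw [Finset.sum_eq_zero_iff_of_nonneg (fun g _ => h3 g)] at h4
    have h6 : ∀ g : Γ, ((tr g S \ U).card : ℝ) = 0 := by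
      intro g
      rcases (Nat.cast_nonneg (tr g S \ U).card : (0 : ℝ) ≤ _).lt_or_eq with h | h
      · have := hno g h
        have := h4 g (mem_univ g)
        linarith
      · exact h.symm
    simp only [card_sdiff_eq, h6, Finset.sum_const_zero, mul_zero] at h2
    have : (0 : ℝ) < Fintype.card Γ * (S.card * (Fintype.card V - U.card)) := by positivity
    linarith
  obtain ⟨g, hg1, hg2⟩ := hex
  have h7 : (U ∪ tr g S).card = U.card + (tr g S \ U).card := by
    rw [← card_union_of_disjoint disjoint_sdiff, union_sdiff_self_eq_union]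
  have h8 : (tr g S).card = S.card := by
    have := card_tr g S
    exact_mod_cast this
  have h9 : (tr g S \ U).card ≤ S.card := h8 ▸ card_le_card sdiff_subset
  have h10 := hmax (U ∪ tr g S) (by
    rw [mem_filter]
    refine ⟨mem_univ _, by omega, ?_⟩
    refine (B_union_le hw U (tr g S)).trans ?_
    rw [new_bd hinv g S (fun x => 1 - ind U x), h7]
    push_cast
    linarith)
  rw [h7] at h10
  have h11 : 0 < (tr g S \ U).card := by exact_mod_cast hg1
  omega

/-- small sets of small expansion of all scales give sets of every exact size -/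
theorem fill_scales {w : V → V → ℝ} (hw : ∀ x y, 0 ≤ w x y)
    (hinv : ∀ (g : Γ) x y, w (g • x) (g • y) = w x y)
    (htr : ∀ x y : V, ∃ g : Γ, g • x = y) {D : ℝ} (hD0 : 0 ≤ D) (hD : ∀ x, ∑ y, w x y ≤ D)
    {δ q : ℝ} (hδ : 0 < δ) (J : ℕ)
    (h : ∀ i : ℕ, 1 ≤ i → i ≤ J → ∃ T : Finset V, T.Nonempty ∧
      (T.card : ℝ) ≤ δ * (1 / 2) ^ i * Fintype.card V ∧ δ * (1 / 2) ^ i * B w T ≤ q * T.card)
    (k : ℕ) (hk : δ * Fintype.card V ≤ k) (hkn : k ≤ Fintype.card V) :
    ∃ U : Finset V, U.card = k ∧ B w U ≤ J * (2 * q / δ) * k + D * ((1 / 2) ^ J * k) := by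
  have hk0 : (0 : ℝ) ≤ k := Nat.cast_nonneg k
  have hmain : ∀ j ≤ J, ∃ U : Finset V, U.card ≤ k ∧ (k : ℝ) - U.card ≤ (1 / 2) ^ j * k ∧
      B w U ≤ j * (2 * q / δ) * k := by
    intro j
    induction j with
    | zero =>
      intro _
      exact ⟨∅, by simp, by simp, by simp [B_empty]⟩
    | succ j ih =>
      intro hj
      obtain ⟨U, hU1, hU2, hU3⟩ := ih (by omega)
      obtain ⟨T, hT1, hT2, hT3⟩ := h (j + 1) (by omega) hj
      obtain ⟨U', e1, e2, e3⟩ := fill hw hinv htr T hT1 k hkn U hU1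
      have hT0 : (0 : ℝ) < T.card := by exact_mod_cast hT1.card_pos
      have e4 : (k : ℝ) + 1 ≤ U'.card + T.card := by exact_mod_cast e2
      have e5 : (U'.card : ℝ) ≤ k := by exact_mod_cast e1
      have hp : (0 : ℝ) < (1 / 2) ^ j := by positivity
      have hp2 : (1 / 2 : ℝ) ^ j * 2 ^ j = 1 := by
        rw [← mul_pow]
        norm_num
      refine ⟨U', e1, ?_, ?_⟩
      · have : δ * (1 / 2) ^ (j + 1) * Fintype.card V ≤ (1 / 2) ^ (j + 1) * k := by
          have := mul_le_mul_of_nonneg_left hk (by positivity : (0 : ℝ) ≤ (1 / 2) ^ (j + 1))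
          linarith
        linarith
      · have f1 : B w T / T.card ≤ 2 * q / δ * 2 ^ j := by
          rw [div_le_iff₀ hT0]
          have g1 : δ * (1 / 2) ^ (j + 1) * B w T ≤ q * T.card := hT3
          have g2 : (0 : ℝ) < δ * (1 / 2) ^ (j + 1) := by positivity
          have g3 : δ * (1 / 2) ^ (j + 1) * (2 * q / δ * 2 ^ j * T.card) = q * T.card := by
            have g4 : δ * (2 * q / δ) = 2 * q := by field_simp
            calc δ * (1 / 2) ^ (j + 1) * (2 * q / δ * 2 ^ j * T.card)
                = (δ * (2 * q / δ)) * ((1 / 2) ^ j * 2 ^ j) * (1 / 2) * T.card := by ring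
              _ = _ := by
                rw [g4, hp2]
                ring
          rw [← g3] at g1
          exact le_of_mul_le_mul_left g1 g2
        have f0 : 0 ≤ B w T / T.card := div_nonneg (B_nonneg hw T) hT0.le
        have f2 : B w T / T.card * ((U'.card : ℝ) - U.card) ≤ B w T / T.card * ((k : ℝ) - U.card) :=
          mul_le_mul_of_nonneg_left (by linarith) f0
        have f3 : B w T / T.card * ((k : ℝ) - U.card) ≤ B w T / T.card * ((1 / 2) ^ j * k) :=
          mul_le_mul_of_nonneg_left hU2 f0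
        have f4 : B w T / T.card * ((1 / 2) ^ j * k) ≤ 2 * q / δ * 2 ^ j * ((1 / 2) ^ j * k) :=
          mul_le_mul_of_nonneg_right f1 (by positivity)
        have f5 : 2 * q / δ * 2 ^ j * ((1 / 2) ^ j * (k : ℝ)) = 2 * q / δ * k := by
          linear_combination (2 * q / δ * k) * hp2
        push_cast
        linarith
  obtain ⟨U, h1, h2, h3⟩ := hmain J le_rfl
  obtain ⟨T, hUT, hT⟩ := Finset.exists_superset_card_eq h1 hkn
  refine ⟨T, hT, ?_⟩
  refine (B_superset_le hw hD hUT).trans ?_
  rw [hT]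
  have := mul_le_mul_of_nonneg_left h2 hD0
  linarith

end

section
variable {V : Type} [Fintype V] [DecidableEq V] (G : SimpleGraph V) [DecidableRel G.Adj]
variable {Γ : Type} [Group Γ] [Fintype Γ] [DecidableEq Γ] [MulAction Γ V]

/-- small sets or blocks in graphs -/
theorem graph_profile (hadj : ∀ (g : Γ) x y, G.Adj (g • x) (g • y) ↔ G.Adj x y)
    (htr : ∀ x y : V, ∃ g : Γ, g • x = y) (S : Finset V) (hS : S.Nonempty) {t : ℝ}
    (ht : 0 < t) (htS : t ≤ S.card) :
    (∃ T : Finset V, T.Nonempty ∧ (T.card : ℝ) ≤ t ∧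
      t * cut G T ≤ 330 * cut G S * T.card) ∨
    ∃ r, InvRel Γ r ∧ (∀ x, (cls r x).card < 2 * S.card) ∧ (∀ x, t < (cls r x).card) ∧
      ∀ x, t * wo (wt G) r x ≤ 83 * cut G S := by
  rcases profile (Γ := Γ) (wt_nonneg G) (wt_inv G hadj) htr hS ht htS with
    ⟨T, h1, _, h3, h4⟩ | ⟨r, h1, _, h3, h4, h5⟩
  · left
    rw [B_wt, B_wt] at h4
    exact ⟨T, h1, h3, h4⟩
  · right
    rw [B_wt] at h3
    exact ⟨r, h1, h4, h5, h3⟩

/-- the number of scales -/
lemma exists_scales {η : ℝ} (hη : 0 < η) (hη1 : η ≤ 1) : ∃ J : ℕ, (1 / 2 : ℝ) ^ J ≤ η / 2 ∧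
    (2 : ℝ) ^ J < 4 / η ∧ (J : ℝ) ≤ Real.logb 2 (4 / η) := by
  have h2 : (1 : ℝ) ≤ 2 / η := by
    rw [le_div_iff₀ hη]
    linarith
  have h0 : 0 ≤ Real.logb 2 (2 / η) := Real.logb_nonneg (by norm_num) h2
  have hlog : Real.logb 2 (4 / η) = Real.logb 2 (2 / η) + 1 := by
    have : (4 : ℝ) / η = 2 / η * 2 := by ring
    rw [this, Real.logb_mul (by positivity) (by norm_num), Real.logb_self_eq_one (by norm_num)]
  set J := ⌈Real.logb 2 (2 / η)⌉₊ with hJ
  have h3 : Real.logb 2 (2 / η) ≤ J := Nat.le_ceil _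
  have h4 : (J : ℝ) < Real.logb 2 (2 / η) + 1 := Nat.ceil_lt_add_one h0
  refine ⟨J, ?_, ?_, ?_⟩
  · rw [Real.logb_le_iff_le_rpow (by norm_num) (by positivity), Real.rpow_natCast] at h3
    have h5 : (0 : ℝ) < 2 ^ J := by positivity
    rw [one_div, inv_pow, inv_le_comm₀ h5 (by positivity)]
    refine le_trans (le_of_eq ?_) h3
    field_simp
  · rw [← hlog, Real.lt_logb_iff_rpow_lt (by norm_num) (by positivity), Real.rpow_natCast] at h4
    exact h4
  · rw [hlog]
    exact h4.le

/-- sparse sets of all scales or few blocks -/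
theorem graph_all_scales {d : ℕ} (hd : G.IsRegularOfDegree d) (hd1 : 1 ≤ d)
    (hadj : ∀ (g : Γ) x y, G.Adj (g • x) (g • y) ↔ G.Adj x y)
    (htr : ∀ x y : V, ∃ g : Γ, g • x = y) {η δ : ℝ} (hη : 0 < η) (hη1 : η ≤ 1)
    (hδ : 0 < δ) (S : Finset V) (hS : S.Nonempty)
    (hB : (cut G S : ℝ) / (d * S.card) * max ((S.card : ℝ) / Fintype.card V) δ
      ≤ η * δ / (1320 * Real.logb 2 (4 / η))) :
    (∀ k : ℕ, δ * Fintype.card V ≤ k → k ≤ Fintype.card V →
      ∃ T : Finset V, T.card = k ∧ (cut G T : ℝ) / (d * T.card) ≤ η) ∨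
    ∃ r, InvRel Γ r ∧ (∀ x, (cls r x).card < 2 * S.card) ∧
      (∀ x, η * δ * Fintype.card V < 4 * (cls r x).card) ∧
      ∀ x, wo (wt G) r x ≤ 332 * ((cut G S : ℝ) / (d * S.card) * (S.card / Fintype.card V))
        / (η * δ) * d := by
  have hs0 : (0 : ℝ) < S.card := by exact_mod_cast hS.card_pos
  have hn0 : (0 : ℝ) < Fintype.card V := by
    have : 0 < Fintype.card V := Fintype.card_pos_iff.2 ⟨hS.choose⟩
    exact_mod_cast this
  have hd0 : (0 : ℝ) < d := by
    have : 0 < d := hd1
    exact_mod_cast this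
  set φ : ℝ := (cut G S : ℝ) / (d * S.card) with hφ
  set M : ℝ := max ((S.card : ℝ) / Fintype.card V) δ with hM
  have hφ0 : 0 ≤ φ := by positivity
  have hM1 : (S.card : ℝ) / Fintype.card V ≤ M := le_max_left _ _
  have hM2 : δ ≤ M := le_max_right _ _
  have hM0 : 0 < M := lt_of_lt_of_le hδ hM2
  have hcut : (cut G S : ℝ) = φ * d * S.card := by
    rw [hφ]
    field_simp
  clear_value M φ
  obtain ⟨J, hJ1, hJ2, hJ3⟩ := exists_scales hη hη1
  have hlog : 0 < Real.logb 2 (4 / η) := Real.logb_pos (by norm_num) (by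
    rw [lt_div_iff₀ hη]
    linarith)
  have hlt : ∀ i ≤ J, η * δ < 4 * (δ * (1 / 2) ^ i) := by
    intro i hi
    have e1 : (1 / 2 : ℝ) ^ J ≤ (1 / 2) ^ i := pow_le_pow_of_le_one (by norm_num) (by norm_num) hi
    have e2 : (1 / 2 : ℝ) ^ J * 2 ^ J = 1 := by
      rw [← mul_pow]
      norm_num
    have e3 : (0 : ℝ) < (1 / 2) ^ J := by positivity
    have e4 : η < 4 * (1 / 2) ^ J := by
      rw [lt_div_iff₀ hη] at hJ2
      nlinarith
    nlinarith
  by_cases hall : ∀ i : ℕ, 1 ≤ i → i ≤ J → ∃ T : Finset V, T.Nonempty ∧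
      (T.card : ℝ) ≤ δ * (1 / 2) ^ i * Fintype.card V ∧
      δ * (1 / 2) ^ i * B (wt G) T ≤ (330 * φ * d * M) * T.card
  · left
    intro k hk hkn
    obtain ⟨U, h1, h2⟩ := fill_scales (Γ := Γ) (wt_nonneg G) (wt_inv G hadj) htr hd0.le
      (fun x => (wt_sum G hd x).le) hδ J hall k hk hkn
    refine ⟨U, h1, ?_⟩
    rw [B_wt] at h2
    rcases Nat.eq_zero_or_pos k with h0 | h0
    · rw [h1, h0]
      simp [hη.le]
    · have hk0 : (0 : ℝ) < k := by exact_mod_cast h0
      rw [h1, div_le_iff₀ (by positivity)]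
      refine h2.trans ?_
      have e1 : (J : ℝ) * (660 * (φ * M) / δ) ≤ η / 2 := by
        have f1 : (J : ℝ) * (660 * (φ * M) / δ) ≤ Real.logb 2 (4 / η) * (660 * (φ * M) / δ) :=
          mul_le_mul_of_nonneg_right hJ3 (by positivity)
        rw [le_div_iff₀ (by positivity)] at hB
        have f2 : Real.logb 2 (4 / η) * (660 * (φ * M) / δ) ≤ η / 2 := by
          rw [mul_div_assoc', div_le_iff₀ hδ]
          linarith
        linarith
      have e2 : (J : ℝ) * (2 * (330 * φ * d * M) / δ) * k = J * (660 * (φ * M) / δ) * (d * k) := by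
        ring
      have e3 := mul_le_mul_of_nonneg_right e1 (by positivity : 0 ≤ (d : ℝ) * k)
      have e4 := mul_le_mul_of_nonneg_right hJ1 (by positivity : 0 ≤ (d : ℝ) * k)
      rw [e2]
      linarith
  · right
    push Not at hall
    obtain ⟨i, hi1, hi2, hi3⟩ := hall
    have hp : (0 : ℝ) < (1 / 2) ^ i := by positivity
    have hp1 : (1 / 2 : ℝ) ^ i ≤ 1 := pow_le_one₀ (by norm_num) (by norm_num)
    set τ : ℝ := δ * (1 / 2) ^ i with hτ
    have hτ0 : 0 < τ := by positivity
    have hτδ : τ ≤ δ := by nlinarith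
    have hτ2 := hlt i hi2
    set t : ℝ := τ * Fintype.card V with ht
    have ht0 : 0 < t := by positivity
    have htS : t ≤ S.card := by
      by_contra hcon
      push Not at hcon
      have h5 := hi3 S hS hcon.le
      rw [B_wt, hcut] at h5
      have e1 : 330 * φ * d * M * S.card < τ * φ * d * S.card := by linarith
      have e2 : τ * φ * d * S.card ≤ M * φ * d * S.card := by
        have : τ ≤ M := hτδ.trans hM2
        have h0 : 0 ≤ φ * d * S.card := mul_nonneg (mul_nonneg hφ0 hd0.le) hs0.le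
        nlinarith [mul_le_mul_of_nonneg_right this h0]
      have e3 : 0 ≤ M * φ * d * S.card :=
        mul_nonneg (mul_nonneg (mul_nonneg hM0.le hφ0) hd0.le) hs0.le
      linarith
    rcases graph_profile (Γ := Γ) G hadj htr S hS ht0 htS with
      ⟨T, h1, h2, h3⟩ | ⟨r, h1, h2, h3, h4⟩
    · exfalso
      have hT0 : (0 : ℝ) < T.card := by exact_mod_cast h1.card_pos
      have h5 := hi3 T h1 h2
      rw [B_wt] at h5
      have e1 : φ * d * S.card ≤ φ * d * M * Fintype.card V := by
        rw [div_le_iff₀ hn0] at hM1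
        have h0 : 0 ≤ φ * d := by positivity
        nlinarith [mul_le_mul_of_nonneg_left hM1 h0]
      rw [hcut] at h3
      have e2 : 330 * (φ * d * S.card) * T.card ≤ 330 * (φ * d * M * Fintype.card V) * T.card :=
        mul_le_mul_of_nonneg_right (by linarith) hT0.le
      have e3 : (330 * φ * d * M * T.card) * Fintype.card V
          < (τ * cut G T) * Fintype.card V := mul_lt_mul_of_pos_right h5 hn0
      rw [ht] at h3
      linarith
    · refine ⟨r, h1, h2, ?_, ?_⟩
      · intro x
        have e1 := h3 x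
        have e2 : η * δ * Fintype.card V ≤ 4 * τ * Fintype.card V :=
          mul_le_mul_of_nonneg_right hτ2.le hn0.le
        linarith
      · intro x
        have e1 := h4 x
        have e0 := wo_nonneg (wt_nonneg G) r x
        rw [hcut] at e1
        have e2 : φ * ((S.card : ℝ) / Fintype.card V) = φ * S.card / Fintype.card V := by ring
        rw [e2, div_mul_eq_mul_div, le_div_iff₀ (by positivity)]
        have e3 : 332 * (φ * S.card / Fintype.card V) * d = 332 * (φ * d * S.card) / Fintype.card V := by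
          ring
        rw [e3, le_div_iff₀ hn0]
        have e4 : wo (wt G) r x * (η * δ) * Fintype.card V
            ≤ wo (wt G) r x * (4 * τ) * Fintype.card V :=
          mul_le_mul_of_nonneg_right (mul_le_mul_of_nonneg_left hτ2.le e0) hn0.le
        rw [ht] at e1
        linarith

/-- in a connected graph the boundary of a block is at least its size -/
theorem one_le_wo (hconn : G.Connected)
    (hadj : ∀ (g : Γ) x y, G.Adj (g • x) (g • y) ↔ G.Adj x y)
    (htr : ∀ x y : V, ∃ g : Γ, g • x = y) {r : V → V → Prop} (hr : InvRel Γ r) (x : V)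
    (hx : cls r x ≠ univ) : 1 ≤ wo (wt G) r x := by
  classical
  by_contra hcon
  push Not at hcon
  have h1 : ∀ y z, G.Adj y z → r y z := by
    intro y z hyz
    by_contra h
    have e1 : wo (wt G) r y = wo (wt G) r x := by
      obtain ⟨g, rfl⟩ := htr x y
      exact hr.wo_inv (wt_inv G hadj) g x
    have e2 : 1 ≤ wo (wt G) r y := by
      unfold wo
      refine le_trans (le_of_eq ?_) (Finset.single_le_sum (s := univ) (by
          intro u _
          split_ifs
          · exact le_rfl
          · exact wt_nonneg G y u) (mem_univ z))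
      rw [if_neg h]
      unfold wt
      rw [if_pos hyz]
    linarith
  have h2 : ∀ a b (_ : G.Walk a b), r a b := by
    intro a b p
    induction p with
    | nil => exact hr.eqv.refl _
    | cons h q ih => exact hr.eqv.trans (h1 _ _ h) ih
  apply hx
  ext y
  rw [mem_cls]
  simp only [mem_univ, iff_true]
  obtain ⟨p⟩ := hconn.preconnected x y
  exact h2 x y p

end

end Pool.Agent.H32.VT
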