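import Pool.Agent.H32.VT.Circulant

/-!
# Sharpness: circulant graphs, normalised
-/

set_option autoImplicit false
set_option linter.unusedSectionVars false

namespace Pool.Agent.H32.VT

open Finset

theorem sharp {η δ : ℝ} (hη : 0 < η) (hη4 : η ≤ 1 / 4) (hδ : 0 < δ) (hδ4 : δ ≤ 1 / 4) (p : ℕ)
    (hp : 7 ≤ η * δ * p) : ∃ (V : Type) (_ : Fintype V) (_ : DecidableEq V) (G : SimpleGraph V)
      (_ : DecidableRel G.Adj) (d : ℕ), Fintype.card V = p ∧ 1 ≤ d ∧ G.IsRegularOfDegree d ∧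
      (∀ u v : V, ∃ φ : G ≃g G, φ u = v) ∧
      (∃ S : Finset V, S.Nonempty ∧ 2 * S.card ≤ Fintype.card V ∧
        (cut G S : ℝ) / (d * S.card) ≤ 5 * (η * δ)) ∧
      ∀ T : Finset V, T.Nonempty → (T.card : ℝ) ≤ δ * Fintype.card V + 1 →
        η < (cut G T : ℝ) / (d * T.card) := by
  have hηδ : η * δ ≤ 1 / 16 := by nlinarith
  have hp112 : (112 : ℝ) ≤ p := by
    have : (0 : ℝ) ≤ p := Nat.cast_nonneg p
    nlinarith
  have hp0 : 112 ≤ p := by exact_mod_cast hp112
  have : NeZero p := ⟨by omega⟩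
  -- the number `L`
  obtain ⟨L, hL1, hL2, hL3⟩ : ∃ L : ℕ, 1 ≤ L ∧ 2 * (L * η) < 1 ∧ 1 ≤ 4 * (L * η) := by
    set c := ⌈1 / (2 * η)⌉₊ with hc
    have h1 : 1 / (2 * η) ≤ c := Nat.le_ceil _
    have h2 : (c : ℝ) < 1 / (2 * η) + 1 := Nat.ceil_lt_add_one (by positivity)
    have h3 : (2 : ℝ) ≤ 1 / (2 * η) := by
      rw [le_div_iff₀ (by positivity)]
      linarith
    have h4 : 2 ≤ c := by
      have : (2 : ℝ) ≤ c := h3.trans h1
      exact_mod_cast this
    have h5 : 1 / (2 * η) * (2 * η) = 1 := by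
      field_simp
    refine ⟨c - 1, by omega, ?_, ?_⟩
    · have h6 : ((c - 1 : ℕ) : ℝ) < 1 / (2 * η) := by
        rw [Nat.cast_sub (by omega)]
        push_cast
        linarith
      have := mul_lt_mul_of_pos_right h6 (by positivity : 0 < 2 * η)
      linarith
    · have h6 : 1 / (2 * η) / 2 ≤ ((c - 1 : ℕ) : ℝ) := by
        rw [Nat.cast_sub (by omega)]
        push_cast
        linarith
      have := mul_le_mul_of_nonneg_right h6 (by positivity : 0 ≤ 2 * η)
      nlinarith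
  have hL0 : (0 : ℝ) < L := by exact_mod_cast hL1
  -- the number `m`
  obtain ⟨m, hm1, hm2⟩ : ∃ m : ℕ, δ * p ≤ L * m ∧ (L : ℝ) * m < δ * p + L := by
    refine ⟨⌈δ * p / L⌉₊, ?_, ?_⟩
    · have := Nat.le_ceil (δ * p / L)
      rw [div_le_iff₀ hL0] at this
      linarith
    · have := Nat.ceil_lt_add_one (show 0 ≤ δ * p / L by positivity)
      have h1 := mul_lt_mul_of_pos_left this hL0
      have h2 : (L : ℝ) * (δ * p / L + 1) = δ * p + L := by field_simp
      linarith
  have hδp : 0 < δ * p := by positivity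
  have hm0 : 1 ≤ m := by
    rcases Nat.eq_zero_or_pos m with h | h
    · rw [h] at hm1
      simp at hm1
      linarith
    · exact h
  have hm0' : (0 : ℝ) < m := by exact_mod_cast hm0
  have hLp : (L : ℝ) * 14 < p := by
    have e1 : 2 * (L * η) * (7 : ℝ) < 1 * (η * δ * p) := by nlinarith
    have e2 : (L * 14) * η < (δ * p) * η := by linarith
    have e3 := lt_of_mul_lt_mul_right e2 hη.le
    nlinarith
  have hLm : 2 * (L * m) < p := by
    have : (2 : ℝ) * (L * m) < p := by nlinarith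
    exact_mod_cast this
  obtain ⟨G, hdec, h1, h2, h3, h4⟩ := circulant (p := p) m L hL1 hLm
  refine ⟨ZMod p, inferInstance, inferInstance, G, hdec, 2 * m, ZMod.card p, by omega, h1, h2,
    ?_, ?_⟩
  · -- half of the points
    obtain ⟨S, hS1, hS2⟩ := h3 (p / 2) (by omega)
    refine ⟨S, card_pos.1 (by omega), by rw [hS1, ZMod.card]; omega, ?_⟩
    rw [hS1]
    have hh1 : (p : ℝ) ≤ 2 * ((p / 2 : ℕ) : ℝ) + 1 := by
      have : p ≤ 2 * (p / 2) + 1 := by omega
      exact_mod_cast this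
    set h : ℝ := ((p / 2 : ℕ) : ℝ) with hh
    have hh0 : 0 < h := by linarith
    have hcut : (cut G S : ℝ) ≤ m * (m + 1) := by exact_mod_cast hS2
    push_cast
    rw [div_le_iff₀ (by positivity)]
    have e1 : (L : ℝ) * m * η ≤ (δ * p + L) * η := mul_le_mul_of_nonneg_right hm2.le hη.le
    have e2 : (m : ℝ) ≤ 4 * (L * η) * m := by nlinarith
    have e3 : (m : ℝ) + 1 ≤ 5 * (η * δ) * (2 * h) := by
      have f1 : (m : ℝ) ≤ 4 * (η * δ * p) + 2 := by nlinarith
      have f2 : η * δ * p ≤ η * δ * (2 * h + 1) :=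
        mul_le_mul_of_nonneg_left hh1 (by positivity)
      nlinarith
    calc (cut G S : ℝ) ≤ m * (m + 1) := hcut
      _ ≤ m * (5 * (η * δ) * (2 * h)) := mul_le_mul_of_nonneg_left e3 hm0'.le
      _ = _ := by ring
  · intro T hT hTc
    rw [ZMod.card] at hTc
    have hT0 : (0 : ℝ) < T.card := by exact_mod_cast hT.card_pos
    have hTL : T.card ≤ L * m + 1 := by
      have : (T.card : ℝ) ≤ L * m + 1 := by linarith
      exact_mod_cast this
    have h5 : (m : ℝ) * T.card ≤ L * cut G T := by exact_mod_cast h4 T hTL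
    push_cast
    rw [lt_div_iff₀ (by positivity)]
    have e1 : L * (η * (2 * m * T.card)) < L * (cut G T : ℝ) := by
      have : 0 < (m : ℝ) * T.card := by positivity
      nlinarith
    exact lt_of_mul_lt_mul_left e1 hL0.le

end Pool.Agent.H32.VT
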