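import Pool.Agent.H32.VT.Act

/-!
# Unions and intersections of translates

`ascent`: one set of expansion `φ` gives sets of every larger size and nearly the same expansion.
`descent`: in a connected graph a set of small expansion with at most half of the points has an
intersection with a translate which is smaller by a constant factor, is not empty and has at most
`10` times the expansion.
-/

set_option autoImplicit false
set_option linter.unusedSectionVars false

namespace Pool.Agent.H32.VT

open Finset

section
variable {V : Type} [Fintype V] [DecidableEq V] {Γ : Type} [Group Γ] [Fintype Γ] [DecidableEq Γ]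
  [MulAction Γ V]

lemma avg (htr : ∀ x y : V, ∃ g : Γ, g • x = y) (F f : V → ℝ) :
    (Fintype.card V : ℝ) * ∑ g : Γ, ∑ x, F x * f (g • x)
      = Fintype.card Γ * ((∑ x, F x) * ∑ y, f y) := by
  rw [Finset.sum_comm]
  simp only [← Finset.mul_sum]
  rw [Finset.mul_sum]
  have : ∀ x, (Fintype.card V : ℝ) * (F x * ∑ g : Γ, f (g • x))
      = F x * (Fintype.card Γ * ∑ y, f y) := by
    intro x
    rw [← sum_orbit htr f x]
    ring
  rw [Finset.sum_congr rfl (fun x _ => this x), ← Finset.sum_mul]
  ring

lemma avg_inv (htr : ∀ x y : V, ∃ g : Γ, g • x = y) (F f : V → ℝ) :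
    (Fintype.card V : ℝ) * ∑ g : Γ, ∑ x, F x * f (g⁻¹ • x)
      = Fintype.card Γ * ((∑ x, F x) * ∑ y, f y) := by
  rw [← avg htr F f]
  congr 1
  exact Equiv.sum_comp (Equiv.inv Γ) (fun g => ∑ x, F x * f (g • x))

/-- weight of the boundary at a point -/
noncomputable def bd (w : V → V → ℝ) (S : Finset V) (x : V) : ℝ :=
  ∑ y, w x y * (ind S x * (1 - ind S y))

lemma sum_bd (w : V → V → ℝ) (S : Finset V) : ∑ x, bd w S x = B w S := rfl

lemma bd_tr {w : V → V → ℝ} (hinv : ∀ (g : Γ) x y, w (g • x) (g • y) = w x y) (g : Γ)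
    (S : Finset V) (x : V) : bd w (tr g S) (g • x) = bd w S x := by
  unfold bd
  rw [← sum_smul g]
  apply Finset.sum_congr rfl
  intro y _
  rw [hinv, ind_tr, ind_tr, inv_smul_smul, inv_smul_smul]

/-- the new boundary of the union with a translate -/
lemma new_bd {w : V → V → ℝ} (hinv : ∀ (g : Γ) x y, w (g • x) (g • y) = w x y) (g : Γ)
    (S : Finset V) (f : V → ℝ) :
    ∑ x, ∑ y, w x y * (ind (tr g S) x * (1 - ind (tr g S) y)) * f x
      = ∑ x, bd w S x * f (g • x) := by
  rw [← sum_smul g]
  apply Finset.sum_congr rfl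
  intro x _
  rw [← Finset.sum_mul]
  congr 1
  exact bd_tr hinv g S x

lemma card_sdiff_eq (g : Γ) (S U : Finset V) : ∑ x, ind S x * (1 - ind U (g • x))
    = ((tr g S \ U).card : ℝ) := by
  rw [← sum_ind, ← sum_smul g (ind (tr g S \ U))]
  apply Finset.sum_congr rfl
  intro x _
  unfold ind
  simp only [mem_sdiff, mem_tr, inv_smul_smul]
  by_cases h1 : x ∈ S <;> by_cases h2 : g • x ∈ U <;> simp [h1, h2]

/-- Unions of translates. -/
theorem ascent {w : V → V → ℝ} (hw : ∀ x y, 0 ≤ w x y)
    (hinv : ∀ (g : Γ) x y, w (g • x) (g • y) = w x y)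
    (htr : ∀ x y : V, ∃ g : Γ, g • x = y) {D : ℝ} (hD0 : 0 ≤ D) (hD : ∀ x, ∑ y, w x y ≤ D)
    (S : Finset V) (hS : S.Nonempty) (m : ℕ) (hm : m ≤ Fintype.card V) :
    ∃ T : Finset V, T.card = m ∧ B w T ≤ B w S / S.card * m + D * (S.card - 1) := by
  have hs0 : (0 : ℝ) < S.card := by exact_mod_cast hS.card_pos
  have hB0 := B_nonneg hw S
  set β : ℝ := B w S / S.card with hβ
  have hβ0 : 0 ≤ β := div_nonneg hB0 hs0.le
  have hβS : β * S.card = B w S := by
    rw [hβ]
    field_simp
  classical
  -- a largest good set
  obtain ⟨U, hU, hmax⟩ := Finset.exists_max_image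
    (univ.filter fun U : Finset V => U.card ≤ m ∧ B w U ≤ β * U.card) Finset.card
    ⟨∅, by simp [B_empty]⟩
  rw [mem_filter] at hU
  obtain ⟨_, hUm, hUB⟩ := hU
  have hlt : m < U.card + S.card := by
    by_contra hcon
    push Not at hcon
    have hUn : U.card < Fintype.card V := by
      have := hS.card_pos
      omega
    have hUn' : (0 : ℝ) < Fintype.card V - U.card := by
      have : (U.card : ℝ) < Fintype.card V := by exact_mod_cast hUn
      linarith
    have hΓ : (0 : ℝ) < Fintype.card Γ := by
      have : 0 < Fintype.card Γ := Fintype.card_pos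
      exact_mod_cast this
    have hn : (0 : ℝ) < Fintype.card V := by
      have : 0 < Fintype.card V := by omega
      exact_mod_cast this
    have hcU : ∑ y, (1 - ind U y) = (Fintype.card V : ℝ) - U.card := by
      rw [Finset.sum_sub_distrib, sum_ind]
      simp
    -- sums over the group
    have h1 := avg htr (bd w S) (fun x => 1 - ind U x)
    have h2 := avg htr (ind S) (fun x => 1 - ind U x)
    rw [hcU, sum_bd] at h1
    rw [hcU, sum_ind] at h2
    have hex : ∃ g : Γ, (0 : ℝ) < (tr g S \ U).card ∧
        ∑ x, bd w S x * (1 - ind U (g • x)) ≤ β * (tr g S \ U).card := by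
      by_contra hno
      push Not at hno
      have h3 : ∀ g : Γ, 0 ≤ ∑ x, bd w S x * (1 - ind U (g • x)) - β * (tr g S \ U).card := by
        intro g
        rcases (Nat.cast_nonneg (tr g S \ U).card : (0 : ℝ) ≤ _).lt_or_eq with h | h
        · linarith [hno g h]
        · rw [← h, mul_zero, sub_zero]
          apply Finset.sum_nonneg
          intro x _
          apply mul_nonneg
          · unfold bd
            apply Finset.sum_nonneg
            intro y _
            exact mul_nonneg (hw x y) (mul_nonneg (ind_nonneg S x) (by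
              linarith [ind_le_one S y]))
          · linarith [ind_le_one U (g • x)]
      have h4 : ∑ g : Γ, (∑ x, bd w S x * (1 - ind U (g • x)) - β * (tr g S \ U).card) = 0 := by
        rw [Finset.sum_sub_distrib, ← Finset.mul_sum]
        simp only [← card_sdiff_eq]
        have h5 : (Fintype.card V : ℝ) * (∑ g : Γ, ∑ x, bd w S x * (1 - ind U (g • x))
            - β * ∑ g : Γ, ∑ x, ind S x * (1 - ind U (g • x))) = 0 := by
          have h5' : (Fintype.card V : ℝ) * (β * ∑ g : Γ, ∑ x, ind S x * (1 - ind U (g • x)))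
            = β * (Fintype.card V * ∑ g : Γ, ∑ x, ind S x * (1 - ind U (g • x))) := by ring
          rw [mul_sub, h1, h5', h2, ← hβS]
          ring
        rcases mul_eq_zero.1 h5 with h | h
        · exact absurd h hn.ne'
        · exact h
      rw [Finset.sum_eq_zero_iff_of_nonneg (fun g _ => h3 g)] at h4
      have h6 : ∀ g : Γ, ((tr g S \ U).card : ℝ) = 0 := by
        intro g
        rcases (Nat.cast_nonneg (tr g S \ U).card : (0 : ℝ) ≤ _).lt_or_eq with h | h
        · have := hno g h
          have := h4 g (mem_univ g)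
          linarith
        · exact h.symm
      simp only [card_sdiff_eq, h6, Finset.sum_const_zero, mul_zero] at h2
      have : (0 : ℝ) < Fintype.card Γ * (S.card * (Fintype.card V - U.card)) := by positivity
      linarith
    obtain ⟨g, hg1, hg2⟩ := hex
    have h7 : (U ∪ tr g S).card = U.card + (tr g S \ U).card := by
      rw [← card_union_of_disjoint disjoint_sdiff, union_sdiff_self_eq_union]
    have h8 : (tr g S).card = S.card := by
      have := card_tr g S
      exact_mod_cast this
    have h9 : (tr g S \ U).card ≤ S.card := h8 ▸ card_le_card sdiff_subset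
    have h10 := hmax (U ∪ tr g S) (by
      rw [mem_filter]
      refine ⟨mem_univ _, by omega, ?_⟩
      refine (B_union_le hw U (tr g S)).trans ?_
      rw [new_bd hinv g S (fun x => 1 - ind U x), h7]
      push_cast
      linarith)
    rw [h7] at h10
    have h11 : 0 < (tr g S \ U).card := by exact_mod_cast hg1
    omega
  obtain ⟨T, hUT, hT⟩ := Finset.exists_superset_card_eq hUm hm
  refine ⟨T, hT, ?_⟩
  refine (B_superset_le hw hD hUT).trans ?_
  rw [hT]
  have h12 : (m : ℝ) + 1 ≤ U.card + S.card := by exact_mod_cast hlt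
  have h13 : (U.card : ℝ) ≤ m := by exact_mod_cast hUm
  have h14 : B w U ≤ β * m := hUB.trans (mul_le_mul_of_nonneg_left h13 hβ0)
  have h15 : D * ((m : ℝ) - U.card) ≤ D * (S.card - 1) :=
    mul_le_mul_of_nonneg_left (by linarith) hD0
  linarith

end

end Pool.Agent.H32.VT
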