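import Pool.Agent.H32.VT.Blocks
import Pool.Agent.H32.VT.Graph

/-!
# Small-set expanders with a transitive group are unions of boundedly many expanders
-/

set_option autoImplicit false
set_option linter.unusedSectionVars false

namespace Pool.Agent.H32.VT

open Finset

section
variable {V : Type} [Fintype V] [DecidableEq V] {Γ : Type} [Group Γ] [Fintype Γ] [DecidableEq Γ]
  [MulAction Γ V]

theorem structure_iter {w : V → V → ℝ} (hw : ∀ x y, 0 ≤ w x y) (hsym : ∀ x y, w x y = w y x)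
    (hinv : ∀ (g : Γ) x y, w (g • x) (g • y) = w x y)
    (htr : ∀ x y : V, ∃ g : Γ, g • x = y) {κ s M : ℝ} (hM : 1 ≤ M) (j : ℕ)
    (hj : (2 / 3 : ℝ) ^ j * (Fintype.card V / 2) ≤ s)
    (hsse : ∀ T : Finset V, T.Nonempty → (T.card : ℝ) ≤ s → κ * T.card < B w T) (f : ℕ) :
    ∀ (r : V → V → Prop) (α : ℝ), InvRel Γ r → 0 < α → (∀ x, wo w r x ≤ α / M) →
      (∀ x, ((cls r x).card : ℝ) ≤ 2 ^ f * s) → (31 * 10 ^ j * M) ^ f * α ≤ κ →
      ∃ (r' : V → V → Prop) (α' : ℝ), InvRel Γ r' ∧ α ≤ α' ∧ α' ≤ κ ∧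
        (∀ x, wo w r' x ≤ α' / M) ∧
        ∀ x, ∀ T ⊆ cls r' x, T.Nonempty → 2 * T.card ≤ (cls r' x).card →
          α' * T.card < B (wi w r') T := by
  have h10 : (1 : ℝ) ≤ 10 ^ j := one_le_pow₀ (by norm_num)
  have hM0 : 0 < M := by linarith
  have hq : (1 : ℝ) ≤ 31 * 10 ^ j * M := by nlinarith
  induction f with
  | zero =>
    intro r α hr hα hout hcls hκ
    rw [pow_zero, one_mul] at hκ
    rcases isEmpty_or_nonempty V with h | ⟨⟨x⟩⟩
    · exact ⟨r, α, hr, le_rfl, hκ, hout, fun x => h.elim x⟩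
    · exfalso
      have hx : x ∈ cls r x := (mem_cls r x x).2 (hr.eqv.refl x)
      have h1 := hcls x
      rw [pow_zero, one_mul] at h1
      have h2 := hsse (cls r x) ⟨x, hx⟩ h1
      have h3 := B_cls hr.eqv hout x
      have h4 : α / M ≤ α := div_le_self hα.le hM
      have h5 : (0 : ℝ) ≤ (cls r x).card := Nat.cast_nonneg _
      nlinarith
  | succ f ih =>
    intro r α hr hα hout hcls hκ
    have hqf : (1 : ℝ) ≤ (31 * 10 ^ j * M) ^ f := one_le_pow₀ hq
    have hκ1 : (31 * 10 ^ j * M) * α ≤ κ := by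
      refine le_trans ?_ hκ
      rw [pow_succ]
      have : 0 ≤ (31 * 10 ^ j * M) * α := by positivity
      nlinarith
    have hκ0 : α ≤ κ := by nlinarith
    by_cases hin : ∀ x, ∀ T ⊆ cls r x, T.Nonempty → 2 * T.card ≤ (cls r x).card →
          α * T.card < B (wi w r) T
    · exact ⟨r, α, hr, le_rfl, hκ0, hout, hin⟩
    · push Not at hin
      obtain ⟨x, T, hTx, hT, hT2, hBT⟩ := hin
      have hdiv : α / M ≤ α := div_le_self hα.le hM
      have h1 : (10 : ℝ) ^ j * α ≤ 10 ^ j * α * M := by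
        have : 0 ≤ (10 : ℝ) ^ j * α := by positivity
        nlinarith
      have h0 : α ≤ (10 : ℝ) ^ j * α := by nlinarith
      obtain ⟨r', e1, e2, e3, e4⟩ := refine_step hw hsym hinv htr hr hout hsse x j T α hα.le hTx hT
        hT2 (by
          have e1 : (T.card : ℝ) ≤ Fintype.card V / 2 := by
            have e2 : 2 * T.card ≤ Fintype.card V := hT2.trans (card_le_univ _)
            have e3 : (2 : ℝ) * T.card ≤ Fintype.card V := by exact_mod_cast e2
            linarith
          exact (mul_le_mul_of_nonneg_left e1 (by positivity)).trans hj) hBT (by linarith)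
      obtain ⟨r'', α'', f1, f2, f3, f4, f5⟩ := ih r' (31 * 10 ^ j * M * α) e1 (by positivity) (by
        intro y
        refine (e3 y).trans ?_
        have : 31 * 10 ^ j * M * α / M = 31 * 10 ^ j * α := by field_simp
        rw [this]
        linarith) (by
        intro y
        have g1 : (2 : ℝ) * (cls r' y).card ≤ (cls r y).card := by exact_mod_cast e4 y
        have g2 := hcls y
        rw [pow_succ] at g2
        linarith) (by
        rw [pow_succ] at hκ
        linarith)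
      refine ⟨r'', α'', f1, ?_, f3, f4, f5⟩
      refine le_trans ?_ f2
      nlinarith

end

section
variable {V : Type} [Fintype V] [DecidableEq V] (G : SimpleGraph V) [DecidableRel G.Adj]
variable {Γ : Type} [Group Γ] [Fintype Γ] [DecidableEq Γ] [MulAction Γ V]

lemma wt_nonneg (x y : V) : 0 ≤ wt G x y := by
  unfold wt
  split_ifs <;> norm_num

lemma wt_symm (x y : V) : wt G x y = wt G y x := by
  unfold wt
  simp only [G.adj_comm]

lemma wt_inv (hadj : ∀ (g : Γ) x y, G.Adj (g • x) (g • y) ↔ G.Adj x y) (g : Γ) (x y : V) :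
    wt G (g • x) (g • y) = wt G x y := by
  unfold wt
  simp only [hadj]

lemma wt_sum {d : ℕ} (hd : G.IsRegularOfDegree d) (x : V) : ∑ y, wt G x y = (d : ℝ) := by
  unfold wt
  rw [Finset.sum_ite, Finset.sum_const_zero, add_zero, Finset.sum_const, nsmul_eq_mul, mul_one]
  have h1 := hd x
  rw [SimpleGraph.degree] at h1
  have h2 : (univ.filter fun y => G.Adj x y) = G.neighborFinset x := by
    ext y
    simp
  rw [h2, h1]

/-- a small set of expansion `η / 2` gives sets of expansion `η` of all sizes from `δ n` -/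
theorem small_all {d : ℕ} (hd : G.IsRegularOfDegree d) (hd1 : 1 ≤ d)
    (hadj : ∀ (g : Γ) x y, G.Adj (g • x) (g • y) ↔ G.Adj x y)
    (htr : ∀ x y : V, ∃ g : Γ, g • x = y) {η δ : ℝ} (hη : 0 < η) (T : Finset V)
    (hT : T.Nonempty) (hTs : (T.card : ℝ) ≤ η * δ / 2 * Fintype.card V)
    (hB : B (wt G) T ≤ η * d / 2 * T.card) (k : ℕ) (hk : δ * Fintype.card V ≤ k)
    (hkn : k ≤ Fintype.card V) :
    ∃ T' : Finset V, T'.card = k ∧ (cut G T' : ℝ) / (d * T'.card) ≤ η := by
  have hd0 : (0 : ℝ) < d := by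
    have : 0 < d := hd1
    exact_mod_cast this
  have hT0 : (0 : ℝ) < T.card := by exact_mod_cast hT.card_pos
  obtain ⟨T', h1, h2⟩ := ascent (wt_nonneg G) (wt_inv G hadj) htr hd0.le
    (fun x => (wt_sum G hd x).le) T hT k hkn
  refine ⟨T', h1, ?_⟩
  rw [B_wt] at h2
  have h3 : B (wt G) T / T.card ≤ η * d / 2 := by
    rw [div_le_iff₀ hT0]
    exact hB
  rcases Nat.eq_zero_or_pos k with h0 | h0
  · rw [h1, h0]
    simp [hη.le]
  · have hk0 : (0 : ℝ) < k := by exact_mod_cast h0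
    rw [h1, div_le_iff₀ (by positivity)]
    refine h2.trans ?_
    have h4 : B (wt G) T / T.card * k ≤ η * d / 2 * k := mul_le_mul_of_nonneg_right h3 hk0.le
    have h5 : (T.card : ℝ) - 1 ≤ η / 2 * k := by
      have : η / 2 * (δ * Fintype.card V) ≤ η / 2 * k := mul_le_mul_of_nonneg_left hk (by linarith)
      linarith
    have h6 : (d : ℝ) * (T.card - 1) ≤ d * (η / 2 * k) := mul_le_mul_of_nonneg_left h5 hd0.le
    linarith

/-- sparse cuts in graphs of any degree -/
theorem graph_dichotomy {d : ℕ} (hd : G.IsRegularOfDegree d) (hd1 : 1 ≤ d)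
    (hadj : ∀ (g : Γ) x y, G.Adj (g • x) (g • y) ↔ G.Adj x y)
    (htr : ∀ x y : V, ∃ g : Γ, g • x = y) {η δ : ℝ} (hη : 0 < η) (hη1 : η ≤ 1)
    (hδ : 0 < δ) (hδ1 : δ ≤ 1) (S : Finset V) (hS : S.Nonempty)
    (hS2 : 2 * S.card ≤ Fintype.card V)
    (hB : (cut G S : ℝ) / (d * S.card) ≤ η ^ 7 * δ ^ 6 / 600) :
    (∀ k : ℕ, δ * Fintype.card V ≤ k → k ≤ Fintype.card V →
      ∃ T : Finset V, T.card = k ∧ (cut G T : ℝ) / (d * T.card) ≤ η) ∨
    ∃ r, InvRel Γ r ∧ (∀ x, 2 * (cls r x).card ≤ Fintype.card V) ∧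
      (∀ x, η * δ * Fintype.card V < 2 * (cls r x).card) ∧
      ∀ x, wo (wt G) r x ≤ 300 * ((cut G S : ℝ) / (d * S.card)) / (η * δ) ^ 6 * d := by
  have hs0 : (0 : ℝ) < S.card := by exact_mod_cast hS.card_pos
  have hd0 : (0 : ℝ) < d := by
    have : 0 < d := hd1
    exact_mod_cast this
  set t : ℝ := η * δ with ht
  have ht0 : 0 < t := mul_pos hη hδ
  have ht1 : t ≤ 1 := by
    rw [ht]
    nlinarith
  set φ : ℝ := (cut G S : ℝ) / (d * S.card) with hφ
  have hφ0 : 0 ≤ φ := by positivity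
  obtain ⟨j, hj1, hj2⟩ := exists_steps ht0 ht1
  have e0 : η ^ 7 * δ ^ 6 = η * t ^ 6 := by
    rw [ht]
    ring
  rw [e0] at hB
  have ht6 : 0 < t ^ 6 := by positivity
  have h10 : (10 : ℝ) ^ j ≤ 10 / t ^ 6 := by
    rw [le_div_iff₀ ht6]
    exact hj1.le
  have hkey : 300 * φ / t ^ 6 ≤ η / 2 := by
    rw [div_le_iff₀ ht6]
    linarith
  have hkey2 : 30 * 10 ^ j * (φ * d) ≤ 300 * φ / t ^ 6 * d := by
    calc 30 * 10 ^ j * (φ * d) = 10 ^ j * (30 * (φ * d)) := by ring
      _ ≤ 10 / t ^ 6 * (30 * (φ * d)) := mul_le_mul_of_nonneg_right h10 (by positivity)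
      _ = _ := by ring
  have hkey3 : 300 * φ / t ^ 6 * d ≤ η * d / 2 := by
    have := mul_le_mul_of_nonneg_right hkey hd0.le
    linarith
  by_cases hsse : ∀ T : Finset V, T.Nonempty → (T.card : ℝ) ≤ η * δ / 2 * Fintype.card V →
    η * d / 2 * T.card < B (wt G) T
  · right
    have hB' : B (wt G) S = φ * d * S.card := by
      rw [B_wt, hφ]
      field_simp
    obtain ⟨x, hx⟩ := hS
    have hcls : ∀ x : V, cls (fun _ _ => True) x = univ := by
      intro x
      ext y
      rw [mem_cls]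
      simp
    obtain ⟨r, h1, _, h3, h4⟩ := refine_step (Γ := Γ) (wt_nonneg G) (wt_symm G) (wt_inv G hadj) htr
      (r := fun _ _ => True) ⟨⟨fun _ => trivial, fun _ => trivial, fun _ _ => trivial⟩,
        fun _ _ _ _ => trivial⟩ (β := 0) (by
        intro x
        unfold wo
        simp) hsse x j S (φ * d) (by positivity) (by rw [hcls]; exact subset_univ _) ⟨x, hx⟩
      (by rw [hcls, card_univ]; exact hS2) (by
        have e1 : (2 : ℝ) * S.card ≤ Fintype.card V := by exact_mod_cast hS2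
        calc (2 / 3 : ℝ) ^ j * S.card ≤ t * S.card := mul_le_mul_of_nonneg_right hj2 hs0.le
          _ ≤ η * δ / 2 * Fintype.card V := by
            rw [ht]
            nlinarith) (by
        have : wi (wt G) (fun _ _ => True) = wt G := by
          funext a b
          unfold wi
          simp
        rw [this, hB']) (by
        have e1 : 0 ≤ 10 ^ j * (φ * d) := by positivity
        linarith)
    refine ⟨r, h1, ?_, ?_, ?_⟩
    · intro y
      have := h4 y
      rwa [hcls, card_univ] at this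
    · intro y
      by_contra hcon
      push Not at hcon
      have hy : y ∈ cls r y := (mem_cls r y y).2 (h1.eqv.refl y)
      have e1 := hsse (cls r y) ⟨y, hy⟩ (by linarith)
      have e2 := B_cls h1.eqv h3 y
      have e3 : (0 : ℝ) ≤ (cls r y).card := Nat.cast_nonneg _
      have e4 : 0 + 30 * 10 ^ j * (φ * d) ≤ η * d / 2 := by linarith
      have := mul_le_mul_of_nonneg_right e4 e3
      linarith
    · intro y
      linarith [h3 y]
  · left
    push Not at hsse
    obtain ⟨T, h1, h2, h3⟩ := hsse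
    intro k hk hkn
    exact small_all G hd hd1 hadj htr hη T h1 h2 h3 k hk hkn

/-- the constants of the structure theorem -/
lemma exists_consts {η δ M : ℝ} (hη : 0 < η) (hη1 : η ≤ 1) (hδ : 0 < δ) (hδ1 : δ ≤ 1)
    (hM : 1 ≤ M) : ∃ (j f : ℕ) (c : ℝ), 0 < c ∧ (2 / 3 : ℝ) ^ j ≤ η * δ ∧
      1 ≤ 2 ^ f * (η * δ / 2) ∧ (31 * 10 ^ j * M) ^ f * c = η / 2 := by
  have ht0 : 0 < η * δ := mul_pos hη hδ
  have ht1 : η * δ ≤ 1 := by nlinarith
  obtain ⟨j, _, hj⟩ := exists_steps ht0 ht1
  obtain ⟨f, hf⟩ := pow_unbounded_of_one_lt (1 / (η * δ / 2)) (by norm_num : (1 : ℝ) < 2)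
  rw [div_lt_iff₀ (by positivity)] at hf
  have h1 : (0 : ℝ) < (31 * 10 ^ j * M) ^ f := by
    have : 0 < M := by linarith
    positivity
  refine ⟨j, f, η / 2 / (31 * 10 ^ j * M) ^ f, by positivity, hj, hf.le, ?_⟩
  field_simp

/-- the structure theorem for graphs -/
theorem graph_structure {η δ M c : ℝ} (hη : 0 < η) (hδ : 0 < δ) (hM : 1 ≤ M) {j f : ℕ}
    (hc : 0 < c) (hj : (2 / 3 : ℝ) ^ j ≤ η * δ) (hf : 1 ≤ 2 ^ f * (η * δ / 2))
    (hc2 : (31 * 10 ^ j * M) ^ f * c = η / 2) {d : ℕ} (hd : G.IsRegularOfDegree d) (hd1 : 1 ≤ d)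
    (hadj : ∀ (g : Γ) x y, G.Adj (g • x) (g • y) ↔ G.Adj x y)
    (htr : ∀ x y : V, ∃ g : Γ, g • x = y) (k : ℕ) (hk : δ * Fintype.card V ≤ k)
    (hkn : k ≤ Fintype.card V)
    (hsse : ∀ T : Finset V, T.card = k → η < (cut G T : ℝ) / (d * T.card)) :
    ∃ (r : V → V → Prop) (a : ℝ), InvRel Γ r ∧ c ≤ a ∧
      (∀ x, η * δ * Fintype.card V < 2 * (cls r x).card) ∧
      (∀ x, wo (wt G) r x ≤ a / M * d) ∧
      ∀ x, ∀ T ⊆ cls r x, T.Nonempty → 2 * T.card ≤ (cls r x).card →
        a * d * T.card < B (wi (wt G) r) T := by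
  have hd0 : (0 : ℝ) < d := by
    have : 0 < d := hd1
    exact_mod_cast this
  have hsse' : ∀ T : Finset V, T.Nonempty → (T.card : ℝ) ≤ η * δ / 2 * Fintype.card V →
      η * d / 2 * T.card < B (wt G) T := by
    intro T h1 h2
    by_contra h3
    push Not at h3
    obtain ⟨T', h4, h5⟩ := small_all G hd hd1 hadj htr hη T h1 h2 h3 k hk hkn
    exact absurd (hsse T' h4) (not_lt.2 h5)
  have hn : (0 : ℝ) ≤ Fintype.card V := Nat.cast_nonneg _
  obtain ⟨r, α, h1, h2, h3, h4, h5⟩ := structure_iter (Γ := Γ) (wt_nonneg G) (wt_symm G)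
    (wt_inv G hadj) htr hM j (s := η * δ / 2 * Fintype.card V) (κ := η * d / 2) (by
      have := mul_le_mul_of_nonneg_right hj (by positivity : (0 : ℝ) ≤ Fintype.card V / 2)
      linarith) hsse' f (fun _ _ => True) (c * d)
    ⟨⟨fun _ => trivial, fun _ => trivial, fun _ _ => trivial⟩, fun _ _ _ _ => trivial⟩
    (by positivity) (by
      intro x
      unfold wo
      simp only [if_true, Finset.sum_const_zero]
      have : 0 < M := by linarith
      positivity) (by
      intro x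
      have e1 : ((cls (fun _ _ => True) x).card : ℝ) ≤ Fintype.card V := by
        exact_mod_cast card_le_univ _
      have e2 := mul_le_mul_of_nonneg_right hf hn
      linarith) (by
      have e1 : (31 * 10 ^ j * M) ^ f * c * d = η / 2 * d := by rw [hc2]
      linarith)
  refine ⟨r, α / d, h1, ?_, ?_, ?_, ?_⟩
  · rw [le_div_iff₀ hd0]
    exact h2
  · intro x
    by_contra hcon
    push Not at hcon
    have hx : x ∈ cls r x := (mem_cls r x x).2 (h1.eqv.refl x)
    have e1 := hsse' (cls r x) ⟨x, hx⟩ (by linarith)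
    have e2 := B_cls h1.eqv h4 x
    have e3 : (0 : ℝ) ≤ (cls r x).card := Nat.cast_nonneg _
    have e4 : α / M ≤ α := div_le_self (le_trans (by positivity) h2) hM
    nlinarith
  · intro x
    refine (h4 x).trans (le_of_eq ?_)
    field_simp
  · intro x T hT1 hT2 hT3
    have := h5 x T hT1 hT2 hT3
    have e1 : α / d * d * T.card = α * T.card := by field_simp
    rw [e1]
    exact this

end

end Pool.Agent.H32.VT
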