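import Pool.Agent.H32.VT.Metric

/-!
# Intersections of many translates

If the balls of the distance `sep` grow at most linearly, an intersection of random translates of
`S` is small and has a small boundary.
-/

set_option autoImplicit false
set_option linter.unusedSectionVars false

namespace Pool.Agent.H32.VT

open Finset

section
variable {V : Type} [Fintype V] [DecidableEq V] {Γ : Type} [Group Γ] [Fintype Γ] [DecidableEq Γ]
  [MulAction Γ V]

/-- intersection of translates -/
def inter {m : ℕ} (S : Finset V) (f : Fin m → Γ) : Finset V :=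
  univ.filter fun x => ∀ i, x ∈ tr (f i) S

lemma mem_inter' {m : ℕ} (S : Finset V) (f : Fin m → Γ) (x : V) :
    x ∈ inter S f ↔ ∀ i, x ∈ tr (f i) S := by
  unfold inter
  simp

lemma ind_inter {m : ℕ} (S : Finset V) (f : Fin m → Γ) (x : V) :
    ind (inter S f) x = ∏ i, ind (tr (f i) S) x := by
  by_cases h : ∀ i, x ∈ tr (f i) S
  · rw [ind_mem ((mem_inter' S f x).2 h)]
    symm
    apply Finset.prod_eq_one
    intro i _
    exact ind_mem (h i)
  · rw [ind_notMem (fun h' => h ((mem_inter' S f x).1 h'))]
    push Not at h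
    obtain ⟨i, hi⟩ := h
    symm
    exact Finset.prod_eq_zero (mem_univ i) (ind_notMem hi)

lemma sum_tuples (m : ℕ) (F : Γ → ℝ) : ∑ f : Fin m → Γ, ∏ i, F (f i) = (∑ g, F g) ^ m :=
  (Fintype.sum_pow F m).symm

lemma sum_ind_inter (m : ℕ) (S : Finset V) (x : V) :
    ∑ f : Fin m → Γ, ind (inter S f) x = am Γ S x ^ m := by
  simp only [ind_inter]
  exact sum_tuples m (fun g => ind (tr g S) x)

lemma sum_ind_inter₂ (m : ℕ) (S : Finset V) (x y : V) :
    ∑ f : Fin m → Γ, ind (inter S f) x * ind (inter S f) y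
      = (am Γ S x - sep Γ S x y) ^ m := by
  simp only [ind_inter, ← Finset.prod_mul_distrib]
  rw [sum_tuples m (fun g => ind (tr g S) x * ind (tr g S) y), sep_eq]
  congr 1
  ring

lemma pow_sub_le {a b : ℝ} (ha : 0 < a) (hba : b ≤ a) (m : ℕ) :
    a * (a ^ m - (a - b) ^ m) ≤ m * a ^ m * b := by
  have h1 : -2 ≤ -(b / a) := by
    have : b / a ≤ 1 := (div_le_one ha).2 hba
    linarith
  have h2 := one_add_mul_le_pow h1 m
  have h3 : (a - b) ^ m = a ^ m * (1 + -(b / a)) ^ m := by
    rw [← mul_pow]
    congr 1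
    field_simp
    ring
  have h4 : 0 < a ^ m := pow_pos ha m
  rw [h3]
  have h5 := mul_le_mul_of_nonneg_left h2 h4.le
  have h6 : a * (a ^ m * (m * -(b / a))) = -(m * a ^ m * b) := by
    field_simp
  nlinarith

/-- **Intersections of random translates.** -/
theorem tuple_sets {w : V → V → ℝ} (hw : ∀ x y, 0 ≤ w x y)
    (hinv : ∀ (g : Γ) x y, w (g • x) (g • y) = w x y)
    (htr : ∀ x y : V, ∃ g : Γ, g • x = y) (S : Finset V) (hS : S.Nonempty) (m : ℕ) (K : ℝ)
    (hK : 0 < K) (h : ∀ x, ∑ y, (am Γ S x - sep Γ S x y) ^ m ≤ K / 2 * am Γ S x ^ m) :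
    ∃ f : Fin m → Γ, (inter S f).Nonempty ∧ ((inter S f).card : ℝ) ≤ K ∧
      B w (inter S f) ≤ 2 * m * (B w S / S.card) * (inter S f).card := by
  obtain ⟨x0, hx0⟩ := hS
  set a := am Γ S x0 with ha
  have ha0 : 0 < a := am_pos htr ⟨x0, hx0⟩ x0
  have hax : ∀ x, am Γ S x = a := fun x => am_const htr S x x0
  have hs0 : (0 : ℝ) < S.card := by
    have : 0 < S.card := card_pos.2 ⟨x0, hx0⟩
    exact_mod_cast this
  have hn0 : (0 : ℝ) < Fintype.card V := by
    have : 0 < Fintype.card V := Fintype.card_pos_iff.2 ⟨x0⟩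
    exact_mod_cast this
  have hB0 := B_nonneg hw S
  set β : ℝ := B w S / S.card with hβ
  have hβ0 : 0 ≤ β := div_nonneg hB0 hs0.le
  have hβS : β * S.card = B w S := by
    rw [hβ]
    field_simp
  have ham : 0 < a ^ m := pow_pos ha0 m
  have hm0 : (0 : ℝ) ≤ m := Nat.cast_nonneg m
  have h1 : ∑ f : Fin m → Γ, ((inter S f).card : ℝ) = Fintype.card V * a ^ m := by
    calc ∑ f : Fin m → Γ, ((inter S f).card : ℝ) = ∑ f : Fin m → Γ, ∑ x, ind (inter S f) x := by
          simp only [sum_ind]
      _ = ∑ x : V, ∑ f : Fin m → Γ, ind (inter S f) x := Finset.sum_comm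
      _ = ∑ x : V, a ^ m := by
          apply Finset.sum_congr rfl
          intro x _
          rw [sum_ind_inter, hax]
      _ = _ := by rw [Finset.sum_const, card_univ, nsmul_eq_mul]
  have h2 : ∑ f : Fin m → Γ, ((inter S f).card : ℝ) ^ 2 ≤ Fintype.card V * (K / 2 * a ^ m) := by
    calc ∑ f : Fin m → Γ, ((inter S f).card : ℝ) ^ 2
        = ∑ f : Fin m → Γ, ∑ x, ∑ y, ind (inter S f) x * ind (inter S f) y := by
          apply Finset.sum_congr rfl
          intro f _
          rw [← sum_ind, sq, Finset.sum_mul_sum]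
      _ = ∑ x : V, ∑ y : V, (a - sep Γ S x y) ^ m := by
          rw [Finset.sum_comm]
          apply Finset.sum_congr rfl
          intro x _
          rw [Finset.sum_comm]
          apply Finset.sum_congr rfl
          intro y _
          rw [sum_ind_inter₂, hax]
      _ ≤ ∑ x : V, K / 2 * a ^ m := by
          apply Finset.sum_le_sum
          intro x _
          have := h x
          rwa [hax] at this
      _ = _ := by rw [Finset.sum_const, card_univ, nsmul_eq_mul]
  have h3 : a * ∑ f : Fin m → Γ, B w (inter S f) ≤ m * a ^ m * (Fintype.card Γ * B w S) := by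
    calc a * ∑ f : Fin m → Γ, B w (inter S f)
        = a * ∑ x, ∑ y, w x y * (a ^ m - (a - sep Γ S x y) ^ m) := by
          congr 1
          unfold B
          rw [Finset.sum_comm]
          apply Finset.sum_congr rfl
          intro x _
          rw [Finset.sum_comm]
          apply Finset.sum_congr rfl
          intro y _
          rw [← Finset.mul_sum]
          congr 1
          have e1 : ∀ f : Fin m → Γ, ind (inter S f) x * (1 - ind (inter S f) y)
              = ind (inter S f) x - ind (inter S f) x * ind (inter S f) y := by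
            intro f
            ring
          simp only [e1]
          rw [Finset.sum_sub_distrib, sum_ind_inter, sum_ind_inter₂, hax]
      _ = ∑ x, ∑ y, w x y * (a * (a ^ m - (a - sep Γ S x y) ^ m)) := by
          rw [Finset.mul_sum]
          apply Finset.sum_congr rfl
          intro x _
          rw [Finset.mul_sum]
          apply Finset.sum_congr rfl
          intro y _
          ring
      _ ≤ ∑ x, ∑ y, w x y * (m * a ^ m * sep Γ S x y) := by
          apply Finset.sum_le_sum
          intro x _
          apply Finset.sum_le_sum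
          intro y _
          apply mul_le_mul_of_nonneg_left _ (hw x y)
          apply pow_sub_le ha0
          rw [← hax x]
          exact sep_le S x y
      _ = m * a ^ m * ∑ x, ∑ y, w x y * sep Γ S x y := by
          rw [Finset.mul_sum]
          apply Finset.sum_congr rfl
          intro x _
          rw [Finset.mul_sum]
          apply Finset.sum_congr rfl
          intro y _
          ring
      _ = _ := by rw [sum_w_sep_total hinv S]
  have h4 : (Fintype.card Γ : ℝ) * B w S = a * (Fintype.card V * β) := by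
    have := am_eq (Γ := Γ) htr S x0
    rw [← hβS, ← ha] at *
    linear_combination (-β) * this
  have h5 : ∑ f : Fin m → Γ, B w (inter S f) ≤ m * a ^ m * (Fintype.card V * β) := by
    rw [h4] at h3
    have : a * ∑ f : Fin m → Γ, B w (inter S f) ≤ a * (m * a ^ m * (Fintype.card V * β)) := by
      linarith
    exact le_of_mul_le_mul_left this ha0
  by_contra hno
  push Not at hno
  -- the function `X`
  set X : (Fin m → Γ) → ℝ := fun f => (inter S f).card - ((inter S f).card : ℝ) ^ 2 / K with hX
  have h6 : Fintype.card V * a ^ m / 2 ≤ ∑ f, X f := by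
    simp only [hX]
    rw [Finset.sum_sub_distrib, ← Finset.sum_div, h1]
    have : (∑ f : Fin m → Γ, ((inter S f).card : ℝ) ^ 2) / K ≤ Fintype.card V * a ^ m / 2 := by
      rw [div_le_iff₀ hK]
      linarith
    linarith
  have h7 : ∀ f : Fin m → Γ, X f ≤ 0 ∨ 2 * m * β * X f < B w (inter S f) := by
    intro f
    by_cases hf : 0 < X f
    · right
      have e0 : (0 : ℝ) ≤ (inter S f).card := Nat.cast_nonneg _
      have e1 : (inter S f).Nonempty := by
        rw [Finset.nonempty_iff_ne_empty]
        intro e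
        simp only [hX] at hf
        rw [e] at hf
        simp at hf
      have e2 : ((inter S f).card : ℝ) ≤ K := by
        by_contra hcon
        push Not at hcon
        have : (inter S f).card ≤ ((inter S f).card : ℝ) ^ 2 / K := by
          rw [le_div_iff₀ hK, sq]
          exact mul_le_mul_of_nonneg_left hcon.le e0
        simp only [hX] at hf
        linarith
      have e3 := hno f e1 e2
      have e4 : X f ≤ (inter S f).card := by
        simp only [hX]
        have : 0 ≤ ((inter S f).card : ℝ) ^ 2 / K := by positivity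
        linarith
      have e5 : 2 * m * β * X f ≤ 2 * m * β * (inter S f).card :=
        mul_le_mul_of_nonneg_left e4 (by positivity)
      exact lt_of_le_of_lt e5 e3
    · left
      linarith
  have h8 : ∀ f : Fin m → Γ, 0 ≤ B w (inter S f) - 2 * m * β * X f := by
    intro f
    rcases h7 f with h | h
    · have e1 := B_nonneg hw (inter S f)
      have e2 : 2 * m * β * X f ≤ 0 := mul_nonpos_of_nonneg_of_nonpos (by positivity) h
      linarith
    · linarith
  have h9 : ∑ f : Fin m → Γ, (B w (inter S f) - 2 * m * β * X f) ≤ 0 := by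
    rw [Finset.sum_sub_distrib, ← Finset.mul_sum]
    have : 2 * m * β * (Fintype.card V * a ^ m / 2) ≤ 2 * m * β * ∑ f, X f :=
      mul_le_mul_of_nonneg_left h6 (by positivity)
    linarith
  have h10 : ∑ f : Fin m → Γ, (B w (inter S f) - 2 * m * β * X f) = 0 :=
    le_antisymm h9 (Finset.sum_nonneg fun f _ => h8 f)
  rw [Finset.sum_eq_zero_iff_of_nonneg (fun f _ => h8 f)] at h10
  have h11 : ∑ f, X f ≤ 0 := by
    apply Finset.sum_nonpos
    intro f _
    rcases h7 f with h | h
    · exact h
    · have := h10 f (mem_univ f)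
      linarith
  have h12 : (0 : ℝ) < Fintype.card V * a ^ m / 2 := by positivity
  linarith

lemma sum_geom_half (m : ℕ) : ∑ i ∈ range m, ((i : ℝ) + 1) * (1 / 2) ^ i
    = 4 - (m + 2) * 2 * (1 / 2) ^ m := by
  induction m with
  | zero => norm_num
  | succ m ih =>
    rw [Finset.sum_range_succ, ih]
    push_cast
    ring

lemma sum_geom_half_le (m : ℕ) : ∑ i ∈ range m, ((i : ℝ) + 1) * (1 / 2) ^ i ≤ 4 := by
  rw [sum_geom_half]
  have : (0 : ℝ) ≤ (m + 2) * 2 * (1 / 2) ^ m := by positivity
  linarith

lemma pow_le_half {m i : ℕ} {t : ℝ} (ht1 : t ≤ 1) (h : (i : ℝ) ≤ m * t) :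
    (1 - t) ^ m ≤ (1 / 2) ^ i := by
  have h1 : 1 - t ≤ Real.exp (-t) := by
    have := Real.add_one_le_exp (-t)
    linarith
  have h2 : (1 - t) ^ m ≤ Real.exp (-t) ^ m := pow_le_pow_left₀ (by linarith) h1 m
  have h3 : Real.exp (-t) ^ m = Real.exp (-(m * t)) := by
    rw [← Real.exp_nat_mul]
    congr 1
    ring
  have h4 : Real.exp (-(m * t)) ≤ Real.exp (-(i : ℝ)) := Real.exp_le_exp.2 (by linarith)
  have h5 : Real.exp (-(i : ℝ)) = Real.exp (-1) ^ i := by
    rw [← Real.exp_nat_mul]
    congr 1
    ring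
  have h6 : Real.exp (-1) ≤ 1 / 2 := by
    rw [Real.exp_neg, one_div]
    apply inv_anti₀ (by norm_num)
    have := Real.add_one_le_exp (1 : ℝ)
    linarith
  have h7 : Real.exp (-1) ^ i ≤ (1 / 2) ^ i := pow_le_pow_left₀ (Real.exp_pos _).le h6 i
  linarith

lemma sum_am_sub_sep (S : Finset V) (x : V) :
    ∑ y, (am Γ S x - sep Γ S x y) = am Γ S x * S.card := by
  rw [Finset.sum_sub_distrib, sum_sep, Finset.sum_const, card_univ, nsmul_eq_mul]
  ring

/-- linear growth of the balls -/
theorem sum_pow_le (htr : ∀ x y : V, ∃ g : Γ, g • x = y) (S : Finset V) (hS : S.Nonempty)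
    (m : ℕ) (hm : 1 ≤ m) (x : V)
    (h : ∀ i : ℕ, 2 * i < m →
      ((ball Γ S (((i : ℝ) + 1) / m) x).card : ℝ) ≤ 20 * (((i : ℝ) + 1) / m) * S.card) :
    ∑ y, (am Γ S x - sep Γ S x y) ^ m ≤ 82 * S.card / m * am Γ S x ^ m := by
  set a := am Γ S x with ha
  have ha0 : 0 < a := am_pos htr hS x
  have hm0 : (0 : ℝ) < m := by exact_mod_cast hm
  have ham : 0 < a ^ m := pow_pos ha0 m
  have hs0 : (0 : ℝ) < S.card := by exact_mod_cast hS.card_pos
  set I := (range m).filter (fun i => 2 * i < m) with hI
  have h1 : ∀ y, (a - sep Γ S x y) ^ m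
      ≤ a ^ m * (∑ i ∈ I, (1 / 2 : ℝ) ^ i * ind (ball Γ S (((i : ℝ) + 1) / m) x) y
        + 2 * (1 / 2) ^ m * ((a - sep Γ S x y) / a)) := by
    intro y
    set t : ℝ := sep Γ S x y / a with ht
    have ht0 : 0 ≤ t := div_nonneg (sep_nonneg S x y) ha0.le
    have ht1 : t ≤ 1 := (div_le_one ha0).2 (sep_le S x y)
    have e0 : (a - sep Γ S x y) / a = 1 - t := by
      rw [ht]
      field_simp
    have e1 : (a - sep Γ S x y) ^ m = a ^ m * (1 - t) ^ m := by
      rw [← mul_pow]
      congr 1
      rw [ht]
      field_simp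
    rw [e1, e0]
    apply mul_le_mul_of_nonneg_left _ ham.le
    have hsum0 : ∀ i ∈ I,
        0 ≤ (1 / 2 : ℝ) ^ i * ind (ball Γ S (((i : ℝ) + 1) / m) x) y := fun i _ =>
      mul_nonneg (by positivity) (ind_nonneg _ _)
    rcases lt_or_ge t (1 / 2) with h2 | h2
    · -- the level
      set i := ⌊(m : ℝ) * t⌋₊ with hi
      have e2 : (i : ℝ) ≤ m * t := Nat.floor_le (by positivity)
      have e3 : (m : ℝ) * t < i + 1 := Nat.lt_floor_add_one _
      have e4 : 2 * i < m := by
        have : 2 * (i : ℝ) < m := by nlinarith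
        exact_mod_cast this
      have e5 : y ∈ ball Γ S (((i : ℝ) + 1) / m) x := by
        rw [mem_ball, ← ha]
        have e6 : sep Γ S x y = t * a := by
          rw [ht]
          field_simp
        rw [e6]
        apply mul_lt_mul_of_pos_right _ ha0
        rw [lt_div_iff₀ hm0]
        linarith
      refine (pow_le_half ht1 e2).trans ?_
      have e7 := Finset.single_le_sum hsum0 (show i ∈ I by
        rw [hI, mem_filter, mem_range]
        exact ⟨by omega, e4⟩)
      rw [ind_mem e5, mul_one] at e7
      have e8 : 0 ≤ 2 * (1 / 2 : ℝ) ^ m * (1 - t) := by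
        have : 0 ≤ 1 - t := by linarith
        positivity
      linarith
    · have e2 := Finset.sum_nonneg hsum0
      have e3 : (1 - t) ^ m ≤ 2 * (1 / 2) ^ m * (1 - t) := by
        obtain ⟨k, rfl⟩ : ∃ k, m = k + 1 := ⟨m - 1, by omega⟩
        have e4 : (1 - t) ^ k ≤ (1 / 2) ^ k := pow_le_pow_left₀ (by linarith) (by linarith) k
        have e5 := mul_le_mul_of_nonneg_right e4 (by linarith : 0 ≤ 1 - t)
        calc (1 - t) ^ (k + 1) = (1 - t) ^ k * (1 - t) := pow_succ _ _
          _ ≤ (1 / 2) ^ k * (1 - t) := e5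
          _ = _ := by
            rw [pow_succ]
            ring
      linarith
  have hpow : 2 * (1 / 2 : ℝ) ^ m ≤ 2 / m := by
    have e1 : (m : ℝ) ≤ 2 ^ m := by exact_mod_cast (Nat.lt_two_pow_self (n := m)).le
    rw [one_div, inv_pow, le_div_iff₀ hm0]
    have e2 : (0 : ℝ) < 2 ^ m := by positivity
    have e3 : ((2 : ℝ) ^ m)⁻¹ * m ≤ 1 := by
      rw [inv_mul_le_iff₀ e2]
      linarith
    linarith
  calc ∑ y, (a - sep Γ S x y) ^ m
      ≤ ∑ y, a ^ m * (∑ i ∈ I, (1 / 2 : ℝ) ^ i * ind (ball Γ S (((i : ℝ) + 1) / m) x) y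
        + 2 * (1 / 2) ^ m * ((a - sep Γ S x y) / a)) :=
        Finset.sum_le_sum fun y _ => h1 y
    _ = a ^ m * (∑ i ∈ I, (1 / 2 : ℝ) ^ i * (ball Γ S (((i : ℝ) + 1) / m) x).card
        + 2 * (1 / 2) ^ m * S.card) := by
        rw [← Finset.mul_sum, Finset.sum_add_distrib, Finset.sum_comm, ← Finset.mul_sum,
          ← Finset.sum_div, sum_am_sub_sep]
        congr 2
        · apply Finset.sum_congr rfl
          intro i _
          rw [← Finset.mul_sum, sum_ind]
        · rw [← ha]
          field_simp
    _ ≤ a ^ m * (∑ i ∈ range m, (20 * S.card / m) * (((i : ℝ) + 1) * (1 / 2) ^ i)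
        + 2 / m * S.card) := by
        apply mul_le_mul_of_nonneg_left _ ham.le
        apply add_le_add
        · refine (Finset.sum_le_sum (g := fun i : ℕ =>
            (20 * (S.card : ℝ) / m) * (((i : ℝ) + 1) * (1 / 2) ^ i)) ?_).trans ?_
          · intro i hi
            have := mul_le_mul_of_nonneg_left (h i (mem_filter.1 hi).2)
              (by positivity : (0 : ℝ) ≤ (1 / 2) ^ i)
            refine this.trans (le_of_eq ?_)
            field_simp
          · apply Finset.sum_le_sum_of_subset_of_nonneg (filter_subset _ _)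
            intro i _ _
            positivity
        · exact mul_le_mul_of_nonneg_right hpow hs0.le
    _ ≤ a ^ m * (20 * S.card / m * 4 + 2 / m * S.card) := by
        apply mul_le_mul_of_nonneg_left _ ham.le
        rw [← Finset.mul_sum]
        have := mul_le_mul_of_nonneg_left (sum_geom_half_le m)
          (by positivity : (0 : ℝ) ≤ 20 * S.card / m)
        linarith
    _ = _ := by ring

end

end Pool.Agent.H32.VT
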